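import Mathlib

/-!
# Spins on spheres: integration by parts
-/

open MeasureTheory Filter Set
open scoped Topology RealInnerProductSpace

namespace Pool.Agent.T2h21.YM

set_option linter.unusedSectionVars false
set_option linter.unusedVariables false

noncomputable section

section gen

variable {Ω : Type*} [TopologicalSpace Ω] [CompactSpace Ω] [MeasurableSpace Ω]
  [OpensMeasurableSpace Ω] [SecondCountableTopology Ω] (P : Measure Ω) [IsFiniteMeasure P]

lemma int_cont {E : Type*} [NormedAddCommGroup E] {f : Ω → E} (hf : Continuous f) :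
    Integrable f P :=
  hf.integrable_of_hasCompactSupport (HasCompactSupport.of_compactSpace _)

/-- differentiation under the integral -/
lemma hasDerivAt_int {f f' : ℝ → Ω → ℝ} (hf : ∀ s, Continuous (f s))
    (hf' : Continuous (Function.uncurry f')) (h : ∀ s x, HasDerivAt (fun s => f s x) (f' s x) s)
    (s0 : ℝ) : HasDerivAt (fun s => ∫ x, f s x ∂P) (∫ x, f' s0 x ∂P) s0 := by
  obtain ⟨C, hC⟩ := ((isCompact_Icc (a := s0 - 1) (b := s0 + 1)).prod
    (isCompact_univ (X := Ω))).exists_bound_of_continuousOn hf'.continuousOn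
  have hc' : ∀ s, Continuous (f' s) := fun s =>
    hf'.comp (Continuous.prodMk continuous_const continuous_id)
  refine (hasDerivAt_integral_of_dominated_loc_of_deriv_le (bound := fun _ => C)
    (Metric.ball_mem_nhds s0 one_pos)
    (Eventually.of_forall fun s => (hf s).aestronglyMeasurable) (int_cont P (hf s0))
    (hc' s0).aestronglyMeasurable (Eventually.of_forall fun x s hs => ?_)
    (integrable_const C) (Eventually.of_forall fun x s _ => h s x)).2
  refine hC (s, x) ⟨?_, Set.mem_univ _⟩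
  rw [Metric.mem_ball, Real.dist_eq, abs_lt] at hs
  constructor <;> linarith [hs.1, hs.2]

lemma cont_int {f : ℝ → Ω → ℝ} (hf : Continuous (Function.uncurry f)) :
    Continuous fun s => ∫ x, f s x ∂P := by
  have h := continuous_parametric_integral_of_continuous (μ := P) hf isCompact_univ
  simpa only [Measure.restrict_univ] using h

end gen

/-- A group `K` with a map `io` to the unit sphere of the euclidean space `V` of dimension `m + 1`,
such that the one-parameter groups `ex c` act as the rotations generated by `J c`. -/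
structure Spin (K : Type*) [Group K] [TopologicalSpace K] (V : Type*) [NormedAddCommGroup V]
    [InnerProductSpace ℝ V] (m : ℕ) where
  io : K → V
  cont : Continuous io
  nrm : ∀ k, ‖io k‖ = 1
  J : Fin m → V →L[ℝ] V
  ex : Fin m → ℝ → K
  ex_io : ∀ c s k, io (ex c s * k) = Real.cos s • io k + Real.sin s • J c (io k)
  JJ : ∀ c v, J c (J c v) = -v
  comp : ∀ q w h : V, ‖q‖ = 1 → ∑ c, ⟪w, J c q⟫ * ⟪h, J c q⟫ = ⟪w, h⟫ - ⟪w, q⟫ * ⟪h, q⟫

section flow

variable {K : Type*} [Group K] [TopologicalSpace K] {V : Type*} [NormedAddCommGroup V]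
  [InnerProductSpace ℝ V] {m : ℕ} (S : Spin K V m)
  {Ω : Type*} [TopologicalSpace Ω] [CompactSpace Ω] [MeasurableSpace Ω]
  [OpensMeasurableSpace Ω] [SecondCountableTopology Ω] (P : Measure Ω) [IsFiniteMeasure P]
  {σ w h : Ω → V} {E0 : Ω → ℝ} {θ : Fin m → ℝ → Ω → Ω}

/-- one generator -/
lemma flow_c (c : Fin m) (hσ : Continuous σ) (hw : Continuous w) (hh : Continuous h)
    (hE : Continuous E0)
    (hinv : ∀ s, ∀ F : Ω → ℝ, Continuous F → ∫ x, F (θ c s x) ∂P = ∫ x, F x ∂P)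
    (hθσ : ∀ s x, σ (θ c s x) = Real.cos s • σ x + Real.sin s • S.J c (σ x))
    (hθw : ∀ s x, w (θ c s x) = w x) (hθh : ∀ s x, h (θ c s x) = h x)
    (hθE : ∀ s x, E0 (θ c s x) = E0 x) (ρ : ℝ) :
    ∫ x, (-⟪w x, σ x⟫ + ρ * (⟪w x, S.J c (σ x)⟫ * ⟪h x, S.J c (σ x)⟫)) *
      Real.exp (ρ * ⟪h x, σ x⟫ + E0 x) ∂P = 0 := by
  obtain ⟨a, ha⟩ : ∃ a : Ω → ℝ, a = fun x => ⟪w x, σ x⟫ := ⟨_, rfl⟩
  obtain ⟨b, hb⟩ : ∃ b : Ω → ℝ, b = fun x => ⟪w x, S.J c (σ x)⟫ := ⟨_, rfl⟩
  obtain ⟨p, hp⟩ : ∃ p : Ω → ℝ, p = fun x => ⟪h x, σ x⟫ := ⟨_, rfl⟩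
  obtain ⟨q, hq⟩ : ∃ q : Ω → ℝ, q = fun x => ⟪h x, S.J c (σ x)⟫ := ⟨_, rfl⟩
  have hJ : Continuous fun x => S.J c (σ x) := (S.J c).continuous.comp hσ
  have hac : Continuous a := by rw [ha]; exact hw.inner hσ
  have hbc : Continuous b := by rw [hb]; exact hw.inner hJ
  have hpc : Continuous p := by rw [hp]; exact hh.inner hσ
  have hqc : Continuous q := by rw [hq]; exact hh.inner hJ
  obtain ⟨f, hf⟩ : ∃ f : ℝ → Ω → ℝ, f = fun s x => (Real.cos s * b x - Real.sin s * a x) *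
    Real.exp (ρ * (Real.cos s * p x + Real.sin s * q x) + E0 x) := ⟨_, rfl⟩
  obtain ⟨f', hf'⟩ : ∃ f' : ℝ → Ω → ℝ, f' = fun s x =>
    ((-Real.sin s * b x - Real.cos s * a x) + (Real.cos s * b x - Real.sin s * a x) *
      (ρ * (-Real.sin s * p x + Real.cos s * q x))) *
    Real.exp (ρ * (Real.cos s * p x + Real.sin s * q x) + E0 x) := ⟨_, rfl⟩
  have c1 : Continuous (Function.uncurry f) := by
    rw [hf]; unfold Function.uncurry; fun_prop
  have c2 : Continuous (Function.uncurry f') := by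
    rw [hf']; unfold Function.uncurry; fun_prop
  have hd : ∀ s x, HasDerivAt (fun s => f s x) (f' s x) s := by
    intro s x
    rw [hf, hf']
    have h1 : HasDerivAt (fun s => Real.cos s * b x - Real.sin s * a x)
        (-Real.sin s * b x - Real.cos s * a x) s :=
      ((Real.hasDerivAt_cos s).mul_const _).sub ((Real.hasDerivAt_sin s).mul_const _)
    have h2 : HasDerivAt (fun s => ρ * (Real.cos s * p x + Real.sin s * q x) + E0 x)
        (ρ * (-Real.sin s * p x + Real.cos s * q x)) s :=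
      ((((Real.hasDerivAt_cos s).mul_const _).add
        ((Real.hasDerivAt_sin s).mul_const _)).const_mul ρ).add_const _
    have h3 := h1.mul h2.exp
    refine h3.congr_deriv ?_
    simp only
    ring
  have h0 := hasDerivAt_int P (f := f) (f' := f') (fun s => by
    exact c1.comp (Continuous.prodMk continuous_const continuous_id)) c2 hd 0
  have hconst : ∀ s, ∫ x, f s x ∂P = ∫ x, b x * Real.exp (ρ * p x + E0 x) ∂P := by
    intro s
    rw [← hinv s (fun x => b x * Real.exp (ρ * p x + E0 x)) (by fun_prop)]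
    refine integral_congr_ae (Eventually.of_forall fun x => ?_)
    simp only [hf, hb, hp, hq, ha]
    rw [hθσ, hθw, hθh, hθE, map_add, map_smul, map_smul, S.JJ, inner_add_right, inner_add_right,
      inner_smul_right, inner_smul_right, inner_smul_right, inner_smul_right, inner_neg_right]
    congr 1
    ring
  have h1 : HasDerivAt (fun s => ∫ x, f s x ∂P) 0 0 := by
    have : (fun s => ∫ x, f s x ∂P) = fun _ => ∫ x, b x * Real.exp (ρ * p x + E0 x) ∂P :=
      funext hconst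
    rw [this]
    exact hasDerivAt_const _ _
  have h2 := h0.unique h1
  rw [← h2, hf']
  refine integral_congr_ae (Eventually.of_forall fun x => ?_)
  simp only [Real.sin_zero, Real.cos_zero, ha, hb, hp, hq]
  ring_nf

variable (σ w h E0) in
/-- the two-point function as a function of the strength of the field -/
def PsiF (ρ : ℝ) : ℝ := ∫ x, ⟪w x, σ x⟫ * Real.exp (ρ * ⟪h x, σ x⟫ + E0 x) ∂P

variable (σ w h E0) in
/-- the contraction with the field -/
def XF (ρ : ℝ) : ℝ := ∫ x, ⟪w x, h x⟫ * Real.exp (ρ * ⟪h x, σ x⟫ + E0 x) ∂P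

variable (σ h E0) in
/-- the partition function -/
def ZF (ρ : ℝ) : ℝ := ∫ x, Real.exp (ρ * ⟪h x, σ x⟫ + E0 x) ∂P

lemma PsiF_deriv (hσ : Continuous σ) (hw : Continuous w) (hh : Continuous h)
    (hE : Continuous E0) (ρ : ℝ) : HasDerivAt (PsiF P σ w h E0)
      (∫ x, ⟪w x, σ x⟫ * ⟪h x, σ x⟫ * Real.exp (ρ * ⟪h x, σ x⟫ + E0 x) ∂P) ρ := by
  have hws : Continuous fun x => ⟪w x, σ x⟫ := hw.inner hσ
  have hhs : Continuous fun x => ⟪h x, σ x⟫ := hh.inner hσ
  refine hasDerivAt_int P (f := fun ρ x => ⟪w x, σ x⟫ * Real.exp (ρ * ⟪h x, σ x⟫ + E0 x))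
    (f' := fun ρ x => ⟪w x, σ x⟫ * ⟪h x, σ x⟫ * Real.exp (ρ * ⟪h x, σ x⟫ + E0 x))
    (fun s => by fun_prop) (by unfold Function.uncurry; fun_prop) (fun s x => ?_) ρ
  have h1 : HasDerivAt (fun s => s * ⟪h x, σ x⟫ + E0 x) ⟪h x, σ x⟫ s := by
    simpa using ((hasDerivAt_id s).mul_const ⟪h x, σ x⟫).add_const (E0 x)
  refine (h1.exp.const_mul ⟪w x, σ x⟫).congr_deriv ?_
  ring

lemma ZF_deriv (hσ : Continuous σ) (hh : Continuous h) (hE : Continuous E0) (ρ : ℝ) :
    HasDerivAt (ZF P σ h E0) (PsiF P σ h h E0 ρ) ρ := by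
  have hhs : Continuous fun x => ⟪h x, σ x⟫ := hh.inner hσ
  refine hasDerivAt_int P (f := fun ρ x => Real.exp (ρ * ⟪h x, σ x⟫ + E0 x))
    (f' := fun ρ x => ⟪h x, σ x⟫ * Real.exp (ρ * ⟪h x, σ x⟫ + E0 x))
    (fun s => by fun_prop) (by unfold Function.uncurry; fun_prop) (fun s x => ?_) ρ
  have h1 : HasDerivAt (fun s => s * ⟪h x, σ x⟫ + E0 x) ⟪h x, σ x⟫ s := by
    simpa using ((hasDerivAt_id s).mul_const ⟪h x, σ x⟫).add_const (E0 x)
  refine h1.exp.congr_deriv ?_
  ring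

lemma XF_cont (hσ : Continuous σ) (hw : Continuous w) (hh : Continuous h)
    (hE : Continuous E0) : Continuous (XF P σ w h E0) := by
  have hhs : Continuous fun x => ⟪h x, σ x⟫ := hh.inner hσ
  have hwh : Continuous fun x => ⟪w x, h x⟫ := hw.inner hh
  exact cont_int P (f := fun ρ x => ⟪w x, h x⟫ * Real.exp (ρ * ⟪h x, σ x⟫ + E0 x))
    (by unfold Function.uncurry; fun_prop)

include S in
/-- the identity of the spheres -/
theorem flow_id (hm : 1 ≤ m) (hσ : Continuous σ) (hw : Continuous w) (hh : Continuous h)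
    (hE : Continuous E0) (hn : ∀ x, ‖σ x‖ = 1)
    (hinv : ∀ c s, ∀ F : Ω → ℝ, Continuous F → ∫ x, F (θ c s x) ∂P = ∫ x, F x ∂P)
    (hθσ : ∀ c s x, σ (θ c s x) = Real.cos s • σ x + Real.sin s • S.J c (σ x))
    (hθw : ∀ c s x, w (θ c s x) = w x) (hθh : ∀ c s x, h (θ c s x) = h x)
    (hθE : ∀ c s x, E0 (θ c s x) = E0 x) (ρ : ℝ) :
    ρ ^ m * PsiF P σ w h E0 ρ = ∫ r in (0 : ℝ)..ρ, r ^ m * XF P σ w h E0 r := by
  have hws : Continuous fun x => ⟪w x, σ x⟫ := hw.inner hσ
  have hhs : Continuous fun x => ⟪h x, σ x⟫ := hh.inner hσ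
  have hwh : Continuous fun x => ⟪w x, h x⟫ := hw.inner hh
  have key : ∀ r : ℝ, m * PsiF P σ w h E0 r +
      r * ∫ x, ⟪w x, σ x⟫ * ⟪h x, σ x⟫ * Real.exp (r * ⟪h x, σ x⟫ + E0 x) ∂P =
      r * XF P σ w h E0 r := by
    intro r
    have h1 : ∑ c : Fin m, ∫ x, (-⟪w x, σ x⟫ + r * (⟪w x, S.J c (σ x)⟫ * ⟪h x, S.J c (σ x)⟫)) *
      Real.exp (r * ⟪h x, σ x⟫ + E0 x) ∂P = 0 :=
      Finset.sum_eq_zero fun c _ => flow_c S P c hσ hw hh hE (hinv c) (hθσ c) (hθw c) (hθh c)
        (hθE c) r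
    have hJ : ∀ c, Continuous fun x => S.J c (σ x) := fun c => (S.J c).continuous.comp hσ
    rw [← integral_finsetSum _ (fun c _ => int_cont P (by
      have h2 : Continuous fun x => ⟪w x, S.J c (σ x)⟫ := hw.inner (hJ c)
      have h3 : Continuous fun x => ⟪h x, S.J c (σ x)⟫ := hh.inner (hJ c)
      fun_prop))] at h1
    have h2 : ∫ x, (r * (⟪w x, h x⟫ * Real.exp (r * ⟪h x, σ x⟫ + E0 x)) -
        (m * (⟪w x, σ x⟫ * Real.exp (r * ⟪h x, σ x⟫ + E0 x)) +
          r * (⟪w x, σ x⟫ * ⟪h x, σ x⟫ * Real.exp (r * ⟪h x, σ x⟫ + E0 x)))) ∂P = 0 := by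
      rw [← h1]
      refine integral_congr_ae (Eventually.of_forall fun x => ?_)
      simp only
      rw [← Finset.sum_mul, Finset.sum_add_distrib, ← Finset.mul_sum, S.comp _ _ _ (hn x)]
      simp only [Finset.sum_const, Finset.card_univ, Fintype.card_fin, nsmul_eq_mul]
      ring
    rw [integral_sub (int_cont P (by fun_prop)) (int_cont P (by fun_prop)),
      integral_add (int_cont P (by fun_prop)) (int_cont P (by fun_prop)), integral_const_mul,
      integral_const_mul, integral_const_mul] at h2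
    unfold PsiF XF
    linarith
  have hder : ∀ r : ℝ, HasDerivAt (fun r => r ^ m * PsiF P σ w h E0 r)
      (r ^ m * XF P σ w h E0 r) r := by
    intro r
    have h1 := (hasDerivAt_pow m r).mul (PsiF_deriv P hσ hw hh hE r)
    refine h1.congr_deriv ?_
    have h2 : r ^ m = r ^ (m - 1) * r := by
      rw [← pow_succ]; congr 1; omega
    have h3 := key r
    rw [h2, mul_assoc (r ^ (m - 1)) r (XF P σ w h E0 r), ← h3]
    ring
  have hXc := XF_cont P hσ hw hh hE
  have h4 := intervalIntegral.integral_eq_sub_of_hasDerivAt (a := 0) (b := ρ)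
    (f := fun r => r ^ m * PsiF P σ w h E0 r) (f' := fun r => r ^ m * XF P σ w h E0 r)
    (fun r _ => hder r) (by
      refine Continuous.intervalIntegrable ?_ _ _
      exact (continuous_pow m).mul hXc)
  rw [h4, zero_pow (by omega), zero_mul, sub_zero]

/-- the bound of the two-point function -/
theorem flow_bound (hm : 1 ≤ m) (hσ : Continuous σ) (hw : Continuous w) (hh : Continuous h)
    (hE : Continuous E0) (hn : ∀ x, ‖σ x‖ = 1)
    (hinv : ∀ c s, ∀ F : Ω → ℝ, Continuous F → ∫ x, F (θ c s x) ∂P = ∫ x, F x ∂P)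
    (hθσ : ∀ c s x, σ (θ c s x) = Real.cos s • σ x + Real.sin s • S.J c (σ x))
    (hθw : ∀ c s x, w (θ c s x) = w x) (hθh : ∀ c s x, h (θ c s x) = h x)
    (hθE : ∀ c s x, E0 (θ c s x) = E0 x) {C : ℝ}
    (hX : ∀ r, 0 ≤ r → r ≤ 1 → |XF P σ w h E0 r| ≤ C) :
    |PsiF P σ w h E0 1| ≤ C / (m + 1) := by
  have h1 := flow_id S P hm hσ hw hh hE hn hinv hθσ hθw hθh hθE 1
  rw [one_pow, one_mul] at h1
  rw [h1]
  have h2 : ‖∫ r in (0 : ℝ)..1, r ^ m * XF P σ w h E0 r‖ ≤ ∫ r in (0 : ℝ)..1, r ^ m * C := by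
    refine intervalIntegral.norm_integral_le_of_norm_le zero_le_one
      (Eventually.of_forall fun r hr => ?_)
      (Continuous.intervalIntegrable (by fun_prop) _ _)
    rw [Real.norm_eq_abs, abs_mul, abs_of_nonneg (pow_nonneg hr.1.le m)]
    exact mul_le_mul_of_nonneg_left (hX r hr.1.le hr.2) (pow_nonneg hr.1.le m)
  rw [intervalIntegral.integral_mul_const, integral_pow, one_pow, zero_pow (by omega), sub_zero]
    at h2
  rw [Real.norm_eq_abs] at h2
  refine h2.trans (le_of_eq ?_)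
  ring

/-- the partition function is increasing in the field -/
theorem flow_mono (hm : 1 ≤ m) (hσ : Continuous σ) (hh : Continuous h)
    (hE : Continuous E0) (hn : ∀ x, ‖σ x‖ = 1)
    (hinv : ∀ c s, ∀ F : Ω → ℝ, Continuous F → ∫ x, F (θ c s x) ∂P = ∫ x, F x ∂P)
    (hθσ : ∀ c s x, σ (θ c s x) = Real.cos s • σ x + Real.sin s • S.J c (σ x))
    (hθh : ∀ c s x, h (θ c s x) = h x)
    (hθE : ∀ c s x, E0 (θ c s x) = E0 x) {r : ℝ} (h0 : 0 ≤ r) (h1 : r ≤ 1) :
    ZF P σ h E0 r ≤ ZF P σ h E0 1 := by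
  have hpos : ∀ ρ : ℝ, 0 < ρ → 0 ≤ PsiF P σ h h E0 ρ := by
    intro ρ hρ
    have e1 := flow_id S P hm hσ hh hh hE hn hinv hθσ hθh hθh hθE ρ
    have e2 : 0 ≤ ∫ r in (0 : ℝ)..ρ, r ^ m * XF P σ h h E0 r := by
      refine intervalIntegral.integral_nonneg hρ.le fun s hs => ?_
      refine mul_nonneg (pow_nonneg hs.1 m) (integral_nonneg fun x => ?_)
      exact mul_nonneg real_inner_self_nonneg (Real.exp_pos _).le
    rw [← e1] at e2
    exact nonneg_of_mul_nonneg_right e2 (pow_pos hρ m)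
  have hd := ZF_deriv P (σ := σ) (h := h) (E0 := E0) hσ hh hE
  have hmono : MonotoneOn (ZF P σ h E0) (Set.Ici 0) := by
    refine monotoneOn_of_deriv_nonneg (convex_Ici 0)
      (fun x _ => (hd x).continuousAt.continuousWithinAt)
      (fun x _ => (hd x).differentiableAt.differentiableWithinAt) fun x hx => ?_
    rw [interior_Ici] at hx
    rw [(hd x).deriv]
    exact hpos x hx
  exact hmono (Set.mem_Ici.2 h0) (Set.mem_Ici.2 zero_le_one) h1

end flow

end

end Pool.Agent.T2h21.YM
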