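import Mathlib
import Pool.Agent.T2h21.YM.Spin

/-!
# Two-point functions are dominated by a random walk
-/

open MeasureTheory Filter Set
open scoped Topology RealInnerProductSpace

namespace Pool.Agent.T2h21.YM

set_option linter.unusedSectionVars false
set_option linter.unusedVariables false

noncomputable section

variable {K : Type*} [Group K] [TopologicalSpace K] [IsTopologicalGroup K] [CompactSpace K]
  [SecondCountableTopology K] [MeasurableSpace K] [BorelSpace K] (κ : Measure K)
  [IsProbabilityMeasure κ] [κ.IsMulLeftInvariant]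
  {V : Type*} [NormedAddCommGroup V] [InnerProductSpace ℝ V] [CompleteSpace V] {m : ℕ}
  (S : Spin K V m) {A I : Type*} [Fintype A] [DecidableEq A] [Fintype I]
  (src tgt : I → A)

/-- the energy of the bonds -/
def En (Q : I → V →L[ℝ] V) (k : A → K) : ℝ :=
  ∑ e, ⟪S.io (k (src e)), Q e (S.io (k (tgt e)))⟫

/-- the field at `a` -/
def fld (Q : I → V →L[ℝ] V) (a : A) (k : A → K) : V :=
  ∑ e, ((if src e = a then Q e (S.io (k (tgt e))) else 0) +
    (if tgt e = a then (Q e).adjoint (S.io (k (src e))) else 0))

/-- the energy without `a` -/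
def E0 (Q : I → V →L[ℝ] V) (a : A) (k : A → K) : ℝ :=
  ∑ e, if src e = a ∨ tgt e = a then 0 else ⟪S.io (k (src e)), Q e (S.io (k (tgt e)))⟫

/-- the couplings of `a` multiplied by `r` -/
def sc (Q : I → V →L[ℝ] V) (a : A) (r : ℝ) (e : I) : V →L[ℝ] V :=
  (if src e = a ∨ tgt e = a then r else 1) • Q e

variable {src tgt}

lemma En_sc (hst : ∀ e, src e ≠ tgt e) (Q : I → V →L[ℝ] V) (a : A) (r : ℝ) (k : A → K) :
    En S src tgt (sc src tgt Q a r) k =
      r * ⟪fld S src tgt Q a k, S.io (k a)⟫ + E0 S src tgt Q a k := by
  unfold En fld E0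
  rw [sum_inner, Finset.mul_sum, ← Finset.sum_add_distrib]
  refine Finset.sum_congr rfl fun e _ => ?_
  unfold sc
  by_cases h1 : src e = a
  · have h2 : tgt e ≠ a := fun h => hst e (h1.trans h.symm)
    simp only [h1, h2, true_or, if_true, if_false, add_zero]
    rw [_root_.smul_apply, inner_smul_right, real_inner_comm]
  · by_cases h2 : tgt e = a
    · simp only [h1, h2, or_true, if_true, if_false, add_zero, zero_add]
      rw [_root_.smul_apply, inner_smul_right, ContinuousLinearMap.adjoint_inner_left]
    · simp only [h1, h2, or_false, if_false, add_zero, inner_zero_left, mul_zero, zero_add, one_smul]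

lemma sc_one (Q : I → V →L[ℝ] V) (a : A) : sc src tgt Q a 1 = Q := by
  funext e
  unfold sc
  rw [ite_self, one_smul]

lemma En_cont (Q : I → V →L[ℝ] V) : Continuous (En S src tgt Q : (A → K) → ℝ) := by
  unfold En
  have := S.cont
  fun_prop

lemma E0_cont (Q : I → V →L[ℝ] V) (a : A) : Continuous (E0 S src tgt Q a : (A → K) → ℝ) := by
  unfold E0
  have := S.cont
  refine continuous_finsetSum _ fun e _ => ?_
  split_ifs <;> fun_prop

lemma fld_cont (Q : I → V →L[ℝ] V) (a : A) : Continuous (fld S src tgt Q a : (A → K) → V) := by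
  unfold fld
  have := S.cont
  refine continuous_finsetSum _ fun e _ => ?_
  refine Continuous.add ?_ ?_ <;> split_ifs <;> fun_prop

lemma fld_upd (hst : ∀ e, src e ≠ tgt e) (Q : I → V →L[ℝ] V) (a : A) (k : A → K) (t : K) :
    fld S src tgt Q a (Function.update k a t) = fld S src tgt Q a k := by
  unfold fld
  refine Finset.sum_congr rfl fun e _ => ?_
  congr 1
  · split_ifs with h
    · rw [Function.update_of_ne (fun h' => hst e (h.trans h'.symm))]
    · rfl
  · split_ifs with h
    · rw [Function.update_of_ne (fun h' => hst e (h'.trans h.symm))]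
    · rfl

lemma E0_upd (Q : I → V →L[ℝ] V) (a : A) (k : A → K) (t : K) :
    E0 S src tgt Q a (Function.update k a t) = E0 S src tgt Q a k := by
  unfold E0
  refine Finset.sum_congr rfl fun e _ => ?_
  split_ifs with h
  · rfl
  · rw [not_or] at h
    rw [Function.update_of_ne h.1, Function.update_of_ne h.2]

/-- the measure -/
abbrev MP (A : Type*) [Fintype A] : Measure (A → K) := Measure.pi fun _ => κ

lemma upd_mp (a : A) (t : K) : MeasurePreserving (fun k : A → K => Function.update k a (t * k a))
    (MP κ A) (MP κ A) := by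
  have h1 : (fun k : A → K => Function.update k a (t * k a)) =
      fun k i => (if i = a then (fun z => t * z) else id) (k i) := by
    funext k i
    by_cases h : i = a
    · subst h; simp
    · simp [h]
  rw [h1]
  refine measurePreserving_pi _ _ fun i => ?_
  by_cases h : i = a
  · simp only [h, if_true]
    exact measurePreserving_mul_left κ t
  · simp only [h, if_false]
    exact MeasurePreserving.id κ

variable (src tgt) in
/-- the partition function -/
def ZZ (Q : I → V →L[ℝ] V) : ℝ := ∫ k : A → K, Real.exp (En S src tgt Q k) ∂(MP κ A)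

variable (src tgt) in
/-- the two-point function -/
def TT (Q : I → V →L[ℝ] V) (a b : A) (C : V →L[ℝ] V) : ℝ :=
  ∫ k : A → K, ⟪S.io (k a), C (S.io (k b))⟫ * Real.exp (En S src tgt Q k) ∂(MP κ A)

lemma ZZ_pos (Q : I → V →L[ℝ] V) : 0 < ZZ κ S src tgt Q := by
  unfold ZZ
  exact integral_exp_pos (int_cont _ (Real.continuous_exp.comp (En_cont S Q)))

lemma TT_le (Q : I → V →L[ℝ] V) (a b : A) (C : V →L[ℝ] V) :
    |TT κ S src tgt Q a b C| ≤ ‖C‖ * ZZ κ S src tgt Q := by
  have hc := S.cont
  have hE := En_cont (src := src) (tgt := tgt) S Q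
  unfold TT ZZ
  rw [← Real.norm_eq_abs, ← integral_const_mul]
  refine norm_integral_le_of_norm_le (int_cont _ (by fun_prop)) (Eventually.of_forall fun k => ?_)
  rw [norm_mul, Real.norm_eq_abs, Real.norm_eq_abs, Real.abs_exp]
  refine mul_le_mul_of_nonneg_right ?_ (Real.exp_pos _).le
  refine (abs_real_inner_le_norm _ _).trans ?_
  rw [S.nrm, one_mul]
  refine (C.le_opNorm _).trans ?_
  rw [S.nrm, mul_one]

lemma TT_zero (Q : I → V →L[ℝ] V) (a b : A) : TT κ S src tgt Q a b 0 = 0 := by
  unfold TT
  simp

section rec

variable (hst : ∀ e, src e ≠ tgt e) (Q : I → V →L[ℝ] V) {a b : A} (hab : a ≠ b)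
  (C : V →L[ℝ] V)

include hst in
lemma ZZ_mono (hm : 1 ≤ m) {r : ℝ} (h0 : 0 ≤ r) (h1 : r ≤ 1) :
    ZZ κ S src tgt (sc src tgt Q a r) ≤ ZZ κ S src tgt Q := by
  have hσ : Continuous fun k : A → K => S.io (k a) := S.cont.comp (continuous_apply a)
  have e1 : ∀ r, ZZ κ S src tgt (sc src tgt Q a r) =
      ZF (MP κ A) (fun k : A → K => S.io (k a)) (fld S src tgt Q a) (E0 S src tgt Q a) r := by
    intro r
    unfold ZZ ZF
    simp only [En_sc S hst]
  have e2 : ZZ κ S src tgt Q = ZZ κ S src tgt (sc src tgt Q a 1) := by rw [sc_one]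
  rw [e2, e1, e1]
  refine flow_mono S (MP κ A) (θ := fun c s k => Function.update k a (S.ex c s * k a)) hm hσ
    (fld_cont S Q a) (E0_cont S Q a) (fun k => S.nrm _) (fun c s F hF => ?_)
    (fun c s k => ?_) (fun c s k => fld_upd S hst Q a k _) (fun c s k => E0_upd S Q a k _) h0 h1
  · have h2 := (upd_mp κ a (S.ex c s)).map_eq
    conv_rhs => rw [← h2]
    rw [integral_map (upd_mp κ a (S.ex c s)).measurable.aemeasurable hF.aestronglyMeasurable]
  · simp only [Function.update_self]
    exact S.ex_io c s (k a)

include hst hab in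
/-- the recursion as a bound -/
lemma TT_rec (hm : 1 ≤ m) {D : ℝ}
    (hD : ∀ r, 0 ≤ r → r ≤ 1 → |∑ e, ((if src e = a then
        TT κ S src tgt (sc src tgt Q a r) (tgt e) b ((Q e).adjoint.comp C) else 0) +
      (if tgt e = a then TT κ S src tgt (sc src tgt Q a r) (src e) b ((Q e).comp C) else 0))| ≤ D) :
    |TT κ S src tgt Q a b C| ≤ D / (m + 1) := by
  have hc := S.cont
  have hσ : Continuous fun k : A → K => S.io (k a) := S.cont.comp (continuous_apply a)
  have hw : Continuous fun k : A → K => C (S.io (k b)) := by fun_prop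
  have e1 : TT κ S src tgt Q a b C = PsiF (MP κ A) (fun k : A → K => S.io (k a))
      (fun k : A → K => C (S.io (k b))) (fld S src tgt Q a) (E0 S src tgt Q a) 1 := by
    unfold TT PsiF
    refine integral_congr_ae (Eventually.of_forall fun k => ?_)
    simp only
    rw [← En_sc S hst, sc_one, real_inner_comm]
  rw [e1]
  refine flow_bound S (MP κ A) (θ := fun c s k => Function.update k a (S.ex c s * k a)) hm hσ hw
    (fld_cont S Q a) (E0_cont S Q a) (fun k => S.nrm _) (fun c s F hF => ?_)
    (fun c s k => ?_) (fun c s k => ?_) (fun c s k => fld_upd S hst Q a k _)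
    (fun c s k => E0_upd S Q a k _) (fun r h0 h1 => ?_)
  · have h2 := (upd_mp κ a (S.ex c s)).map_eq
    conv_rhs => rw [← h2]
    rw [integral_map (upd_mp κ a (S.ex c s)).measurable.aemeasurable hF.aestronglyMeasurable]
  · simp only [Function.update_self]
    exact S.ex_io c s (k a)
  · show C (S.io (Function.update k a _ b)) = _
    rw [Function.update_of_ne hab.symm]
  · refine le_trans (le_of_eq ?_) (hD r h0 h1)
    congr 1
    unfold XF
    have e2 : ∀ k : A → K, ⟪C (S.io (k b)), fld S src tgt Q a k⟫ *
        Real.exp (r * ⟪fld S src tgt Q a k, S.io (k a)⟫ + E0 S src tgt Q a k) =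
        ∑ e, ((if src e = a then ⟪S.io (k (tgt e)), ((Q e).adjoint.comp C) (S.io (k b))⟫ *
          Real.exp (En S src tgt (sc src tgt Q a r) k) else 0) +
          (if tgt e = a then ⟪S.io (k (src e)), ((Q e).comp C) (S.io (k b))⟫ *
          Real.exp (En S src tgt (sc src tgt Q a r) k) else 0)) := by
      intro k
      rw [← En_sc S hst]
      conv_lhs => unfold fld
      rw [inner_sum, Finset.sum_mul]
      refine Finset.sum_congr rfl fun e _ => ?_
      rw [inner_add_right, add_mul]
      congr 1
      · split_ifs with h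
        · rw [ContinuousLinearMap.comp_apply, ContinuousLinearMap.adjoint_inner_right,
            real_inner_comm]
        · rw [inner_zero_right, zero_mul]
      · split_ifs with h
        · rw [ContinuousLinearMap.comp_apply, ContinuousLinearMap.adjoint_inner_right,
            real_inner_comm]
        · rw [inner_zero_right, zero_mul]
    simp only [e2]
    have hE := En_cont (src := src) (tgt := tgt) S (sc src tgt Q a r)
    have hi1 : ∀ e, Continuous fun k : A → K => (if src e = a then
        ⟪S.io (k (tgt e)), ((Q e).adjoint.comp C) (S.io (k b))⟫ *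
          Real.exp (En S src tgt (sc src tgt Q a r) k) else 0) := by
      intro e
      split_ifs <;> fun_prop
    have hi2 : ∀ e, Continuous fun k : A → K => (if tgt e = a then
        ⟪S.io (k (src e)), ((Q e).comp C) (S.io (k b))⟫ *
          Real.exp (En S src tgt (sc src tgt Q a r) k) else 0) := by
      intro e
      split_ifs <;> fun_prop
    have hi3 : ∀ e, Continuous fun k : A → K => ((if src e = a then
        ⟪S.io (k (tgt e)), ((Q e).adjoint.comp C) (S.io (k b))⟫ *
          Real.exp (En S src tgt (sc src tgt Q a r) k) else 0) + (if tgt e = a then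
        ⟪S.io (k (src e)), ((Q e).comp C) (S.io (k b))⟫ *
          Real.exp (En S src tgt (sc src tgt Q a r) k) else 0)) := fun e => (hi1 e).add (hi2 e)
    rw [integral_finsetSum _ (fun e _ => int_cont _ (hi3 e))]
    refine Finset.sum_congr rfl fun e _ => ?_
    rw [integral_add (int_cont _ (hi1 e)) (int_cont _ (hi2 e))]
    congr 1
    · split_ifs with h
      · rfl
      · simp
    · split_ifs with h
      · rfl
      · simp

end rec

/-- **Domination of the two-point function.** -/
theorem walk (hm : 1 ≤ m) (hst : ∀ e, src e ≠ tgt e) {M : I → ℝ} (hM : ∀ e, 0 ≤ M e)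
    {g : A → ℝ} {b : A} {θ : ℝ} (hg : ∀ a, 0 ≤ g a) (hgb : 1 ≤ g b) (hθ0 : 0 ≤ θ) (hθ1 : θ < 1)
    (hrow : ∀ a, ∑ e, ((if src e = a then M e else 0) + (if tgt e = a then M e else 0)) ≤
      (m + 1) * θ)
    (hsup : ∀ a, a ≠ b → ∑ e, ((if src e = a then M e * g (tgt e) else 0) +
      (if tgt e = a then M e * g (src e) else 0)) ≤ (m + 1) * g a)
    {Q : I → V →L[ℝ] V} (hQ : ∀ e, ‖Q e‖ ≤ M e) (a : A) (C : V →L[ℝ] V) :
    |TT κ S src tgt Q a b C| ≤ ‖C‖ * g a * ZZ κ S src tgt Q := by
  have hm1 : (0 : ℝ) < m + 1 := by positivity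
  have key : ∀ (j : ℕ) (Q : I → V →L[ℝ] V), (∀ e, ‖Q e‖ ≤ M e) → ∀ (a : A) (C : V →L[ℝ] V),
      |TT κ S src tgt Q a b C| ≤ ‖C‖ * (g a + θ ^ j) * ZZ κ S src tgt Q := by
    intro j
    induction j with
    | zero =>
      intro Q hQ a C
      refine (TT_le κ S Q a b C).trans ?_
      refine mul_le_mul_of_nonneg_right ?_ (ZZ_pos κ S Q).le
      rw [pow_zero]
      exact le_mul_of_one_le_right (norm_nonneg _) (by linarith [hg a])
    | succ j ih =>
      intro Q hQ a C
      have hZ := ZZ_pos κ (src := src) (tgt := tgt) S Q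
      by_cases hab : a = b
      · subst hab
        refine (TT_le κ S Q a a C).trans (mul_le_mul_of_nonneg_right ?_ hZ.le)
        exact le_mul_of_one_le_right (norm_nonneg _) (by have := pow_nonneg hθ0 (j + 1); linarith)
      · have h1 := TT_rec κ S hst Q hab C hm (D := ‖C‖ * ((m + 1) * (g a + θ ^ (j + 1))) *
          ZZ κ S src tgt Q) (fun r h0 h1 => by
          have hQr : ∀ e, ‖sc src tgt Q a r e‖ ≤ M e := by
            intro e
            unfold sc
            rw [norm_smul, Real.norm_eq_abs]
            refine le_trans ?_ (hQ e)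
            refine mul_le_of_le_one_left (norm_nonneg _) ?_
            split_ifs
            · rw [abs_of_nonneg h0]; exact h1
            · rw [abs_one]
          have hZr := ZZ_mono κ (a := a) S hst Q hm h0 h1
          have hZr0 := ZZ_pos κ (src := src) (tgt := tgt) S (sc src tgt Q a r)
          have hadj : ∀ e, ‖(Q e).adjoint.comp C‖ ≤ M e * ‖C‖ := by
            intro e
            refine (ContinuousLinearMap.opNorm_comp_le _ _).trans ?_
            rw [LinearIsometryEquiv.norm_map]
            exact mul_le_mul_of_nonneg_right (hQ e) (norm_nonneg _)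
          have hcmp : ∀ e, ‖(Q e).comp C‖ ≤ M e * ‖C‖ := by
            intro e
            refine (ContinuousLinearMap.opNorm_comp_le _ _).trans ?_
            exact mul_le_mul_of_nonneg_right (hQ e) (norm_nonneg _)
          have hstep : ∀ (x : A) (C' : V →L[ℝ] V) (e : I), ‖C'‖ ≤ M e * ‖C‖ →
              |TT κ S src tgt (sc src tgt Q a r) x b C'| ≤
                ‖C‖ * (M e * g x + M e * θ ^ j) * ZZ κ S src tgt Q := by
            intro x C' e hC'
            refine (ih _ hQr x C').trans ?_
            have p1 : 0 ≤ g x + θ ^ j := by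
              have := hg x; have := pow_nonneg hθ0 j; linarith
            calc ‖C'‖ * (g x + θ ^ j) * ZZ κ S src tgt (sc src tgt Q a r)
                ≤ (M e * ‖C‖) * (g x + θ ^ j) * ZZ κ S src tgt Q :=
                  mul_le_mul (mul_le_mul_of_nonneg_right hC' p1) hZr hZr0.le
                    (mul_nonneg (mul_nonneg (hM e) (norm_nonneg _)) p1)
              _ = _ := by ring
          refine (Finset.abs_sum_le_sum_abs _ _).trans ?_
          have h2 : ∀ e, |((if src e = a then
              TT κ S src tgt (sc src tgt Q a r) (tgt e) b ((Q e).adjoint.comp C) else 0) +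
            (if tgt e = a then TT κ S src tgt (sc src tgt Q a r) (src e) b ((Q e).comp C) else 0))|
              ≤ ‖C‖ * ZZ κ S src tgt Q * (((if src e = a then M e * g (tgt e) else 0) +
                (if tgt e = a then M e * g (src e) else 0)) +
                θ ^ j * ((if src e = a then M e else 0) + (if tgt e = a then M e else 0))) := by
            intro e
            refine (abs_add_le _ _).trans ?_
            have e1 : |if src e = a then
                TT κ S src tgt (sc src tgt Q a r) (tgt e) b ((Q e).adjoint.comp C) else 0| ≤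
                ‖C‖ * ZZ κ S src tgt Q * ((if src e = a then M e * g (tgt e) else 0) +
                  θ ^ j * (if src e = a then M e else 0)) := by
              split_ifs
              · refine (hstep _ _ e (hadj e)).trans (le_of_eq ?_); ring
              · simp
            have e2 : |if tgt e = a then
                TT κ S src tgt (sc src tgt Q a r) (src e) b ((Q e).comp C) else 0| ≤
                ‖C‖ * ZZ κ S src tgt Q * ((if tgt e = a then M e * g (src e) else 0) +
                  θ ^ j * (if tgt e = a then M e else 0)) := by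
              split_ifs
              · refine (hstep _ _ e (hcmp e)).trans (le_of_eq ?_); ring
              · simp
            linarith
          refine (Finset.sum_le_sum fun e _ => h2 e).trans ?_
          rw [← Finset.mul_sum, Finset.sum_add_distrib, ← Finset.mul_sum]
          have h3 := hsup a hab
          have h4 := mul_le_mul_of_nonneg_left (hrow a) (pow_nonneg hθ0 j)
          have h5 : 0 ≤ ‖C‖ * ZZ κ S src tgt Q := mul_nonneg (norm_nonneg _) hZ.le
          calc _ ≤ ‖C‖ * ZZ κ S src tgt Q * ((m + 1) * g a + θ ^ j * ((m + 1) * θ)) :=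
                mul_le_mul_of_nonneg_left (add_le_add h3 h4) h5
            _ = _ := by ring)
        refine h1.trans (le_of_eq ?_)
        field_simp
  have h6 : Tendsto (fun j : ℕ => ‖C‖ * (g a + θ ^ j) * ZZ κ S src tgt Q) atTop
      (𝓝 (‖C‖ * (g a + 0) * ZZ κ S src tgt Q)) :=
    ((tendsto_const_nhds.add (tendsto_pow_atTop_nhds_zero_of_lt_one hθ0 hθ1)).const_mul _).mul_const _
  rw [add_zero] at h6
  exact ge_of_tendsto' h6 fun j => key j Q hQ a C

end

end Pool.Agent.T2h21.YM
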