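import Mathlib
import Pool.Agent.T2h21.YM.Walk
import Pool.Agent.TH190.YV.SlabM

/-!
# Block subgroups
-/

open MeasureTheory Matrix
open scoped Matrix.Norms.Frobenius ContDiff RealInnerProductSpace
open Pool.Agent.H906R3.YM hiding Pl
open Pool.Agent.W793.YM Pool.Agent.TH618.YM Pool.Agent.TH190.YV

namespace Pool.Agent.T2h21.YM

set_option linter.unusedSectionVars false
set_option linter.unusedVariables false

noncomputable section

variable {K : Type*} [Group K] [TopologicalSpace K]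
  {V : Type*} [NormedAddCommGroup V] [InnerProductSpace ℝ V] [FiniteDimensional ℝ V] {m : ℕ}

/-- operators from bounded bilinear forms -/
lemma exists_op (β : V →ₗ[ℝ] V →ₗ[ℝ] ℝ) {c : ℝ} (hc : 0 ≤ c)
    (h : ∀ s s', |β s s'| ≤ c * ‖s‖ * ‖s'‖) :
    ∃ Q : V →L[ℝ] V, (∀ s s', ⟪s, Q s'⟫ = β s s') ∧ ‖Q‖ ≤ c := by
  have b := stdOrthonormalBasis ℝ V
  obtain ⟨Q, hQ⟩ : ∃ Q : V →ₗ[ℝ] V, Q = ∑ i, (β (b i)).smulRight (b i) := ⟨_, rfl⟩
  have h1 : ∀ s s', ⟪s, Q s'⟫ = β s s' := by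
    intro s s'
    rw [hQ]
    simp only [LinearMap.sum_apply, LinearMap.smulRight_apply, inner_sum, inner_smul_right]
    conv_rhs => rw [← b.sum_repr' s]
    rw [map_sum, LinearMap.sum_apply]
    refine Finset.sum_congr rfl fun i _ => ?_
    rw [map_smul, LinearMap.smul_apply, smul_eq_mul, real_inner_comm, mul_comm]
  refine ⟨LinearMap.toContinuousLinearMap Q, h1, ContinuousLinearMap.opNorm_le_bound _ hc fun v => ?_⟩
  have h2 := h1 (Q v) v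
  have h3 := h (Q v) v
  rw [← h2, real_inner_self_eq_norm_sq, abs_of_nonneg (sq_nonneg _)] at h3
  show ‖Q v‖ ≤ _
  rcases (norm_nonneg (Q v)).eq_or_lt with h0 | h0
  · rw [← h0]; positivity
  · have : ‖Q v‖ * ‖Q v‖ ≤ (c * ‖v‖) * ‖Q v‖ := by nlinarith
    exact le_of_mul_le_mul_right this h0

variable {G : Type*} [Group G] [TopologicalSpace G] {N n : ℕ}

/-- A subgroup of block diagonal matrices of `G`, each block being a copy of the sphere of `V`. -/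
structure Blk (L : LD G N n) (S : Spin K V m) (P : Type*) [Fintype P] [DecidableEq P]
    (b : ℕ) where
  E : P → V →ₗ[ℝ] Mat N
  Q : P → Mat N
  Qh : ∀ p, (Q p)ᴴ = Q p
  Qm : ∀ p, Q p * Q p = Q p
  Qs : ∑ p, Q p = 1
  Qt : ∀ p, (trace (Q p)).re ≤ b
  EQ : ∀ p v, E p v * Q p = E p v
  QE : ∀ p v, Q p * E p v = E p v
  EE : ∀ p v, (E p v)ᴴ * E p v = (‖v‖ ^ 2) • Q p
  emb : (P → K) → G
  emb_cont : Continuous emb
  rho_emb : ∀ k, L.rho (emb k) = ∑ p, E p (S.io (k p))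

variable {L : LD G N n} {S : Spin K V m} {P : Type*} [Fintype P] [DecidableEq P] {b : ℕ}
  (W : Blk L S P b)

lemma norm_ct' (A : Mat N) : ‖Aᴴ‖ = ‖A‖ := Matrix.frobenius_norm_conjTranspose A

lemma Qsq (p : P) (X : Mat N) : ‖W.Q p * X‖ ^ 2 = (trace (Xᴴ * (W.Q p * X))).re := by
  rw [norm_sq_ip, ip_apply, conjTranspose_mul, W.Qh]
  have : Xᴴ * W.Q p * (W.Q p * X) = Xᴴ * (W.Q p * W.Q p * X) := by noncomm_ring
  rw [this, W.Qm]

lemma sum_Q (X : Mat N) : ∑ p, ‖W.Q p * X‖ ^ 2 = ‖X‖ ^ 2 := by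
  simp only [Qsq]
  rw [← Complex.re_sum, ← trace_sum, ← Finset.mul_sum, ← Finset.sum_mul, W.Qs, one_mul,
    norm_sq_ip, ip_apply]

lemma sum_Q' (X : Mat N) : ∑ p, ‖X * W.Q p‖ ^ 2 = ‖X‖ ^ 2 := by
  have h1 : ∀ p, ‖X * W.Q p‖ = ‖W.Q p * Xᴴ‖ := fun p => by
    rw [← norm_ct' (X * W.Q p), conjTranspose_mul, W.Qh]
  simp only [h1]
  rw [sum_Q, norm_ct']

lemma norm_Q_le (p : P) (X : Mat N) : ‖W.Q p * X‖ ≤ ‖X‖ := by
  have h1 := sum_Q W X
  have h2 : ‖W.Q p * X‖ ^ 2 ≤ ∑ p, ‖W.Q p * X‖ ^ 2 :=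
    Finset.single_le_sum (f := fun p => ‖W.Q p * X‖ ^ 2) (fun _ _ => sq_nonneg _)
      (Finset.mem_univ p)
  rw [h1] at h2
  exact (sq_le_sq₀ (norm_nonneg _) (norm_nonneg _)).1 h2

lemma norm_EX (p : P) (v : V) (X : Mat N) : ‖W.E p v * X‖ = ‖v‖ * ‖W.Q p * X‖ := by
  have h1 : ‖W.E p v * X‖ ^ 2 = (‖v‖ * ‖W.Q p * X‖) ^ 2 := by
    rw [norm_sq_ip, ip_apply, conjTranspose_mul, mul_pow, Qsq]
    have : Xᴴ * (W.E p v)ᴴ * (W.E p v * X) = Xᴴ * ((W.E p v)ᴴ * W.E p v * X) := by noncomm_ring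
    rw [this, W.EE, smul_mul_assoc, mul_smul_comm, trace_smul, Complex.smul_re, smul_eq_mul]
  exact (sq_eq_sq₀ (norm_nonneg _) (by positivity)).1 h1

lemma norm_EX_le (p : P) (v : V) (X : Mat N) : ‖W.E p v * X‖ ≤ ‖v‖ * ‖X‖ := by
  rw [norm_EX]
  exact mul_le_mul_of_nonneg_left (norm_Q_le W p X) (norm_nonneg _)

lemma norm_XE_le (p : P) (v : V) (X : Mat N) : ‖X * (W.E p v)ᴴ‖ ≤ ‖v‖ * ‖X‖ := by
  have h1 : ‖X * (W.E p v)ᴴ‖ = ‖W.E p v * Xᴴ‖ := by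
    rw [← norm_ct' (X * (W.E p v)ᴴ), conjTranspose_mul, conjTranspose_conjTranspose]
  rw [h1]
  refine (norm_EX_le W p v _).trans (le_of_eq ?_)
  rw [norm_ct']

lemma pair_le (p q : P) (s s' : V) (A B : Mat N) :
    |(trace (W.E p s * A * (W.E q s')ᴴ * B)).re| ≤
      ‖W.Q p * A * W.Q q‖ * ‖W.Q q * B * W.Q p‖ * ‖s‖ * ‖s'‖ := by
  have hE : (W.E q s')ᴴ = W.Q q * (W.E q s')ᴴ := by
    conv_lhs => rw [← W.EQ, conjTranspose_mul, W.Qh]
  have hE' : (W.E q s')ᴴ = (W.E q s')ᴴ * W.Q q := by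
    conv_lhs => rw [← W.QE, conjTranspose_mul, W.Qh]
  have e1 : trace (W.E p s * A * (W.E q s')ᴴ * B) =
      trace (((W.E p s * (W.Q p * A * W.Q q) * (W.E q s')ᴴ)ᴴ)ᴴ * (W.Q q * B * W.Q p)) := by
    rw [conjTranspose_conjTranspose]
    have h1 : W.E p s * (W.Q p * A * W.Q q) * (W.E q s')ᴴ * (W.Q q * B * W.Q p) =
        (W.E p s * W.Q p) * A * (W.Q q * (W.E q s')ᴴ * W.Q q) * B * W.Q p := by noncomm_ring
    rw [h1, W.EQ, ← hE, ← hE', trace_mul_comm _ (W.Q p)]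
    have h2 : W.Q p * (W.E p s * A * (W.E q s')ᴴ * B) =
        (W.Q p * W.E p s) * A * (W.E q s')ᴴ * B := by noncomm_ring
    rw [h2, W.QE]
  rw [e1, ← ip_apply]
  refine (abs_ip_le _ _).trans ?_
  rw [norm_ct']
  have h1 := norm_XE_le W q s' (W.E p s * (W.Q p * A * W.Q q))
  have h2 := norm_EX_le W p s (W.Q p * A * W.Q q)
  have h3 := norm_nonneg (W.Q q * B * W.Q p)
  calc ‖W.E p s * (W.Q p * A * W.Q q) * (W.E q s')ᴴ‖ * ‖W.Q q * B * W.Q p‖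
      ≤ (‖s'‖ * (‖s‖ * ‖W.Q p * A * W.Q q‖)) * ‖W.Q q * B * W.Q p‖ := by
        refine mul_le_mul_of_nonneg_right (h1.trans ?_) h3
        exact mul_le_mul_of_nonneg_left h2 (norm_nonneg _)
    _ = _ := by ring

/-- the bilinear form of a plaquette -/
def pf (p q : P) (A B : Mat N) : V →ₗ[ℝ] V →ₗ[ℝ] ℝ :=
  LinearMap.mk₂ ℝ (fun s s' => (trace (W.E p s * A * (W.E q s')ᴴ * B)).re)
    (fun s t s' => by rw [map_add, add_mul, add_mul, add_mul, trace_add, Complex.add_re])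
    (fun c s s' => by
      rw [map_smul, smul_mul_assoc, smul_mul_assoc, smul_mul_assoc, trace_smul, Complex.smul_re])
    (fun s s' t => by
      rw [map_add, conjTranspose_add, mul_add, add_mul, trace_add, Complex.add_re])
    (fun c s s' => by
      rw [map_smul, conjTranspose_smul, star_trivial, mul_smul_comm, smul_mul_assoc, trace_smul,
        Complex.smul_re])

lemma exists_pf (p q : P) (A B : Mat N) : ∃ Q : V →L[ℝ] V,
    (∀ s s', ⟪s, Q s'⟫ = (trace (W.E p s * A * (W.E q s')ᴴ * B)).re) ∧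
      ‖Q‖ ≤ ‖W.Q p * A * W.Q q‖ * ‖W.Q q * B * W.Q p‖ :=
  exists_op (pf W p q A B) (by positivity) fun s s' => pair_le W p q s s' A B

/-- the operator of a plaquette -/
def Kop (p q : P) (A B : Mat N) : V →L[ℝ] V := Classical.choose (exists_pf W p q A B)

lemma Kop_apply (p q : P) (A B : Mat N) (s s' : V) :
    ⟪s, Kop W p q A B s'⟫ = (trace (W.E p s * A * (W.E q s')ᴴ * B)).re :=
  (Classical.choose_spec (exists_pf W p q A B)).1 s s'

lemma Kop_norm (p q : P) (A B : Mat N) :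
    ‖Kop W p q A B‖ ≤ ‖W.Q p * A * W.Q q‖ * ‖W.Q q * B * W.Q p‖ :=
  (Classical.choose_spec (exists_pf W p q A B)).2

lemma cs_sum {ι : Type*} [Fintype ι] (f g : ι → ℝ) {a c : ℝ} (ha : 0 ≤ a) (hc : 0 ≤ c)
    (hf : ∑ i, f i ^ 2 ≤ a ^ 2) (hg : ∑ i, g i ^ 2 ≤ c ^ 2) : ∑ i, f i * g i ≤ a * c := by
  have h1 := Finset.sum_mul_sq_le_sq_mul_sq Finset.univ f g
  have h2 : (∑ i, f i * g i) ^ 2 ≤ (a * c) ^ 2 := by
    refine h1.trans ?_
    rw [mul_pow]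
    exact mul_le_mul hf hg (Finset.sum_nonneg fun _ _ => sq_nonneg _) (sq_nonneg _)
  exact (abs_le_of_sq_le_sq' h2 (mul_nonneg ha hc)).2

end

end Pool.Agent.T2h21.YM
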