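import Mathlib
import Pool.Agent.T2h21.YM.Spin

/-!
# The circle and the unit quaternions
-/

open MeasureTheory Filter Set
open scoped Topology RealInnerProductSpace Quaternion

namespace Pool.Agent.T2h21.YM

set_option linter.unusedSectionVars false
set_option linter.unusedVariables false

noncomputable section

/-- the circle -/
def circleSpin : Spin Circle ℂ 1 where
  io z := (z : ℂ)
  cont := continuous_subtype_val
  nrm z := Circle.norm_coe z
  J _ := LinearMap.toContinuousLinearMap (LinearMap.mulLeft ℝ Complex.I)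
  ex _ s := Circle.exp s
  ex_io c s k := by
    simp only [Circle.coe_mul, Circle.coe_exp, LinearMap.coe_toContinuousLinearMap',
      LinearMap.mulLeft_apply, Complex.real_smul]
    rw [Complex.exp_mul_I, Complex.ofReal_cos, Complex.ofReal_sin]
    ring
  JJ c v := by
    simp only [LinearMap.coe_toContinuousLinearMap', LinearMap.mulLeft_apply]
    rw [← mul_assoc, Complex.I_mul_I, neg_one_mul]
  comp q w h hq := by
    have h1 : q.re * q.re + q.im * q.im = 1 := by
      have := Complex.normSq_eq_norm_sq q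
      rw [hq, one_pow, Complex.normSq_apply] at this
      exact this
    simp only [Finset.univ_unique, Finset.sum_singleton, LinearMap.coe_toContinuousLinearMap',
      LinearMap.mulLeft_apply, Complex.inner, Complex.mul_re, Complex.mul_im, Complex.conj_re,
      Complex.conj_im, Complex.I_re, Complex.I_im]
    linear_combination (w.re * h.re + w.im * h.im) * h1

/-- left multiplication by a quaternion -/
def qmul (a : ℍ[ℝ]) : ℍ[ℝ] →L[ℝ] ℍ[ℝ] := LinearMap.toContinuousLinearMap (LinearMap.mulLeft ℝ a)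

lemma qmul_apply (a v : ℍ[ℝ]) : qmul a v = a * v := rfl

/-- the imaginary units -/
def qi (c : Fin 3) : ℍ[ℝ] :=
  ⟨0, if c = 0 then 1 else 0, if c = 1 then 1 else 0, if c = 2 then 1 else 0⟩

lemma qi_re (c : Fin 3) : (qi c).re = 0 := rfl
lemma qi_imI (c : Fin 3) : (qi c).imI = if c = 0 then 1 else 0 := rfl
lemma qi_imJ (c : Fin 3) : (qi c).imJ = if c = 1 then 1 else 0 := rfl
lemma qi_imK (c : Fin 3) : (qi c).imK = if c = 2 then 1 else 0 := rfl

lemma qi0I : (qi 0).imI = 1 := by rw [qi_imI]; simp
lemma qi0J : (qi 0).imJ = 0 := by rw [qi_imJ]; simp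
lemma qi0K : (qi 0).imK = 0 := by rw [qi_imK]; simp
lemma qi1I : (qi 1).imI = 0 := by rw [qi_imI]; simp
lemma qi1J : (qi 1).imJ = 1 := by rw [qi_imJ]; simp
lemma qi1K : (qi 1).imK = 0 := by rw [qi_imK]; simp
lemma qi2I : (qi 2).imI = 0 := by rw [qi_imI]; simp
lemma qi2J : (qi 2).imJ = 0 := by rw [qi_imJ]; simp
lemma qi2K : (qi 2).imK = 1 := by rw [qi_imK]; simp

lemma fin3 (c : Fin 3) : c = 0 ∨ c = 1 ∨ c = 2 := by
  fin_cases c <;> simp

lemma qi_sq (c : Fin 3) : qi c * qi c = -1 := by
  rcases fin3 c with rfl | rfl | rfl <;> ext <;>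
    simp [Quaternion.re_mul, Quaternion.imI_mul, Quaternion.imJ_mul, Quaternion.imK_mul, qi_re,
      qi_imI, qi_imJ, qi_imK]

/-- the group of the unit quaternions -/
abbrev UQ : Type := unitary ℍ[ℝ]

lemma mem_UQ {q : ℍ[ℝ]} : q ∈ unitary ℍ[ℝ] ↔ q.re * q.re + q.imI * q.imI + q.imJ * q.imJ +
    q.imK * q.imK = 1 := by
  rw [Unitary.mem_iff]
  constructor
  · rintro ⟨h, _⟩
    have := congrArg (·.re) h
    simp at this
    linarith
  · intro h
    constructor <;> ext <;> simp <;> linarith

/-- the one-parameter groups -/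
def qex (c : Fin 3) (s : ℝ) : UQ := ⟨(Real.cos s : ℝ) + (Real.sin s) • qi c, by
  rw [mem_UQ]
  have := Real.cos_sq_add_sin_sq s
  rcases fin3 c with rfl | rfl | rfl <;>
    simp [Quaternion.re_smul, Quaternion.imI_smul, Quaternion.imJ_smul, Quaternion.imK_smul,
      qi_re, qi_imI, qi_imJ, qi_imK] <;> nlinarith⟩

/-- the unit quaternions -/
def quatSpin : Spin UQ ℍ[ℝ] 3 where
  io z := (z : ℍ[ℝ])
  cont := continuous_subtype_val
  nrm z := by
    have h := mem_UQ.1 z.2
    have h1 : ‖(z : ℍ[ℝ])‖ * ‖(z : ℍ[ℝ])‖ = 1 := by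
      rw [← Quaternion.normSq_eq_norm_mul_self, Quaternion.normSq_def']
      linarith
    nlinarith [norm_nonneg (z : ℍ[ℝ])]
  J c := qmul (qi c)
  ex := qex
  ex_io c s k := by
    show ((Real.cos s : ℝ) + (Real.sin s) • qi c : ℍ[ℝ]) * (k : ℍ[ℝ]) = _
    rw [qmul_apply, add_mul, smul_mul_assoc]
    congr 1
    exact Quaternion.coe_mul_eq_smul _ _
  JJ c v := by
    rw [qmul_apply, qmul_apply, ← mul_assoc, qi_sq, neg_one_mul]
  comp q w h hq := by
    have h1 : q.re * q.re + q.imI * q.imI + q.imJ * q.imJ + q.imK * q.imK = 1 := by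
      have := Quaternion.normSq_eq_norm_mul_self q
      rw [hq, one_mul, Quaternion.normSq_def'] at this
      linarith
    have e : ∀ a b : ℍ[ℝ], ⟪a, b⟫ = a.re * b.re + a.imI * b.imI + a.imJ * b.imJ +
        a.imK * b.imK := by
      intro a b
      rw [Quaternion.inner_def, Quaternion.re_mul]
      simp only [Quaternion.re_star, Quaternion.imI_star, Quaternion.imJ_star, Quaternion.imK_star]
      ring
    rw [Fin.sum_univ_three]
    simp only [qmul_apply, e, Quaternion.re_mul, Quaternion.imI_mul, Quaternion.imJ_mul,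
      Quaternion.imK_mul, qi_re, qi0I, qi0J, qi0K, qi1I, qi1J, qi1K, qi2I, qi2J, qi2K, zero_mul,
      one_mul, zero_sub, sub_zero, zero_add, add_zero]
    linear_combination (w.re * h.re + w.imI * h.imI + w.imJ * h.imJ + w.imK * h.imK) * h1

instance : CompactSpace UQ := by
  have h0 : IsCompact (unitary ℍ[ℝ] : Set ℍ[ℝ]) → CompactSpace UQ := fun h =>
    isCompact_iff_compactSpace.1 h
  refine h0 ?_
  refine Metric.isCompact_of_isClosed_isBounded ?_ ?_
  · have : (unitary ℍ[ℝ] : Set ℍ[ℝ]) = {q | star q * q = 1} ∩ {q | q * star q = 1} := by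
      ext q
      simp [Unitary.mem_iff]
    rw [this]
    exact (isClosed_eq (by fun_prop) continuous_const).inter
      (isClosed_eq (by fun_prop) continuous_const)
  · rw [isBounded_iff_forall_norm_le]
    exact ⟨1, fun q hq => (quatSpin.nrm ⟨q, hq⟩).le⟩

instance : SecondCountableTopology UQ := TopologicalSpace.Subtype.secondCountableTopology _

instance : IsTopologicalGroup UQ := inferInstance

instance : SecondCountableTopology Circle := TopologicalSpace.Subtype.secondCountableTopology _

end

end Pool.Agent.T2h21.YM
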