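import Mathlib
import Pool.Agent.T2h21.YM.Blk
import Pool.Agent.T2h21.YM.Grp
import Pool.Agent.H906R3.YM.Conc

/-!
# Groups with a block subgroup
-/

open MeasureTheory Matrix
open scoped Matrix.Norms.Frobenius ContDiff RealInnerProductSpace Quaternion ComplexConjugate
open Pool.Agent.H906R3.YM hiding Pl
open Pool.Agent.W793.YM Pool.Agent.TH618.YM Pool.Agent.TH190.YV

namespace Pool.Agent.T2h21.YM

set_option linter.unusedSectionVars false
set_option linter.unusedVariables false

noncomputable section

variable {N n : ℕ} {G : Subgroup (UN N)}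

/-! ### diagonal matrices -/

/-- the block of a coordinate -/
def dE (p : Fin N) : ℂ →ₗ[ℝ] Mat N where
  toFun v := Matrix.single p p v
  map_add' v w := by rw [Matrix.single_add]
  map_smul' c v := by rw [RingHom.id_apply, Matrix.smul_single]

lemma dE_apply (p : Fin N) (v : ℂ) : dE p v = Matrix.single p p v := rfl

lemma sum_single (f : Fin N → ℂ) : ∑ p, Matrix.single p p (f p) = Matrix.diagonal f := by
  ext a b
  rw [Matrix.sum_apply]
  by_cases h : a = b
  · subst h
    rw [Matrix.diagonal_apply_eq, Finset.sum_eq_single a]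
    · simp
    · intro p _ hp
      simp [hp]
    · intro h; exact absurd (Finset.mem_univ _) h
  · rw [Matrix.diagonal_apply_ne _ h]
    refine Finset.sum_eq_zero fun p _ => ?_
    rw [Matrix.single_apply, if_neg]
    rintro ⟨h1, h2⟩
    exact h (h1.symm.trans h2)

/-- the diagonal unitary matrices -/
def dU (k : Fin N → Circle) : UN N := ⟨Matrix.diagonal fun p => (k p : ℂ), by
  rw [Matrix.mem_unitaryGroup_iff, Matrix.star_eq_conjTranspose, Matrix.diagonal_conjTranspose,
    Matrix.diagonal_mul_diagonal, ← Matrix.diagonal_one]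
  congr 1
  funext p
  rw [Pi.star_apply]
  have h := Circle.norm_coe (k p)
  show (k p : ℂ) * conj (k p : ℂ) = 1
  rw [Complex.mul_conj, Complex.normSq_eq_norm_sq, h]
  simp⟩

/-- groups with all the diagonal matrices -/
def blkDiag (B : Frame G n) (hG : ∀ u : UN N, (∀ a b, a ≠ b → (u : Mat N) a b = 0) → u ∈ G) :
    Blk B.toLD circleSpin (Fin N) 1 where
  E := dE
  Q p := Matrix.single p p 1
  Qh p := by rw [Matrix.conjTranspose_single, star_one]
  Qm p := by rw [Matrix.single_mul_single_same, mul_one]
  Qs := by rw [sum_single (fun _ => 1), Matrix.diagonal_one]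
  Qt p := by simp
  EQ p v := by rw [dE_apply, Matrix.single_mul_single_same, mul_one]
  QE p v := by rw [dE_apply, Matrix.single_mul_single_same, one_mul]
  EE p v := by
    rw [dE_apply, Matrix.conjTranspose_single, Matrix.single_mul_single_same, Matrix.smul_single]
    congr 1
    show conj v * v = _
    rw [mul_comm, Complex.mul_conj, Complex.normSq_eq_norm_sq, Complex.real_smul, mul_one]
  emb k := ⟨dU k, hG _ fun a b h => Matrix.diagonal_apply_ne _ h⟩
  emb_cont := by
    refine Continuous.subtype_mk (Continuous.subtype_mk ?_ _) _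
    refine Continuous.matrix_diagonal (continuous_pi fun p => ?_)
    exact continuous_subtype_val.comp (continuous_apply p)
  rho_emb k := by
    show Matrix.diagonal (fun p => (k p : ℂ)) = ∑ p, Matrix.single p p (k p : ℂ)
    rw [sum_single]

/-! ### pairs -/

/-- first complex coordinate of a quaternion -/
def qz (v : ℍ[ℝ]) : ℂ := ⟨v.re, v.imI⟩

/-- second complex coordinate of a quaternion -/
def qw (v : ℍ[ℝ]) : ℂ := ⟨v.imJ, v.imK⟩

lemma qz_add (v w : ℍ[ℝ]) : qz (v + w) = qz v + qz w := by
  apply Complex.ext <;> simp [qz]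

lemma qw_add (v w : ℍ[ℝ]) : qw (v + w) = qw v + qw w := by
  apply Complex.ext <;> simp [qw]

lemma qz_smul (c : ℝ) (v : ℍ[ℝ]) : qz (c • v) = c • qz v := by
  apply Complex.ext <;> simp [qz]

lemma qw_smul (c : ℝ) (v : ℍ[ℝ]) : qw (c • v) = c • qw v := by
  apply Complex.ext <;> simp [qw]

lemma qnorm (v : ℍ[ℝ]) : qz v * conj (qz v) + qw v * conj (qw v) = ((‖v‖ ^ 2 : ℝ) : ℂ) := by
  rw [Complex.mul_conj, Complex.mul_conj, ← Complex.ofReal_add]
  congr 1
  have := Quaternion.normSq_eq_norm_mul_self v
  rw [Quaternion.normSq_def'] at this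
  unfold qz qw
  rw [Complex.normSq_apply, Complex.normSq_apply, sq, ← this]
  ring

variable (π : Fin N → Fin N)

/-- the matrix of a block -/
def pM (p q : Fin N) (z w : ℂ) : Mat N :=
  Matrix.single p p z + Matrix.single p q w + Matrix.single q p (-conj w) +
    Matrix.single q q (conj z)

lemma pM_ct (p q : Fin N) (z w : ℂ) : (pM p q z w)ᴴ = pM p q (conj z) (-w) := by
  unfold pM
  simp only [conjTranspose_add, Matrix.conjTranspose_single]
  have e1 : star z = conj z := rfl
  have e2 : star w = conj w := rfl
  have e3 : star (-conj w) = -w := by rw [star_neg]; exact congrArg _ (Complex.conj_conj w)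
  have e4 : star (conj z) = z := Complex.conj_conj z
  rw [e1, e2, e3, e4, map_neg, neg_neg, Complex.conj_conj]
  abel

lemma pM_mul {p q : Fin N} (h : p ≠ q) (z w z' w' : ℂ) :
    pM p q z w * pM p q z' w' = pM p q (z * z' - w * conj w') (z * w' + w * conj z') := by
  unfold pM
  simp only [mul_add, add_mul, Matrix.single_mul_single_same,
    Matrix.single_mul_single_of_ne _ _ _ _ h, Matrix.single_mul_single_of_ne _ _ _ _ h.symm,
    add_zero, zero_add]
  have e1 : Matrix.single p p (z * z' - w * conj w') =
      Matrix.single p p (z * z') + Matrix.single p p (w * -conj w') := by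
    rw [← Matrix.single_add]; congr 1; ring
  have e2 : Matrix.single p q (z * w' + w * conj z') =
      Matrix.single p q (z * w') + Matrix.single p q (w * conj z') := by
    rw [← Matrix.single_add]
  have e3 : Matrix.single q p (-conj (z * w' + w * conj z')) =
      Matrix.single q p (-conj w * z') + Matrix.single q p (conj z * -conj w') := by
    rw [← Matrix.single_add]
    congr 1
    simp only [map_add, map_mul, Complex.conj_conj]
    ring
  have e4 : Matrix.single q q (conj (z * z' - w * conj w')) =
      Matrix.single q q (-conj w * w') + Matrix.single q q (conj z * conj z') := by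
    rw [← Matrix.single_add]
    congr 1
    simp only [map_sub, map_mul, Complex.conj_conj]
    ring
  rw [e1, e2, e3, e4]
  abel

lemma pM_one (p q : Fin N) : pM p q 1 0 = Matrix.single p p 1 + Matrix.single q q 1 := by
  unfold pM
  simp

lemma pM_real (p q : Fin N) (r : ℝ) : pM p q (r : ℂ) 0 = r • pM p q 1 0 := by
  unfold pM
  simp [Matrix.smul_single]

/-- the block of a coordinate -/
def pE (p : Fin N) : ℍ[ℝ] →ₗ[ℝ] Mat N where
  toFun v := if p < π p then pM p (π p) (qz v) (qw v) else 0
  map_add' v w := by
    split_ifs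
    · unfold pM
      rw [qz_add, qw_add, map_add, map_add, neg_add]
      simp only [Matrix.single_add]
      abel
    · rw [add_zero]
  map_smul' c v := by
    split_ifs
    · unfold pM
      rw [qz_smul, qw_smul, RingHom.id_apply]
      simp only [smul_add, Matrix.smul_single]
      have e1 : -conj (c • qw v) = c • -conj (qw v) := by
        rw [Complex.real_smul, Complex.real_smul, map_mul, Complex.conj_ofReal]; ring
      have e2 : conj (c • qz v) = c • conj (qz v) := by
        rw [Complex.real_smul, Complex.real_smul, map_mul, Complex.conj_ofReal]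
      rw [e1, e2]
    · rw [smul_zero]

lemma pE_pos {p : Fin N} (h : p < π p) (v : ℍ[ℝ]) : pE π p v = pM p (π p) (qz v) (qw v) :=
  if_pos h

lemma pE_neg {p : Fin N} (h : ¬p < π p) (v : ℍ[ℝ]) : pE π p v = 0 := if_neg h

/-- the projection of a block -/
def pQ (p : Fin N) : Mat N := if p < π p then pM p (π p) 1 0 else 0

lemma pE_EE (p : Fin N) (v : ℍ[ℝ]) : (pE π p v)ᴴ * pE π p v = (‖v‖ ^ 2) • pQ π p := by
  by_cases h : p < π p
  · rw [pE_pos π h]
    unfold pQ
    rw [if_pos h, pM_ct, pM_mul h.ne, ← pM_real, ← qnorm]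
    congr 1 <;> ring
  · rw [pE_neg π h]
    unfold pQ
    rw [if_neg h, mul_zero, smul_zero]

lemma pQ_sum (h1 : ∀ a, π (π a) = a) (h2 : ∀ a, π a ≠ a) : ∑ p, pQ π p = 1 := by
  have e1 : ∀ p, pQ π p = (if p < π p then Matrix.single p p (1 : ℂ) else 0) +
      (if p < π p then Matrix.single (π p) (π p) (1 : ℂ) else 0) := by
    intro p
    unfold pQ
    split_ifs
    · exact pM_one _ _
    · rw [add_zero]
  rw [Finset.sum_congr rfl fun p _ => e1 p, Finset.sum_add_distrib]
  have e2 : ∑ p, (if p < π p then Matrix.single (π p) (π p) (1 : ℂ) else 0) =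
      ∑ p, (if π p < p then Matrix.single p p (1 : ℂ) else 0) := by
    have := Equiv.sum_comp (Function.Involutive.toPerm π h1)
      (fun p => if π p < p then Matrix.single p p (1 : ℂ) else (0 : Mat N))
    rw [← this]
    refine Finset.sum_congr rfl fun p _ => ?_
    show _ = if π (π p) < π p then _ else _
    rw [h1]
    rfl
  rw [e2, ← Finset.sum_add_distrib, ← Matrix.diagonal_one, ← sum_single (fun _ => 1)]
  refine Finset.sum_congr rfl fun p _ => ?_
  rcases lt_trichotomy p (π p) with h | h | h
  · rw [if_pos h, if_neg (not_lt.2 h.le), add_zero]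
  · exact absurd h.symm (h2 p)
  · rw [if_neg (not_lt.2 h.le), if_pos h, zero_add]

lemma pM_apply (p q : Fin N) (z w : ℂ) (a b : Fin N) : pM p q z w a b =
    (if p = a ∧ p = b then z else 0) + (if p = a ∧ q = b then w else 0) +
      (if q = a ∧ p = b then -conj w else 0) + (if q = a ∧ q = b then conj z else 0) := by
  unfold pM
  simp only [Matrix.add_apply, Matrix.single_apply]

/-- the entries of the sum of the blocks -/
lemma pE_ent (h1 : ∀ a, π (π a) = a) (h2 : ∀ a, π a ≠ a) (v : Fin N → ℍ[ℝ]) (a b : Fin N) :
    (∑ p, pE π p (v p)) a b = if a < π a then pM a (π a) (qz (v a)) (qw (v a)) a b else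
      pM (π a) a (qz (v (π a))) (qw (v (π a))) a b := by
  rw [Matrix.sum_apply]
  split_ifs with h
  · rw [Finset.sum_eq_single a]
    · rw [pE_pos π h]
    · intro p _ hp
      by_cases hp' : p < π p
      · rw [pE_pos π hp', pM_apply]
        have e1 : π p ≠ a := by
          intro h'
          rw [← h', h1] at h
          exact lt_asymm h hp'
        simp [hp, e1]
      · rw [pE_neg π hp']; rfl
    · intro h; exact absurd (Finset.mem_univ _) h
  · have h' : π a < a := lt_of_le_of_ne (not_lt.1 h) (h2 a)
    rw [Finset.sum_eq_single (π a)]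
    · have h'' : π a < π (π a) := by rw [h1]; exact h'
      rw [pE_pos π h'', h1]
    · intro p _ hp
      by_cases hp' : p < π p
      · rw [pE_pos π hp', pM_apply]
        have e1 : π p ≠ a := by
          intro h3
          apply hp
          rw [← h3, h1]
        have e2 : p ≠ a := by
          intro h3
          rw [h3] at hp'
          exact lt_asymm hp' h'
        simp [e1, e2]
      · rw [pE_neg π hp']; rfl
    · intro h; exact absurd (Finset.mem_univ _) h

lemma pQE (p : Fin N) (v : ℍ[ℝ]) : pQ π p * pE π p v = pE π p v := by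
  by_cases h : p < π p
  · rw [pE_pos π h]
    unfold pQ
    rw [if_pos h, pM_mul h.ne]
    congr 1 <;> simp
  · rw [pE_neg π h, mul_zero]

lemma pEQ (p : Fin N) (v : ℍ[ℝ]) : pE π p v * pQ π p = pE π p v := by
  by_cases h : p < π p
  · rw [pE_pos π h]
    unfold pQ
    rw [if_pos h, pM_mul h.ne]
    congr 1 <;> simp
  · rw [pE_neg π h, zero_mul]

lemma pQQ (p : Fin N) : pQ π p * pQ π p = pQ π p := by
  by_cases h : p < π p
  · unfold pQ
    rw [if_pos h, pM_mul h.ne]
    congr 1 <;> simp
  · unfold pQ
    rw [if_neg h, mul_zero]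

lemma pQh (p : Fin N) : (pQ π p)ᴴ = pQ π p := by
  by_cases h : p < π p
  · unfold pQ
    rw [if_pos h, pM_ct]
    congr 1 <;> simp
  · unfold pQ
    rw [if_neg h, conjTranspose_zero]

lemma pQQ_ne (h1 : ∀ a, π (π a) = a) {p q : Fin N} (h : p ≠ q) : pQ π p * pQ π q = 0 := by
  unfold pQ
  by_cases hp : p < π p
  · by_cases hq : q < π q
    · rw [if_pos hp, if_pos hq, pM_one, pM_one]
      have e1 : p ≠ π q := by
        intro h'
        rw [h', h1] at hp
        exact lt_asymm hp hq
      have e2 : π p ≠ q := by
        intro h'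
        rw [← h', h1] at hq
        exact lt_asymm hp hq
      have e3 : π p ≠ π q := by
        intro h'
        have := congrArg π h'
        rw [h1, h1] at this
        exact h this
      simp only [mul_add, add_mul]
      rw [Matrix.single_mul_single_of_ne _ _ _ _ h, Matrix.single_mul_single_of_ne _ _ _ _ e1,
        Matrix.single_mul_single_of_ne _ _ _ _ e2, Matrix.single_mul_single_of_ne _ _ _ _ e3]
      simp
    · rw [if_neg hq, mul_zero]
  · rw [if_neg hp, zero_mul]

/-- the matrix of a family of unit quaternions -/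
def pU (h1 : ∀ a, π (π a) = a) (h2 : ∀ a, π a ≠ a) (k : Fin N → UQ) : UN N :=
  ⟨∑ p, pE π p (quatSpin.io (k p)), by
    rw [Matrix.mem_unitaryGroup_iff', Matrix.star_eq_conjTranspose, conjTranspose_sum,
      Finset.sum_mul]
    have e1 : ∀ p, (pE π p (quatSpin.io (k p)))ᴴ * ∑ q, pE π q (quatSpin.io (k q)) = pQ π p := by
      intro p
      rw [Finset.mul_sum, Finset.sum_eq_single p]
      · rw [pE_EE, quatSpin.nrm, one_pow, one_smul]
      · intro q _ hq
        rw [← pQE π p, ← pQE π q, conjTranspose_mul, pQh]
        have : (pE π p (quatSpin.io (k p)))ᴴ * pQ π p * (pQ π q * pE π q (quatSpin.io (k q))) =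
            (pE π p (quatSpin.io (k p)))ᴴ * (pQ π p * pQ π q) * pE π q (quatSpin.io (k q)) := by
          noncomm_ring
        rw [this, pQQ_ne π h1 hq.symm, mul_zero, zero_mul]
      · intro h; exact absurd (Finset.mem_univ _) h
    rw [Finset.sum_congr rfl fun p _ => e1 p, pQ_sum π h1 h2]⟩

/-- groups with all the unitary matrices of the pairs -/
def blkPair (B : Frame G n) (h1 : ∀ a, π (π a) = a) (h2 : ∀ a, π a ≠ a)
    (hG : ∀ u : UN N, (∀ a b, b ≠ a → b ≠ π a → (u : Mat N) a b = 0) →
      (∀ a, (u : Mat N) a a * (u : Mat N) (π a) (π a) -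
        (u : Mat N) a (π a) * (u : Mat N) (π a) a = 1) → u ∈ G) :
    Blk B.toLD quatSpin (Fin N) 2 where
  E := pE π
  Q := pQ π
  Qh := pQh π
  Qm := pQQ π
  Qs := pQ_sum π h1 h2
  Qt p := by
    unfold pQ
    split_ifs
    · rw [pM_one, trace_add, Matrix.trace_single_eq_same, Matrix.trace_single_eq_same]
      norm_num
    · rw [trace_zero]; norm_num
  EQ := pEQ π
  QE := pQE π
  EE := pE_EE π
  emb k := ⟨pU π h1 h2 k, by
    have hent := pE_ent π h1 h2 fun p => quatSpin.io (k p)
    have hn : ∀ p, qz (quatSpin.io (k p)) * conj (qz (quatSpin.io (k p))) +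
        qw (quatSpin.io (k p)) * conj (qw (quatSpin.io (k p))) = 1 := by
      intro p
      rw [qnorm, quatSpin.nrm]; simp
    refine hG _ (fun a b hb hb' => ?_) fun a => ?_
    · show (∑ p, pE π p (quatSpin.io (k p))) a b = 0
      rw [hent]
      split_ifs
      · rw [pM_apply]
        simp [hb.symm, hb'.symm]
      · rw [pM_apply]
        simp [hb.symm, hb'.symm]
    · show (∑ p, pE π p (quatSpin.io (k p))) a a * (∑ p, pE π p (quatSpin.io (k p))) (π a) (π a) -
        (∑ p, pE π p (quatSpin.io (k p))) a (π a) * (∑ p, pE π p (quatSpin.io (k p))) (π a) a = 1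
      have ha := h2 a
      rw [hent, hent, hent a (π a), hent (π a) a]
      rw [h1]
      by_cases h : a < π a
      · have h' : ¬π a < a := lt_asymm h
        simp only [if_pos h, if_neg h', pM_apply]
        simp only [ha, ha.symm, and_true, and_false, false_and, if_true, if_false, add_zero,
          zero_add, and_self]
        have := hn a
        linear_combination this
      · have h' : π a < a := lt_of_le_of_ne (not_lt.1 h) ha
        simp only [if_neg h, if_pos h', pM_apply]
        simp only [ha, ha.symm, and_true, and_false, false_and, if_true, if_false, add_zero,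
          zero_add, and_self]
        have := hn (π a)
        linear_combination this⟩
  emb_cont := by
    refine Continuous.subtype_mk (Continuous.subtype_mk ?_ _) _
    refine continuous_finsetSum _ fun p _ => ?_
    have h1 : Continuous fun v : ℍ[ℝ] => pE π p v :=
      LinearMap.continuous_of_finiteDimensional (pE π p)
    exact h1.comp (quatSpin.cont.comp (continuous_apply p))
  rho_emb k := rfl

end

end Pool.Agent.T2h21.YM
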