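import Mathlib
import Pool.Agent.T2h21.YM.Spin

/-!
# Rotations of two charges
-/

open MeasureTheory Filter Set
open scoped Topology ComplexConjugate

namespace Pool.Agent.T2h21.YM

set_option linter.unusedSectionVars false
set_option linter.unusedVariables false

noncomputable section

section cflow

variable {Ω : Type*} [TopologicalSpace Ω] [CompactSpace Ω] [MeasurableSpace Ω]
  [OpensMeasurableSpace Ω] [SecondCountableTopology Ω] (P : Measure Ω) [IsFiniteMeasure P]

/-- differentiation under the integral -/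
lemma hasDerivAt_intC {f f' : ℝ → Ω → ℂ} (hf : ∀ s, Continuous (f s))
    (hf' : Continuous (Function.uncurry f')) (h : ∀ s x, HasDerivAt (fun s => f s x) (f' s x) s)
    (s0 : ℝ) : HasDerivAt (fun s => ∫ x, f s x ∂P) (∫ x, f' s0 x ∂P) s0 := by
  obtain ⟨C, hC⟩ := ((isCompact_Icc (a := s0 - 1) (b := s0 + 1)).prod
    (isCompact_univ (X := Ω))).exists_bound_of_continuousOn hf'.continuousOn
  have hc' : ∀ s, Continuous (f' s) := fun s =>
    hf'.comp (Continuous.prodMk continuous_const continuous_id)
  refine (hasDerivAt_integral_of_dominated_loc_of_deriv_le (bound := fun _ => C)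
    (Metric.ball_mem_nhds s0 one_pos)
    (Eventually.of_forall fun s => (hf s).aestronglyMeasurable) (int_cont P (hf s0))
    (hc' s0).aestronglyMeasurable (Eventually.of_forall fun x s hs => ?_)
    (integrable_const C) (Eventually.of_forall fun x s _ => h s x)).2
  refine hC (s, x) ⟨?_, Set.mem_univ _⟩
  rw [Metric.mem_ball, Real.dist_eq, abs_lt] at hs
  constructor <;> linarith [hs.1, hs.2]

lemma cont_intC {f : ℝ → Ω → ℂ} (hf : Continuous (Function.uncurry f)) :
    Continuous fun s => ∫ x, f s x ∂P := by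
  have h := continuous_parametric_integral_of_continuous (μ := P) hf isCompact_univ
  simpa only [Measure.restrict_univ] using h

variable {F A B : Ω → ℂ} {E0 : Ω → ℝ}

variable (A B E0) in
/-- the weight -/
def wg (ρ : ℝ) (x : Ω) : ℝ := Real.exp (ρ * ((A x).re + (B x).re) + E0 x)

lemma wg_cont (hA : Continuous A) (hB : Continuous B) (hE : Continuous E0) :
    Continuous (Function.uncurry (wg A B E0)) := by
  unfold wg Function.uncurry
  have h1 := Complex.continuous_re.comp hA
  have h2 := Complex.continuous_re.comp hB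
  have h3 : Continuous fun x => (A x).re := h1
  have h4 : Continuous fun x => (B x).re := h2
  fun_prop

lemma wg_cont' (hA : Continuous A) (hB : Continuous B) (hE : Continuous E0) (ρ : ℝ) :
    Continuous (wg A B E0 ρ) :=
  (wg_cont hA hB hE).comp (Continuous.prodMk continuous_const continuous_id)

/-- the derivative along a rotation -/
lemma cflow_der {θ : ℝ → Ω → Ω} {k : ℕ} (hF : Continuous F) (hA : Continuous A)
    (hB : Continuous B) (hE : Continuous E0)
    (hinv : ∀ s, ∀ f : Ω → ℂ, Continuous f → ∫ x, f (θ s x) ∂P = ∫ x, f x ∂P)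
    (hθF : ∀ (s : ℝ) x, F (θ s x) = Complex.exp (k * s * Complex.I) * F x)
    (hθA : ∀ (s : ℝ) x, A (θ s x) = Complex.exp (s * Complex.I) * A x)
    (hθB : ∀ (s : ℝ) x, B (θ s x) = Complex.exp (-s * Complex.I) * B x)
    (hθE : ∀ s x, E0 (θ s x) = E0 x) (ρ : ℝ) :
    ∫ x, F x * (k * Complex.I - (ρ * ((A x).im - (B x).im) : ℝ)) * (wg A B E0 ρ x : ℝ) ∂P = 0 := by
  have hAr : Continuous fun x => (A x).re := Complex.continuous_re.comp hA
  have hAi : Continuous fun x => (A x).im := Complex.continuous_im.comp hA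
  have hBr : Continuous fun x => (B x).re := Complex.continuous_re.comp hB
  have hBi : Continuous fun x => (B x).im := Complex.continuous_im.comp hB
  obtain ⟨g, hg⟩ : ∃ g : ℝ → Ω → ℝ, g = fun s x => Real.exp (ρ * (Real.cos s *
    ((A x).re + (B x).re) - Real.sin s * ((A x).im - (B x).im)) + E0 x) := ⟨_, rfl⟩
  obtain ⟨f, hf⟩ : ∃ f : ℝ → Ω → ℂ, f = fun (s : ℝ) (x : Ω) =>
    Complex.exp (k * (s : ℂ) * Complex.I) * F x * ((g s x : ℝ) : ℂ) := ⟨_, rfl⟩
  obtain ⟨f', hf'⟩ : ∃ f' : ℝ → Ω → ℂ, f' = fun (s : ℝ) (x : Ω) =>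
    Complex.exp (k * (s : ℂ) * Complex.I) * F x * (k * Complex.I +
      ((ρ * (-Real.sin s * ((A x).re + (B x).re) -
        Real.cos s * ((A x).im - (B x).im)) : ℝ) : ℂ)) *
    ((g s x : ℝ) : ℂ) := ⟨_, rfl⟩
  have cg : Continuous (Function.uncurry g) := by
    rw [hg]; unfold Function.uncurry; fun_prop
  have cg' : Continuous fun z : ℝ × Ω => g z.1 z.2 := cg
  have c1 : Continuous (Function.uncurry f) := by
    rw [hf]; unfold Function.uncurry; simp only; fun_prop
  have c2 : Continuous (Function.uncurry f') := by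
    rw [hf']; unfold Function.uncurry; simp only; fun_prop
  have hd : ∀ s x, HasDerivAt (fun s => f s x) (f' s x) s := by
    intro s x
    rw [hf, hf', hg]
    have h1 : HasDerivAt (fun s : ℝ => Real.exp (ρ * (Real.cos s *
        ((A x).re + (B x).re) - Real.sin s * ((A x).im - (B x).im)) + E0 x))
        (Real.exp (ρ * (Real.cos s *
        ((A x).re + (B x).re) - Real.sin s * ((A x).im - (B x).im)) + E0 x) *
        (ρ * (-Real.sin s * ((A x).re + (B x).re) - Real.cos s * ((A x).im - (B x).im)))) s :=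
      (((((Real.hasDerivAt_cos s).mul_const _).sub
        ((Real.hasDerivAt_sin s).mul_const _)).const_mul ρ).add_const _).exp
    have h2 : HasDerivAt (fun s : ℝ => Complex.exp (k * s * Complex.I))
        (Complex.exp (k * s * Complex.I) * (k * Complex.I)) s := by
      have h3 : HasDerivAt (fun z : ℂ => Complex.exp (k * z * Complex.I))
          (Complex.exp (k * s * Complex.I) * (k * 1 * Complex.I)) (s : ℂ) :=
        (((hasDerivAt_id (s : ℂ)).const_mul (k : ℂ)).mul_const Complex.I).cexp
      rw [mul_one] at h3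
      exact h3.comp_ofReal
    have h4 := (h2.mul_const (F x)).mul h1.ofReal_comp
    refine h4.congr_deriv ?_
    push_cast
    ring
  have h0 := hasDerivAt_intC P (f := f) (f' := f') (fun s => by
    exact c1.comp (Continuous.prodMk continuous_const continuous_id)) c2 hd 0
  have hwc : Continuous fun x => F x * (wg A B E0 ρ x : ℝ) :=
    hF.mul (Complex.continuous_ofReal.comp (wg_cont' hA hB hE ρ))
  have hconst : ∀ s, ∫ x, f s x ∂P = ∫ x, F x * (wg A B E0 ρ x : ℝ) ∂P := by
    intro s
    rw [← hinv s (fun x => F x * (wg A B E0 ρ x : ℝ)) hwc]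
    refine integral_congr_ae (Eventually.of_forall fun x => ?_)
    simp only [hf, hg]
    unfold wg
    rw [hθF, hθA, hθB, hθE]
    have e1 : (Complex.exp (s * Complex.I) * A x).re =
        Real.cos s * (A x).re - Real.sin s * (A x).im := by
      rw [Complex.mul_re, Complex.exp_ofReal_mul_I_re, Complex.exp_ofReal_mul_I_im]
    have e2 : (Complex.exp (-s * Complex.I) * B x).re =
        Real.cos s * (B x).re + Real.sin s * (B x).im := by
      have : (-(s : ℂ)) = ((-s : ℝ) : ℂ) := by push_cast; rfl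
      rw [this, Complex.mul_re, Complex.exp_ofReal_mul_I_re, Complex.exp_ofReal_mul_I_im,
        Real.cos_neg, Real.sin_neg]
      ring
    rw [e1, e2]
    congr 3
    ring
  have h1 : HasDerivAt (fun s => ∫ x, f s x ∂P) 0 0 := by
    have : (fun s => ∫ x, f s x ∂P) = fun _ => ∫ x, F x * (wg A B E0 ρ x : ℝ) ∂P :=
      funext hconst
    rw [this]
    exact hasDerivAt_const _ _
  have h2 := h0.unique h1
  rw [← h2, hf', hg]
  refine integral_congr_ae (Eventually.of_forall fun x => ?_)
  simp only [Real.sin_zero, Real.cos_zero]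
  unfold wg
  have e1 : ρ * (1 * ((A x).re + (B x).re) - 0 * ((A x).im - (B x).im)) + E0 x =
      ρ * ((A x).re + (B x).re) + E0 x := by ring
  have e2 : Complex.exp (k * ((0 : ℝ) : ℂ) * Complex.I) = 1 := by simp
  rw [e1, e2]
  push_cast
  ring

variable (F A B E0) in
/-- the expectation as a function of the strength of the field -/
def PsiC (ρ : ℝ) : ℂ := ∫ x, F x * (wg A B E0 ρ x : ℝ) ∂P

variable (F A B E0) in
/-- the contraction -/
def XC (ρ : ℝ) : ℂ := ∫ x, F x * (conj (A x) + B x) * (wg A B E0 ρ x : ℝ) ∂P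

variable (A B E0) in
/-- the partition function -/
def ZC (ρ : ℝ) : ℝ := ∫ x, wg A B E0 ρ x ∂P

lemma wg_deriv (x : Ω) (ρ : ℝ) : HasDerivAt (fun s => wg A B E0 s x)
    (((A x).re + (B x).re) * wg A B E0 ρ x) ρ := by
  unfold wg
  have h1 : HasDerivAt (fun s => s * ((A x).re + (B x).re) + E0 x) ((A x).re + (B x).re) ρ := by
    simpa using ((hasDerivAt_id ρ).mul_const ((A x).re + (B x).re)).add_const (E0 x)
  refine h1.exp.congr_deriv ?_
  ring

lemma PsiC_deriv (hF : Continuous F) (hA : Continuous A) (hB : Continuous B)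
    (hE : Continuous E0) (ρ : ℝ) : HasDerivAt (PsiC P F A B E0)
      (∫ x, F x * (((A x).re + (B x).re : ℝ)) * (wg A B E0 ρ x : ℝ) ∂P) ρ := by
  have hw := wg_cont hA hB hE
  have hw' : Continuous fun z : ℝ × Ω => wg A B E0 z.1 z.2 := hw
  have hAr : Continuous fun x => (A x).re := Complex.continuous_re.comp hA
  have hBr : Continuous fun x => (B x).re := Complex.continuous_re.comp hB
  refine hasDerivAt_intC P (f := fun ρ x => F x * (wg A B E0 ρ x : ℝ))
    (f' := fun ρ x => F x * (((A x).re + (B x).re : ℝ)) * (wg A B E0 ρ x : ℝ))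
    (fun s => hF.mul (Complex.continuous_ofReal.comp (wg_cont' hA hB hE s)))
    (by unfold Function.uncurry; simp only; fun_prop) (fun s x => ?_) ρ
  refine ((wg_deriv x s).ofReal_comp.const_mul (F x)).congr_deriv ?_
  push_cast
  ring

lemma XC_cont (hF : Continuous F) (hA : Continuous A) (hB : Continuous B)
    (hE : Continuous E0) : Continuous (XC P F A B E0) := by
  have hw := wg_cont hA hB hE
  have hw' : Continuous fun z : ℝ × Ω => wg A B E0 z.1 z.2 := hw
  have hAc : Continuous fun x => conj (A x) := Complex.continuous_conj.comp hA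
  exact cont_intC P (f := fun ρ x => F x * (conj (A x) + B x) * (wg A B E0 ρ x : ℝ))
    (by unfold Function.uncurry; simp only; fun_prop)

/-- the identity of the charges -/
theorem cflow_id {θ : ℝ → Ω → Ω} {k : ℕ} (hk : 1 ≤ k) (hF : Continuous F) (hA : Continuous A)
    (hB : Continuous B) (hE : Continuous E0)
    (hinv : ∀ s, ∀ f : Ω → ℂ, Continuous f → ∫ x, f (θ s x) ∂P = ∫ x, f x ∂P)
    (hθF : ∀ (s : ℝ) x, F (θ s x) = Complex.exp (k * s * Complex.I) * F x)
    (hθA : ∀ (s : ℝ) x, A (θ s x) = Complex.exp (s * Complex.I) * A x)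
    (hθB : ∀ (s : ℝ) x, B (θ s x) = Complex.exp (-s * Complex.I) * B x)
    (hθE : ∀ s x, E0 (θ s x) = E0 x) (ρ : ℝ) :
    (ρ : ℂ) ^ k * PsiC P F A B E0 ρ = ∫ r in (0 : ℝ)..ρ, (r : ℂ) ^ k * XC P F A B E0 r := by
  have hAr : Continuous fun x => (A x).re := Complex.continuous_re.comp hA
  have hAi : Continuous fun x => (A x).im := Complex.continuous_im.comp hA
  have hBr : Continuous fun x => (B x).re := Complex.continuous_re.comp hB
  have hBi : Continuous fun x => (B x).im := Complex.continuous_im.comp hB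
  have hAc : Continuous fun x => conj (A x) := Complex.continuous_conj.comp hA
  have key : ∀ r : ℝ, k * PsiC P F A B E0 r +
      r * ∫ x, F x * (((A x).re + (B x).re : ℝ)) * (wg A B E0 r x : ℝ) ∂P =
      r * XC P F A B E0 r := by
    intro r
    have hw : Continuous fun x => (wg A B E0 r x) := wg_cont' hA hB hE r
    have h1 := cflow_der P hF hA hB hE hinv hθF hθA hθB hθE r
    have h2 : ∫ x, (k * (F x * (wg A B E0 r x : ℝ)) +
        r * (F x * (((A x).re + (B x).re : ℝ)) * (wg A B E0 r x : ℝ)) -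
        r * (F x * (conj (A x) + B x) * (wg A B E0 r x : ℝ))) ∂P = 0 := by
      have h3 : ∀ x, (k * (F x * (wg A B E0 r x : ℝ)) +
        r * (F x * (((A x).re + (B x).re : ℝ)) * (wg A B E0 r x : ℝ)) -
        r * (F x * (conj (A x) + B x) * (wg A B E0 r x : ℝ))) =
        (-Complex.I) * (F x * (k * Complex.I - (r * ((A x).im - (B x).im) : ℝ)) *
          (wg A B E0 r x : ℝ)) := by
        intro x
        have e1 : A x = (A x).re + (A x).im * Complex.I := (Complex.re_add_im _).symm
        have e2 : B x = (B x).re + (B x).im * Complex.I := (Complex.re_add_im _).symm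
        have e3 : conj (A x) = (A x).re - (A x).im * Complex.I := by
          conv_lhs => rw [e1]
          rw [map_add, map_mul, Complex.conj_ofReal, Complex.conj_ofReal, Complex.conj_I]
          ring
        have e4 : conj (A x) + B x = (A x).re - (A x).im * Complex.I +
            ((B x).re + (B x).im * Complex.I) := by rw [e3]; congr 1
        rw [e4]
        push_cast
        linear_combination (F x * k * (wg A B E0 r x : ℝ)) * Complex.I_mul_I
      simp only [h3]
      rw [integral_const_mul, h1, mul_zero]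
    rw [integral_sub (int_cont P (by fun_prop)) (int_cont P (by fun_prop)),
      integral_add (int_cont P (by fun_prop)) (int_cont P (by fun_prop)), integral_const_mul,
      integral_const_mul, integral_const_mul] at h2
    unfold PsiC XC
    linear_combination h2
  have hder : ∀ r : ℝ, HasDerivAt (fun r : ℝ => (r : ℂ) ^ k * PsiC P F A B E0 r)
      ((r : ℂ) ^ k * XC P F A B E0 r) r := by
    intro r
    have h0 : HasDerivAt (fun r : ℝ => (r : ℂ) ^ k) (k * (r : ℂ) ^ (k - 1)) r :=
      (hasDerivAt_pow k (r : ℂ)).comp_ofReal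
    have h1 := h0.mul (PsiC_deriv P hF hA hB hE r)
    refine h1.congr_deriv ?_
    have h2 : (r : ℂ) ^ k = (r : ℂ) ^ (k - 1) * r := by
      rw [← pow_succ]; congr 1; omega
    have h3 := key r
    rw [h2, mul_assoc ((r : ℂ) ^ (k - 1)) (r : ℂ) (XC P F A B E0 r), ← h3]
    ring
  have hXc := XC_cont P hF hA hB hE
  have h4 := intervalIntegral.integral_eq_sub_of_hasDerivAt (a := 0) (b := ρ)
    (f := fun r : ℝ => (r : ℂ) ^ k * PsiC P F A B E0 r)
    (f' := fun r : ℝ => (r : ℂ) ^ k * XC P F A B E0 r)
    (fun r _ => hder r) (by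
      refine Continuous.intervalIntegrable ?_ _ _
      exact (Complex.continuous_ofReal.pow k).mul hXc)
  rw [h4, Complex.ofReal_zero, zero_pow (by omega), zero_mul, sub_zero]

/-- the bound of an expectation of nonzero charge -/
theorem cflow_bound {θ : ℝ → Ω → Ω} {k : ℕ} (hk : 1 ≤ k) (hF : Continuous F) (hA : Continuous A)
    (hB : Continuous B) (hE : Continuous E0)
    (hinv : ∀ s, ∀ f : Ω → ℂ, Continuous f → ∫ x, f (θ s x) ∂P = ∫ x, f x ∂P)
    (hθF : ∀ (s : ℝ) x, F (θ s x) = Complex.exp (k * s * Complex.I) * F x)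
    (hθA : ∀ (s : ℝ) x, A (θ s x) = Complex.exp (s * Complex.I) * A x)
    (hθB : ∀ (s : ℝ) x, B (θ s x) = Complex.exp (-s * Complex.I) * B x)
    (hθE : ∀ s x, E0 (θ s x) = E0 x) {C : ℝ}
    (hX : ∀ r, 0 ≤ r → r ≤ 1 → ‖XC P F A B E0 r‖ ≤ C) :
    ‖PsiC P F A B E0 1‖ ≤ C / 2 := by
  have h1 := cflow_id P hk hF hA hB hE hinv hθF hθA hθB hθE 1
  rw [Complex.ofReal_one, one_pow, one_mul] at h1
  rw [h1]
  have hC : 0 ≤ C := (norm_nonneg _).trans (hX 0 le_rfl zero_le_one)
  have h2 : ‖∫ r in (0 : ℝ)..1, (r : ℂ) ^ k * XC P F A B E0 r‖ ≤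
      ∫ r in (0 : ℝ)..1, r ^ k * C := by
    refine intervalIntegral.norm_integral_le_of_norm_le zero_le_one
      (Eventually.of_forall fun r hr => ?_)
      (Continuous.intervalIntegrable (by fun_prop) _ _)
    rw [norm_mul, norm_pow, Complex.norm_real, Real.norm_eq_abs, abs_of_nonneg hr.1.le]
    exact mul_le_mul_of_nonneg_left (hX r hr.1.le hr.2) (pow_nonneg hr.1.le k)
  rw [intervalIntegral.integral_mul_const, integral_pow, one_pow, zero_pow (by omega), sub_zero]
    at h2
  refine h2.trans ?_
  rw [div_mul_eq_mul_div, one_mul]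
  refine div_le_div_of_nonneg_left hC two_pos ?_
  have : (1 : ℝ) ≤ k := by exact_mod_cast hk
  linarith

/-- the partition function is increasing -/
theorem cflow_mono {θ : ℝ → Ω → Ω} (hA : Continuous A)
    (hB : Continuous B) (hE : Continuous E0)
    (hinv : ∀ s, ∀ f : Ω → ℂ, Continuous f → ∫ x, f (θ s x) ∂P = ∫ x, f x ∂P)
    (hθA : ∀ (s : ℝ) x, A (θ s x) = Complex.exp (s * Complex.I) * A x)
    (hθB : ∀ (s : ℝ) x, B (θ s x) = Complex.exp (-s * Complex.I) * B x)
    (hθE : ∀ s x, E0 (θ s x) = E0 x) {r : ℝ} (h0 : 0 ≤ r) (h1 : r ≤ 1) :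
    ZC P A B E0 r ≤ ZC P A B E0 1 := by
  have hAc : Continuous fun x => conj (A x) := Complex.continuous_conj.comp hA
  have hBc : Continuous fun x => conj (B x) := Complex.continuous_conj.comp hB
  have hAr : Continuous fun x => (A x).re := Complex.continuous_re.comp hA
  have hBr : Continuous fun x => (B x).re := Complex.continuous_re.comp hB
  obtain ⟨F, hFe⟩ : ∃ F : Ω → ℂ, F = fun x => A x + conj (B x) := ⟨_, rfl⟩
  have hF : Continuous F := by rw [hFe]; exact hA.add hBc
  have hθF : ∀ (s : ℝ) x, F (θ s x) = Complex.exp ((1 : ℕ) * s * Complex.I) * F x := by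
    intro s x
    rw [hFe]
    simp only
    rw [hθA, hθB, map_mul, ← Complex.exp_conj, map_mul, map_neg, Complex.conj_ofReal,
      Complex.conj_I]
    have e1 : (-(s : ℂ)) * -Complex.I = s * Complex.I := by ring
    rw [e1, Nat.cast_one, one_mul]
    ring
  have hpos : ∀ ρ : ℝ, 0 < ρ → 0 ≤ ∫ x, ((A x).re + (B x).re) * wg A B E0 ρ x ∂P := by
    intro ρ hρ
    have e1 := cflow_id P (k := 1) le_rfl hF hA hB hE hinv hθF hθA hθB hθE ρ
    have e2 : ∀ r : ℝ, XC P F A B E0 r = ((∫ x, Complex.normSq (F x) * wg A B E0 r x ∂P : ℝ) : ℂ) := by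
      intro r
      unfold XC
      rw [← integral_complex_ofReal]
      refine integral_congr_ae (Eventually.of_forall fun x => ?_)
      simp only
      have e3 : conj (A x) + B x = conj (F x) := by
        rw [hFe]; simp only; rw [map_add, Complex.conj_conj]
      rw [e3, Complex.mul_conj]
      push_cast
      rfl
    simp only [e2, pow_one] at e1
    have e4 : ∫ r in (0 : ℝ)..ρ, (r : ℂ) * ((∫ x, Complex.normSq (F x) * wg A B E0 r x ∂P : ℝ) : ℂ) =
        ((∫ r in (0 : ℝ)..ρ, r * ∫ x, Complex.normSq (F x) * wg A B E0 r x ∂P : ℝ) : ℂ) := by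
      rw [← intervalIntegral.integral_ofReal]
      simp only [Complex.ofReal_mul]
    rw [e4] at e1
    have e5 : 0 ≤ ∫ r in (0 : ℝ)..ρ, r * ∫ x, Complex.normSq (F x) * wg A B E0 r x ∂P := by
      refine intervalIntegral.integral_nonneg hρ.le fun s hs => ?_
      refine mul_nonneg hs.1 (integral_nonneg fun x => ?_)
      exact mul_nonneg (Complex.normSq_nonneg _) (Real.exp_pos _).le
    have e6 : (PsiC P F A B E0 ρ).re = ∫ x, ((A x).re + (B x).re) * wg A B E0 ρ x ∂P := by
      have hw : Continuous fun x => (wg A B E0 ρ x) := wg_cont' hA hB hE ρ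
      unfold PsiC
      have := integral_re (μ := P) (f := fun x => F x * (wg A B E0 ρ x : ℝ))
        (int_cont P (hF.mul (Complex.continuous_ofReal.comp hw)))
      have h3 : ∀ z : ℂ, RCLike.re z = z.re := fun z => rfl
      rw [← h3, ← this]
      refine integral_congr_ae (Eventually.of_forall fun x => ?_)
      simp only
      rw [h3, Complex.re_mul_ofReal, hFe]
      simp only
      rw [Complex.add_re, Complex.conj_re]
    have e7 := congrArg Complex.re e1
    rw [Complex.ofReal_re, Complex.re_ofReal_mul, e6] at e7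
    rw [← e7] at e5
    exact nonneg_of_mul_nonneg_right e5 hρ
  have hd : ∀ ρ, HasDerivAt (ZC P A B E0) (∫ x, ((A x).re + (B x).re) * wg A B E0 ρ x ∂P) ρ := by
    intro ρ
    have hw' : Continuous fun z : ℝ × Ω => wg A B E0 z.1 z.2 := wg_cont hA hB hE
    refine hasDerivAt_int P (f := fun ρ x => wg A B E0 ρ x)
      (f' := fun ρ x => ((A x).re + (B x).re) * wg A B E0 ρ x)
      (fun s => wg_cont' hA hB hE s)
      (by unfold Function.uncurry; simp only; fun_prop) (fun s x => wg_deriv x s) ρ
  have hmono : MonotoneOn (ZC P A B E0) (Set.Ici 0) := by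
    refine monotoneOn_of_deriv_nonneg (convex_Ici 0)
      (fun x _ => (hd x).continuousAt.continuousWithinAt)
      (fun x _ => (hd x).differentiableAt.differentiableWithinAt) fun x hx => ?_
    rw [interior_Ici] at hx
    rw [(hd x).deriv]
    exact hpos x hx
  exact hmono (Set.mem_Ici.2 h0) (Set.mem_Ici.2 zero_le_one) h1

end cflow

end

end Pool.Agent.T2h21.YM
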