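import Mathlib
import Pool.Agent.T2h21.YM.Chg

/-!
# The process of the charges of a maximal torus
-/

open MeasureTheory Filter Set
open scoped Topology ComplexConjugate

namespace Pool.Agent.T2h21.YM

set_option linter.unusedSectionVars false
set_option linter.unusedVariables false

noncomputable section

/-- Circle valued functions `t (x, p)` and, for every `x` and `i ≠ j`, measure preserving flows which
rotate `t (x, i)` and `t (x, j)` in opposite directions. -/
structure Flw {Ω : Type*} [TopologicalSpace Ω] [MeasurableSpace Ω] (P : Measure Ω) (X : Type*)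
    (N : ℕ) where
  t : X × Fin N → Ω → ℂ
  cont : ∀ u, Continuous (t u)
  nrm : ∀ u ω, ‖t u ω‖ = 1
  fl : X → Fin N → Fin N → ℝ → Ω → Ω
  inv : ∀ x i j, i ≠ j → ∀ s, ∀ f : Ω → ℂ, Continuous f →
    ∫ ω, f (fl x i j s ω) ∂P = ∫ ω, f ω ∂P
  fl_i : ∀ x i j, i ≠ j → ∀ (s : ℝ) ω,
    t (x, i) (fl x i j s ω) = Complex.exp (s * Complex.I) * t (x, i) ω
  fl_j : ∀ x i j, i ≠ j → ∀ (s : ℝ) ω,
    t (x, j) (fl x i j s ω) = Complex.exp (-s * Complex.I) * t (x, j) ω
  fl_o : ∀ x i j, i ≠ j → ∀ (s : ℝ) ω u, u ≠ (x, i) → u ≠ (x, j) → t u (fl x i j s ω) = t u ω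

variable {Ω : Type*} [TopologicalSpace Ω] [CompactSpace Ω] [MeasurableSpace Ω]
  [OpensMeasurableSpace Ω] [SecondCountableTopology Ω] (P : Measure Ω) [IsProbabilityMeasure P]
  {X : Type*} [Fintype X] [DecidableEq X] {N : ℕ} (W : Flw P X N)
  {I : Type*} [Fintype I] (src tgt : I → X × Fin N)

/-- add a charge -/
def up (n : X × Fin N → ℤ) (u : X × Fin N) : X × Fin N → ℤ := fun v => n v + if v = u then 1 else 0

/-- remove a charge -/
def dn (n : X × Fin N → ℤ) (u : X × Fin N) : X × Fin N → ℤ := fun v => n v - if v = u then 1 else 0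

variable {P}

/-- the characters -/
def ch (n : X × Fin N → ℤ) (ω : Ω) : ℂ := ∏ u, (W.t u ω) ^ (n u)

lemma t_ne (u : X × Fin N) (ω : Ω) : W.t u ω ≠ 0 := by
  intro h
  have := W.nrm u ω
  rw [h, norm_zero] at this
  exact zero_ne_one this

lemma t_conj (u : X × Fin N) (ω : Ω) : W.t u ω * conj (W.t u ω) = 1 := by
  rw [Complex.mul_conj, Complex.normSq_eq_norm_sq, W.nrm]
  simp

lemma ch_cont (n : X × Fin N → ℤ) : Continuous (ch W n) := by
  unfold ch
  exact continuous_finsetProd _ fun u _ => (W.cont u).zpow₀ _ fun ω => Or.inl (t_ne W u ω)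

lemma ch_norm (n : X × Fin N → ℤ) (ω : Ω) : ‖ch W n ω‖ = 1 := by
  unfold ch
  rw [norm_prod]
  refine Finset.prod_eq_one fun u _ => ?_
  rw [norm_zpow, W.nrm, one_zpow]

lemma ch_up (n : X × Fin N → ℤ) (u : X × Fin N) (ω : Ω) :
    ch W (up n u) ω = ch W n ω * W.t u ω := by
  unfold ch up
  have h1 : ∀ v, W.t v ω ^ (n v + if v = u then 1 else 0) =
      W.t v ω ^ n v * (if v = u then W.t u ω else 1) := by
    intro v
    rw [zpow_add₀ (t_ne W v ω)]
    congr 1
    by_cases h : v = u
    · subst h; simp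
    · simp [h]
  rw [Finset.prod_congr rfl fun v _ => h1 v, Finset.prod_mul_distrib, Finset.prod_ite_eq',
    if_pos (Finset.mem_univ u)]

lemma ch_dn (n : X × Fin N → ℤ) (u : X × Fin N) (ω : Ω) :
    ch W (dn n u) ω = ch W n ω * conj (W.t u ω) := by
  have h1 : up (dn n u) u = n := by
    funext v
    unfold up dn
    ring
  have h2 := ch_up W (dn n u) u ω
  rw [h1] at h2
  rw [h2, mul_assoc, t_conj, mul_one]

lemma ch_fl (n : X × Fin N → ℤ) {x : X} {i j : Fin N} (hij : i ≠ j) {k : ℕ}
    (hk : n (x, i) - n (x, j) = k) (s : ℝ) (ω : Ω) :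
    ch W n (W.fl x i j s ω) = Complex.exp (k * s * Complex.I) * ch W n ω := by
  have hne : (x, i) ≠ (x, j) := fun h => hij (congrArg Prod.snd h)
  unfold ch
  have h1 : ∀ u, W.t u (W.fl x i j s ω) ^ n u =
      ((if u = (x, i) then Complex.exp (s * Complex.I) ^ n (x, i) else 1) *
        (if u = (x, j) then Complex.exp (-s * Complex.I) ^ n (x, j) else 1)) *
        W.t u ω ^ n u := by
    intro u
    by_cases h : u = (x, i)
    · subst h
      rw [W.fl_i x i j hij, if_pos rfl, if_neg hne, mul_one, mul_zpow]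
    · by_cases h' : u = (x, j)
      · subst h'
        rw [W.fl_j x i j hij, if_neg hne.symm, if_pos rfl, one_mul, mul_zpow]
      · rw [W.fl_o x i j hij s ω u h h', if_neg h, if_neg h', one_mul, one_mul]
  rw [Finset.prod_congr rfl fun u _ => h1 u, Finset.prod_mul_distrib, Finset.prod_mul_distrib,
    Finset.prod_ite_eq', Finset.prod_ite_eq', if_pos (Finset.mem_univ _),
    if_pos (Finset.mem_univ _)]
  congr 1
  rw [← Complex.exp_int_mul, ← Complex.exp_int_mul, ← Complex.exp_add]
  congr 1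
  have h2 : (k : ℂ) = ((n (x, i) : ℤ) : ℂ) - ((n (x, j) : ℤ) : ℂ) := by
    have : ((n (x, i) - n (x, j) : ℤ) : ℂ) = ((k : ℤ) : ℂ) := by rw [hk]
    push_cast at this
    rw [this]
  rw [h2]
  ring

/-- the energy -/
def Ec (c : I → ℂ) (ω : Ω) : ℝ := ∑ e, (c e * W.t (src e) ω * conj (W.t (tgt e) ω)).re

/-- the terms of the energy which contain `a` -/
def fA (c : I → ℂ) (a : X × Fin N) (ω : Ω) : ℂ :=
  ∑ e, ((if src e = a then c e * W.t a ω * conj (W.t (tgt e) ω) else 0) +
    (if tgt e = a then conj (c e) * W.t a ω * conj (W.t (src e) ω) else 0))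

/-- the remaining terms of the energy -/
def E0c (c : I → ℂ) (a b : X × Fin N) (ω : Ω) : ℝ :=
  ∑ e, if (src e = a ∨ tgt e = a) ∨ (src e = b ∨ tgt e = b) then 0
    else (c e * W.t (src e) ω * conj (W.t (tgt e) ω)).re

/-- the couplings of `a` and `b` multiplied by `r` -/
def scc (c : I → ℂ) (a b : X × Fin N) (r : ℝ) (e : I) : ℂ :=
  (if (src e = a ∨ tgt e = a) ∨ (src e = b ∨ tgt e = b) then (r : ℂ) else 1) * c e

variable {src tgt}

lemma t_cont (u : X × Fin N) : Continuous fun ω => W.t u ω := W.cont u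

lemma tc_cont (u : X × Fin N) : Continuous fun ω => conj (W.t u ω) :=
  Complex.continuous_conj.comp (W.cont u)

lemma Ec_cont (c : I → ℂ) : Continuous (Ec W src tgt c) := by
  unfold Ec
  refine continuous_finsetSum _ fun e _ => Complex.continuous_re.comp ?_
  exact (continuous_const.mul (W.cont _)).mul (tc_cont W _)

lemma fA_cont (c : I → ℂ) (a : X × Fin N) : Continuous (fA W src tgt c a) := by
  unfold fA
  refine continuous_finsetSum _ fun e _ => ?_
  refine Continuous.add ?_ ?_
  · split_ifs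
    · exact (continuous_const.mul (W.cont _)).mul (tc_cont W _)
    · exact continuous_const
  · split_ifs
    · exact (continuous_const.mul (W.cont _)).mul (tc_cont W _)
    · exact continuous_const

lemma E0c_cont (c : I → ℂ) (a b : X × Fin N) : Continuous (E0c W src tgt c a b) := by
  unfold E0c
  refine continuous_finsetSum _ fun e _ => ?_
  split_ifs
  · exact continuous_const
  · exact Complex.continuous_re.comp ((continuous_const.mul (W.cont _)).mul (tc_cont W _))

lemma Ec_sc (hst : ∀ e, (src e).1 ≠ (tgt e).1) (c : I → ℂ) {x : X} {i j : Fin N} (hij : i ≠ j)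
    (r : ℝ) (ω : Ω) : Ec W src tgt (scc src tgt c (x, i) (x, j) r) ω =
      r * ((fA W src tgt c (x, i) ω).re + (fA W src tgt c (x, j) ω).re) +
        E0c W src tgt c (x, i) (x, j) ω := by
  have hne : (x, i) ≠ (x, j) := fun h => hij (congrArg Prod.snd h)
  unfold Ec fA E0c
  rw [Complex.re_sum, Complex.re_sum, ← Finset.sum_add_distrib, Finset.mul_sum,
    ← Finset.sum_add_distrib]
  refine Finset.sum_congr rfl fun e _ => ?_
  unfold scc
  have hcj : ∀ z w v : ℂ, (conj z * w * conj v).re = (z * v * conj w).re := by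
    intro z w v
    rw [← Complex.conj_re, map_mul, map_mul, Complex.conj_conj, Complex.conj_conj]
    congr 1
    ring
  have hr : ∀ z w v : ℂ, ((r : ℂ) * z * w * v).re = r * (z * w * v).re := by
    intro z w v
    rw [mul_assoc, mul_assoc, Complex.re_ofReal_mul, mul_assoc]
  by_cases h1 : src e = (x, i)
  · have h2 : tgt e ≠ (x, i) := fun h => hst e (by rw [h1, h])
    have h3 : tgt e ≠ (x, j) := fun h => hst e (by rw [h1, h])
    have h4 : src e ≠ (x, j) := fun h => hne (h1.symm.trans h)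
    rw [if_pos (Or.inl (Or.inl h1)), if_pos h1, if_neg h2, if_neg h4, if_neg h3,
      if_pos (Or.inl (Or.inl h1)), hr, h1]
    simp
  · by_cases h2 : tgt e = (x, i)
    · have h3 : src e ≠ (x, j) := fun h => hst e (by rw [h2, h])
      have h4 : tgt e ≠ (x, j) := fun h => hne (h2.symm.trans h)
      rw [if_pos (Or.inl (Or.inr h2)), if_neg h1, if_pos h2, if_neg h3, if_neg h4,
        if_pos (Or.inl (Or.inr h2)), hr, h2, zero_add, hcj]
      simp
    · by_cases h3 : src e = (x, j)
      · have h4 : tgt e ≠ (x, j) := fun h => hst e (by rw [h3, h])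
        rw [if_pos (Or.inr (Or.inl h3)), if_neg h1, if_neg h2, if_pos h3, if_neg h4,
          if_pos (Or.inr (Or.inl h3)), hr, h3]
        simp
      · by_cases h4 : tgt e = (x, j)
        · rw [if_pos (Or.inr (Or.inr h4)), if_neg h1, if_neg h2, if_neg h3, if_pos h4,
            if_pos (Or.inr (Or.inr h4)), hr, h4, zero_add, zero_add, hcj]
          simp
        · have h5 : ¬((src e = (x, i) ∨ tgt e = (x, i)) ∨ (src e = (x, j) ∨ tgt e = (x, j))) := by
            push Not
            exact ⟨⟨h1, h2⟩, h3, h4⟩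
          rw [if_neg h5, if_neg h1, if_neg h2, if_neg h3, if_neg h4, if_neg h5]
          simp

lemma scc_one (c : I → ℂ) (a b : X × Fin N) : scc src tgt c a b 1 = c := by
  funext e
  unfold scc
  split_ifs <;> simp

lemma scc_norm {c : I → ℂ} {M : I → ℝ} (hc : ∀ e, ‖c e‖ ≤ M e) (a b : X × Fin N) {r : ℝ}
    (h0 : 0 ≤ r) (h1 : r ≤ 1) (e : I) : ‖scc src tgt c a b r e‖ ≤ M e := by
  unfold scc
  rw [norm_mul]
  refine le_trans (mul_le_of_le_one_left (norm_nonneg _) ?_) (hc e)
  split_ifs
  · rw [Complex.norm_real, Real.norm_eq_abs, abs_of_nonneg h0]; exact h1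
  · rw [norm_one]

lemma fA_fl (hst : ∀ e, (src e).1 ≠ (tgt e).1) (c : I → ℂ) {x : X} {i j : Fin N} (hij : i ≠ j)
    (s : ℝ) (ω : Ω) : fA W src tgt c (x, i) (W.fl x i j s ω) =
      Complex.exp (s * Complex.I) * fA W src tgt c (x, i) ω := by
  unfold fA
  rw [Finset.mul_sum]
  refine Finset.sum_congr rfl fun e _ => ?_
  rw [mul_add]
  congr 1
  · split_ifs with h
    · have h2 : tgt e ≠ (x, i) := fun h' => hst e (by rw [h, h'])
      have h3 : tgt e ≠ (x, j) := fun h' => hst e (by rw [h, h'])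
      rw [W.fl_i x i j hij, W.fl_o x i j hij s ω _ h2 h3]
      ring
    · ring
  · split_ifs with h
    · have h2 : src e ≠ (x, i) := fun h' => hst e (by rw [h, h'])
      have h3 : src e ≠ (x, j) := fun h' => hst e (by rw [h, h'])
      rw [W.fl_i x i j hij, W.fl_o x i j hij s ω _ h2 h3]
      ring
    · ring

lemma fA_fl' (hst : ∀ e, (src e).1 ≠ (tgt e).1) (c : I → ℂ) {x : X} {i j : Fin N} (hij : i ≠ j)
    (s : ℝ) (ω : Ω) : fA W src tgt c (x, j) (W.fl x i j s ω) =
      Complex.exp (-s * Complex.I) * fA W src tgt c (x, j) ω := by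
  unfold fA
  rw [Finset.mul_sum]
  refine Finset.sum_congr rfl fun e _ => ?_
  rw [mul_add]
  congr 1
  · split_ifs with h
    · have h2 : tgt e ≠ (x, i) := fun h' => hst e (by rw [h, h'])
      have h3 : tgt e ≠ (x, j) := fun h' => hst e (by rw [h, h'])
      rw [W.fl_j x i j hij, W.fl_o x i j hij s ω _ h2 h3]
      ring
    · ring
  · split_ifs with h
    · have h2 : src e ≠ (x, i) := fun h' => hst e (by rw [h, h'])
      have h3 : src e ≠ (x, j) := fun h' => hst e (by rw [h, h'])
      rw [W.fl_j x i j hij, W.fl_o x i j hij s ω _ h2 h3]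
      ring
    · ring

lemma E0c_fl (c : I → ℂ) {x : X} {i j : Fin N} (hij : i ≠ j) (s : ℝ) (ω : Ω) :
    E0c W src tgt c (x, i) (x, j) (W.fl x i j s ω) = E0c W src tgt c (x, i) (x, j) ω := by
  unfold E0c
  refine Finset.sum_congr rfl fun e _ => ?_
  split_ifs with h
  · rfl
  · push Not at h
    rw [W.fl_o x i j hij s ω _ h.1.1 h.2.1, W.fl_o x i j hij s ω _ h.1.2 h.2.2]

variable (src tgt) in
/-- the partition function -/
def Zc (c : I → ℂ) : ℝ := ∫ ω, Real.exp (Ec W src tgt c ω) ∂P

variable (src tgt) in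
/-- the expectation of a character -/
def Tc (c : I → ℂ) (n : X × Fin N → ℤ) : ℂ :=
  ∫ ω, ch W n ω * (Real.exp (Ec W src tgt c ω) : ℝ) ∂P

lemma Zc_pos (c : I → ℂ) : 0 < Zc W src tgt c := by
  unfold Zc
  exact integral_exp_pos (int_cont _ (Real.continuous_exp.comp (Ec_cont W c)))

lemma Tc_int (c : I → ℂ) (n : X × Fin N → ℤ) :
    Integrable (fun ω => ch W n ω * (Real.exp (Ec W src tgt c ω) : ℝ)) P :=
  int_cont _ ((ch_cont W n).mul (Complex.continuous_ofReal.comp
    (Real.continuous_exp.comp (Ec_cont W c))))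

lemma Tc_le (c : I → ℂ) (n : X × Fin N → ℤ) : ‖Tc W src tgt c n‖ ≤ Zc W src tgt c := by
  unfold Tc Zc
  refine norm_integral_le_of_norm_le
    (int_cont _ (Real.continuous_exp.comp (Ec_cont W c))) (Eventually.of_forall fun ω => ?_)
  rw [norm_mul, ch_norm, one_mul, Complex.norm_real, Real.norm_eq_abs, Real.abs_exp]

lemma Zc_mono (hst : ∀ e, (src e).1 ≠ (tgt e).1) (c : I → ℂ) (x : X) {i j : Fin N} (hij : i ≠ j)
    {r : ℝ} (h0 : 0 ≤ r) (h1 : r ≤ 1) :
    Zc W src tgt (scc src tgt c (x, i) (x, j) r) ≤ Zc W src tgt c := by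
  have e1 : ∀ r, Zc W src tgt (scc src tgt c (x, i) (x, j) r) =
      ZC P (fA W src tgt c (x, i)) (fA W src tgt c (x, j)) (E0c W src tgt c (x, i) (x, j)) r := by
    intro r
    unfold Zc ZC wg
    simp only [Ec_sc W hst c hij]
  have e2 : Zc W src tgt c = Zc W src tgt (scc src tgt c (x, i) (x, j) 1) := by rw [scc_one]
  rw [e2, e1, e1]
  exact cflow_mono P (θ := W.fl x i j) (fA_cont W c _) (fA_cont W c _) (E0c_cont W c _ _)
    (W.inv x i j hij) (fA_fl W hst c hij) (fA_fl' W hst c hij) (E0c_fl W c hij) h0 h1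

/-- the sum of the weights of the bonds at `a` -/
def rs (src tgt : I → X × Fin N) (M : I → ℝ) (g : X → ℝ) (a : X × Fin N) : ℝ :=
  ∑ e, ((if src e = a then M e * g (tgt e).1 else 0) +
    (if tgt e = a then M e * g (src e).1 else 0))

/-- one step of the process -/
lemma Tc_step (hst : ∀ e, (src e).1 ≠ (tgt e).1) {R : X → X → Prop}
    (hR : ∀ e, R (src e).1 (tgt e).1 ∧ R (tgt e).1 (src e).1)
    {c : I → ℂ} {n : X × Fin N → ℤ} {x : X}
    {i j : Fin N} (hij : i ≠ j) (hn : 1 ≤ n (x, i) - n (x, j)) {M : I → ℝ}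
    (hc : ∀ e, ‖c e‖ ≤ M e) {ga gb : X → ℝ} (hga : ∀ y, 0 ≤ ga y) (hgb : ∀ y, 0 ≤ gb y)
    (ha : ∀ c' : I → ℂ, (∀ e, ‖c' e‖ ≤ M e) → ∀ y, R x y → ∀ q,
      ‖Tc W src tgt c' (up (dn n (x, i)) (y, q))‖ ≤ ga y * Zc W src tgt c')
    (hb : ∀ c' : I → ℂ, (∀ e, ‖c' e‖ ≤ M e) → ∀ y, R x y → ∀ q,
      ‖Tc W src tgt c' (dn (up n (x, j)) (y, q))‖ ≤ gb y * Zc W src tgt c') :
    ‖Tc W src tgt c n‖ ≤
      (rs src tgt M ga (x, i) + rs src tgt M gb (x, j)) / 2 * Zc W src tgt c := by
  have hM : ∀ e, 0 ≤ M e := fun e => (norm_nonneg _).trans (hc e)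
  obtain ⟨k, hk⟩ : ∃ k : ℕ, n (x, i) - n (x, j) = k :=
    ⟨(n (x, i) - n (x, j)).toNat, (Int.toNat_of_nonneg (by omega)).symm⟩
  have hk1 : 1 ≤ k := by omega
  have e1 : Tc W src tgt c n = PsiC P (ch W n) (fA W src tgt c (x, i))
      (fA W src tgt c (x, j)) (E0c W src tgt c (x, i) (x, j)) 1 := by
    unfold Tc PsiC wg
    refine integral_congr_ae (Eventually.of_forall fun ω => ?_)
    simp only
    rw [← Ec_sc W hst c hij, scc_one]
  rw [e1, div_mul_eq_mul_div]
  refine cflow_bound P (θ := W.fl x i j) hk1 (ch_cont W n) (fA_cont W c _) (fA_cont W c _)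
    (E0c_cont W c _ _) (W.inv x i j hij) (ch_fl W n hij hk) (fA_fl W hst c hij)
    (fA_fl' W hst c hij) (E0c_fl W c hij) fun r h0 h1 => ?_
  obtain ⟨cr, hcr⟩ : ∃ cr, cr = scc src tgt c (x, i) (x, j) r := ⟨_, rfl⟩
  have hcrn : ∀ e, ‖cr e‖ ≤ M e := by
    intro e; rw [hcr]; exact scc_norm hc _ _ h0 h1 e
  have hZ : Zc W src tgt cr ≤ Zc W src tgt c := by
    rw [hcr]; exact Zc_mono W hst c x hij h0 h1
  have hZ0 := Zc_pos (src := src) (tgt := tgt) W cr
  have e2 : XC P (ch W n) (fA W src tgt c (x, i))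
      (fA W src tgt c (x, j)) (E0c W src tgt c (x, i) (x, j)) r =
      ∑ e, (((if src e = (x, i) then
          conj (c e) * Tc W src tgt cr (up (dn n (x, i)) (tgt e)) else 0) +
        (if tgt e = (x, i) then c e * Tc W src tgt cr (up (dn n (x, i)) (src e)) else 0)) +
        ((if src e = (x, j) then c e * Tc W src tgt cr (dn (up n (x, j)) (tgt e)) else 0) +
        (if tgt e = (x, j) then
          conj (c e) * Tc W src tgt cr (dn (up n (x, j)) (src e)) else 0))) := by
    unfold XC
    have h2 : ∀ ω, ch W n ω * (conj (fA W src tgt c (x, i) ω) + fA W src tgt c (x, j) ω) *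
        (wg (fA W src tgt c (x, i)) (fA W src tgt c (x, j)) (E0c W src tgt c (x, i) (x, j)) r ω :
          ℝ) = ∑ e, (((if src e = (x, i) then
          conj (c e) * (ch W (up (dn n (x, i)) (tgt e)) ω *
            (Real.exp (Ec W src tgt cr ω) : ℝ)) else 0) +
        (if tgt e = (x, i) then c e * (ch W (up (dn n (x, i)) (src e)) ω *
            (Real.exp (Ec W src tgt cr ω) : ℝ)) else 0)) +
        ((if src e = (x, j) then c e * (ch W (dn (up n (x, j)) (tgt e)) ω *
            (Real.exp (Ec W src tgt cr ω) : ℝ)) else 0) +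
        (if tgt e = (x, j) then
          conj (c e) * (ch W (dn (up n (x, j)) (src e)) ω *
            (Real.exp (Ec W src tgt cr ω) : ℝ)) else 0))) := by
      intro ω
      unfold wg
      rw [← Ec_sc W hst c hij, ← hcr]
      conv_lhs => unfold fA
      rw [map_sum, ← Finset.sum_add_distrib, Finset.mul_sum, Finset.sum_mul]
      refine Finset.sum_congr rfl fun e _ => ?_
      rw [map_add, mul_add, mul_add, mul_add, add_mul, add_mul, add_mul]
      congr 1
      · congr 1
        · split_ifs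
          · rw [ch_up, ch_dn, map_mul, map_mul, Complex.conj_conj]; ring
          · rw [map_zero]; ring
        · split_ifs
          · rw [ch_up, ch_dn, map_mul, map_mul, Complex.conj_conj, Complex.conj_conj]; ring
          · rw [map_zero]; ring
      · congr 1
        · split_ifs
          · rw [ch_dn, ch_up]; ring
          · ring
        · split_ifs
          · rw [ch_dn, ch_up]; ring
          · ring
    simp only [h2]
    have hT : ∀ (z : ℂ) (m : X × Fin N → ℤ), Integrable (fun ω => z * (ch W m ω *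
        (Real.exp (Ec W src tgt cr ω) : ℝ))) P := fun z m => (Tc_int W cr m).const_mul z
    have hI : ∀ (p : Prop) [Decidable p] (z : ℂ) (m : X × Fin N → ℤ),
        Integrable (fun ω => if p then z * (ch W m ω *
          (Real.exp (Ec W src tgt cr ω) : ℝ)) else 0) P := by
      intro p _ z m
      split_ifs
      · exact hT z m
      · exact integrable_zero _ _ _
    have hV : ∀ (p : Prop) [Decidable p] (z : ℂ) (m : X × Fin N → ℤ),
        ∫ ω, (if p then z * (ch W m ω *
          (Real.exp (Ec W src tgt cr ω) : ℝ)) else 0) ∂P =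
        if p then z * Tc W src tgt cr m else 0 := by
      intro p _ z m
      split_ifs
      · rw [integral_const_mul]; rfl
      · exact integral_zero _ _
    have hI4 : ∀ (p q p' q' : Prop) [Decidable p] [Decidable q] [Decidable p'] [Decidable q']
        (z w z' w' : ℂ) (m m' m'' m''' : X × Fin N → ℤ),
        Integrable (fun ω => (((if p then z * (ch W m ω * (Real.exp (Ec W src tgt cr ω) : ℝ)) else 0) +
          (if q then w * (ch W m' ω * (Real.exp (Ec W src tgt cr ω) : ℝ)) else 0)) +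
          ((if p' then z' * (ch W m'' ω * (Real.exp (Ec W src tgt cr ω) : ℝ)) else 0) +
          (if q' then w' * (ch W m''' ω * (Real.exp (Ec W src tgt cr ω) : ℝ)) else 0)))) P ∧
        ∫ ω, (((if p then z * (ch W m ω * (Real.exp (Ec W src tgt cr ω) : ℝ)) else 0) +
          (if q then w * (ch W m' ω * (Real.exp (Ec W src tgt cr ω) : ℝ)) else 0)) +
          ((if p' then z' * (ch W m'' ω * (Real.exp (Ec W src tgt cr ω) : ℝ)) else 0) +
          (if q' then w' * (ch W m''' ω * (Real.exp (Ec W src tgt cr ω) : ℝ)) else 0))) ∂P =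
        (((if p then z * Tc W src tgt cr m else 0) + (if q then w * Tc W src tgt cr m' else 0)) +
          ((if p' then z' * Tc W src tgt cr m'' else 0) +
          (if q' then w' * Tc W src tgt cr m''' else 0))) := by
      intro p q p' q' _ _ _ _ z w z' w' m m' m'' m'''
      refine ⟨((hI p z m).add (hI q w m')).add ((hI p' z' m'').add (hI q' w' m''')), ?_⟩
      rw [← hV p z m, ← hV q w m', ← hV p' z' m'', ← hV q' w' m''',
        ← integral_add (hI p z m) (hI q w m'), ← integral_add (hI p' z' m'') (hI q' w' m''')]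
      exact integral_add ((hI p z m).add (hI q w m')) ((hI p' z' m'').add (hI q' w' m'''))
    rw [integral_finsetSum _ (fun e _ => (hI4 _ _ _ _ _ _ _ _ _ _ _ _).1)]
    exact Finset.sum_congr rfl fun e _ => (hI4 _ _ _ _ _ _ _ _ _ _ _ _).2
  rw [e2]
  refine (norm_sum_le _ _).trans ?_
  unfold rs
  rw [← Finset.sum_add_distrib, Finset.sum_mul]
  refine Finset.sum_le_sum fun e _ => ?_
  have hq : ∀ (z : ℂ) (m : X × Fin N → ℤ) (g : ℝ), ‖z‖ ≤ M e → 0 ≤ g →
      ‖Tc W src tgt cr m‖ ≤ g * Zc W src tgt cr →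
      ‖z * Tc W src tgt cr m‖ ≤ M e * g * Zc W src tgt c := by
    intro z m g hz hg hT
    rw [norm_mul]
    calc ‖z‖ * ‖Tc W src tgt cr m‖ ≤ M e * (g * Zc W src tgt c) :=
          mul_le_mul hz (hT.trans (mul_le_mul_of_nonneg_left hZ hg)) (norm_nonneg _) (hM e)
      _ = _ := by ring
  have hce : ‖conj (c e)‖ ≤ M e := by rw [RCLike.norm_conj]; exact hc e
  have hzero : ∀ {p : Prop} [Decidable p] {z w : ℂ} {g : ℝ}, 0 ≤ g →
      (p → ‖z * w‖ ≤ g * Zc W src tgt c) →
      ‖(if p then z * w else 0)‖ ≤ (if p then g else 0) * Zc W src tgt c := by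
    intro p _ z w g hg h
    split_ifs with hp
    · exact h hp
    · simp
  refine (norm_add_le _ _).trans ?_
  rw [add_mul]
  refine add_le_add ((norm_add_le _ _).trans ?_) ((norm_add_le _ _).trans ?_)
  · rw [add_mul]
    refine add_le_add (hzero (mul_nonneg (hM e) (hga _)) fun h => ?_)
      (hzero (mul_nonneg (hM e) (hga _)) fun h => ?_)
    · refine hq _ _ _ hce (hga _) ?_
      have := ha cr hcrn (tgt e).1 (by have := (hR e).1; rw [h] at this; exact this) (tgt e).2
      exact this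
    · refine hq _ _ _ (hc e) (hga _) ?_
      have := ha cr hcrn (src e).1 (by have := (hR e).2; rw [h] at this; exact this) (src e).2
      exact this
  · rw [add_mul]
    refine add_le_add (hzero (mul_nonneg (hM e) (hgb _)) fun h => ?_)
      (hzero (mul_nonneg (hM e) (hgb _)) fun h => ?_)
    · refine hq _ _ _ (hc e) (hgb _) ?_
      have := hb cr hcrn (tgt e).1 (by have := (hR e).1; rw [h] at this; exact this) (tgt e).2
      exact this
    · refine hq _ _ _ hce (hgb _) ?_
      have := hb cr hcrn (src e).1 (by have := (hR e).2; rw [h] at this; exact this) (src e).2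
      exact this

end

end Pool.Agent.T2h21.YM
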