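import Mathlib
import Pool.Agent.T2h21.YM.Chp

/-!
# Exponential decay of the charged expectations
-/

open MeasureTheory Filter Set
open scoped Topology ComplexConjugate

namespace Pool.Agent.T2h21.YM

set_option linter.unusedSectionVars false
set_option linter.unusedVariables false

noncomputable section

variable {Ω : Type*} [TopologicalSpace Ω] [CompactSpace Ω] [MeasurableSpace Ω]
  [OpensMeasurableSpace Ω] [SecondCountableTopology Ω] {P : Measure Ω} [IsProbabilityMeasure P]
  {X : Type*} [Fintype X] [DecidableEq X] {N : ℕ} (W : Flw P X N)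
  {I : Type*} [Fintype I] {src tgt : I → X × Fin N}

/-- the charge of a site -/
def res (n : X × Fin N → ℤ) (y : X) : ZMod N := ∑ p, (n (y, p) : ZMod N)

lemma res_up (n : X × Fin N → ℤ) (u : X × Fin N) (y : X) :
    res (up n u) y = res n y + if y = u.1 then 1 else 0 := by
  unfold res up
  obtain ⟨z, q⟩ := u
  simp only [Int.cast_add, Finset.sum_add_distrib]
  congr 1
  by_cases h : y = z
  · subst h
    rw [if_pos rfl, Finset.sum_eq_single q]
    · simp
    · intro p _ hp
      rw [if_neg (fun h => hp (congrArg Prod.snd h)), Int.cast_zero]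
    · intro h; exact absurd (Finset.mem_univ _) h
  · rw [if_neg h]
    refine Finset.sum_eq_zero fun p _ => ?_
    rw [if_neg (fun h' => h (congrArg Prod.fst h')), Int.cast_zero]

lemma res_dn (n : X × Fin N → ℤ) (u : X × Fin N) (y : X) :
    res (dn n u) y = res n y - if y = u.1 then 1 else 0 := by
  have h1 : up (dn n u) u = n := by
    funext v
    unfold up dn
    ring
  have h2 := res_up (dn n u) u y
  rw [h1] at h2
  rw [h2]
  ring

/-- the charge outside of the zero set of `D` -/
def Qc (D : X → ℕ) (n : X × Fin N → ℤ) : ZMod N := ∑ y, if 1 ≤ D y then res n y else 0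

lemma Qc_up (D : X → ℕ) (n : X × Fin N → ℤ) (u : X × Fin N) :
    Qc D (up n u) = Qc D n + if 1 ≤ D u.1 then 1 else 0 := by
  unfold Qc
  have h1 : ∀ y, (if 1 ≤ D y then res (up n u) y else 0) =
      (if 1 ≤ D y then res n y else 0) + (if y = u.1 then (if 1 ≤ D u.1 then 1 else 0) else 0) := by
    intro y
    rw [res_up]
    by_cases h : y = u.1
    · subst h
      simp only [if_true]
      split_ifs <;> ring
    · simp only [h, if_false, add_zero]
  rw [Finset.sum_congr rfl fun y _ => h1 y, Finset.sum_add_distrib, Finset.sum_ite_eq',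
    if_pos (Finset.mem_univ _)]

lemma Qc_dn (D : X → ℕ) (n : X × Fin N → ℤ) (u : X × Fin N) :
    Qc D (dn n u) = Qc D n - if 1 ≤ D u.1 then 1 else 0 := by
  have h1 : up (dn n u) u = n := by
    funext v
    unfold up dn
    ring
  have h2 := Qc_up D (dn n u) u
  rw [h1] at h2
  rw [h2]
  ring

lemma exists_pair {n : X × Fin N → ℤ} {x : X} (h : res n x ≠ 0) :
    ∃ i j : Fin N, i ≠ j ∧ 1 ≤ n (x, i) - n (x, j) := by
  by_contra hcon
  push Not at hcon
  apply h
  unfold res
  rcases Nat.eq_zero_or_pos N with h0 | h0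
  · subst h0
    exact Finset.sum_eq_zero fun p _ => p.elim0
  · have h1 : ∀ p : Fin N, n (x, p) = n (x, ⟨0, h0⟩) := by
      intro p
      by_cases hp : p = ⟨0, h0⟩
      · rw [hp]
      · have := hcon p ⟨0, h0⟩ hp
        have := hcon ⟨0, h0⟩ p (Ne.symm hp)
        omega
    simp only [h1, Finset.sum_const, Finset.card_univ, Fintype.card_fin, nsmul_eq_mul,
      ZMod.natCast_self, zero_mul]

/-- the factor of a site of charge `r` -/
def gv (φ : ℝ) (r : ZMod N) : ℝ := if r = 0 then 1 else φ

lemma gv_nonneg {φ : ℝ} (h : 0 ≤ φ) (r : ZMod N) : 0 ≤ gv φ r := by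
  unfold gv; split_ifs
  · exact zero_le_one
  · exact h

lemma gv_ge {φ : ℝ} (h : φ ≤ 1) (r : ZMod N) : φ ≤ gv φ r := by
  unfold gv; split_ifs
  · exact h
  · exact le_rfl

lemma rs_lin (M : I → ℝ) (g h : X → ℝ) (α γ : ℝ) (a : X × Fin N) :
    rs src tgt M (fun y => α * g y + γ * h y) a =
      α * rs src tgt M g a + γ * rs src tgt M h a := by
  unfold rs
  rw [Finset.mul_sum, Finset.mul_sum, ← Finset.sum_add_distrib]
  refine Finset.sum_congr rfl fun e _ => ?_
  split_ifs <;> ring

lemma rs_mono {M : I → ℝ} (hM : ∀ e, 0 ≤ M e) {g h : X → ℝ} (hgh : ∀ y, g y ≤ h y)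
    (a : X × Fin N) : rs src tgt M g a ≤ rs src tgt M h a := by
  unfold rs
  refine Finset.sum_le_sum fun e _ => add_le_add ?_ ?_
  · split_ifs
    · exact mul_le_mul_of_nonneg_left (hgh _) (hM e)
    · exact le_rfl
  · split_ifs
    · exact mul_le_mul_of_nonneg_left (hgh _) (hM e)
    · exact le_rfl

/-- **The decay of the charged expectations.** -/
theorem charge {D : X → ℕ} {M : I → ℝ} {w β s φ θ : ℝ} (hM : ∀ e, 0 ≤ M e)
    (hst : ∀ e, (src e).1 ≠ (tgt e).1)
    (hD : ∀ e, D (src e).1 ≤ D (tgt e).1 + 1 ∧ D (tgt e).1 ≤ D (src e).1 + 1)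
    (htot : ∀ a, rs src tgt M (fun _ => 1) a ≤ 2 * w)
    (htow : ∀ a, rs src tgt M (fun y => if D y < D a.1 then 1 else 0) a ≤ β)
    (hw : 0 ≤ w) (hβ : 0 ≤ β) (hβw : β ≤ 2 * w) (hθ0 : 0 ≤ θ) (hθφ : θ ≤ φ)
    (hφ1 : φ ≤ 1) (hs : ∀ r : ZMod N, r ≠ 0 → gv φ (r - 1) + gv φ (r + 1) ≤ s)
    (h1 : w * s ≤ φ) (h2 : β / 2 * s + (2 * w - β) * θ ≤ θ) :
    ∀ k : ℕ, ∀ c : I → ℂ, (∀ e, ‖c e‖ ≤ M e) → ∀ (n : X × Fin N → ℤ) (m : ℕ),
      ((m = 0 ∨ (Qc D n ≠ 0 ∧ ∀ y, res n y ≠ 0 → D y = 0 ∨ m ≤ D y)) →
        ‖Tc W src tgt c n‖ ≤ (θ ^ m + (2 * w) ^ k) * Zc W src tgt c) ∧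
      (∀ x, m + 1 ≤ D x →
        (m = 0 ∨ (Qc D n ≠ 0 ∧ ∀ y, y ≠ x → res n y ≠ 0 → D y = 0 ∨ m ≤ D y)) →
        ‖Tc W src tgt c n‖ ≤ (gv φ (res n x) * θ ^ m + (2 * w) ^ k) * Zc W src tgt c) := by
  have hφ0 : 0 ≤ φ := hθ0.trans hθφ
  intro k
  induction k with
  | zero =>
    intro c hc n m
    have hZ := Zc_pos (src := src) (tgt := tgt) W c
    refine ⟨fun _ => (Tc_le W c n).trans ?_, fun x _ _ => (Tc_le W c n).trans ?_⟩
    · rw [pow_zero]
      have := pow_nonneg hθ0 m
      exact le_mul_of_one_le_left hZ.le (by linarith)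
    · rw [pow_zero]
      have := mul_nonneg (gv_nonneg hφ0 (res n x)) (pow_nonneg hθ0 m)
      exact le_mul_of_one_le_left hZ.le (by linarith)
  | succ k ih =>
    intro c hc n m
    have hZ := Zc_pos (src := src) (tgt := tgt) W c
    have hε : 0 ≤ (2 * w) ^ k := pow_nonneg (by linarith) k
    have hεs : (2 * w) ^ (k + 1) = 2 * w * (2 * w) ^ k := by rw [pow_succ]; ring
    -- the first bound
    have hB : (m = 0 ∨ (Qc D n ≠ 0 ∧ ∀ y, res n y ≠ 0 → D y = 0 ∨ m ≤ D y)) →
        ‖Tc W src tgt c n‖ ≤ (θ ^ m + (2 * w) ^ (k + 1)) * Zc W src tgt c := by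
      intro hcase
      rcases Nat.eq_zero_or_pos m with hm0 | hm0
      · subst hm0
        refine (Tc_le W c n).trans ?_
        rw [pow_zero]
        have := pow_nonneg (by linarith : 0 ≤ 2 * w) (k + 1)
        exact le_mul_of_one_le_left hZ.le (by linarith)
      obtain ⟨hQ, hy⟩ : Qc D n ≠ 0 ∧ ∀ y, res n y ≠ 0 → D y = 0 ∨ m ≤ D y := by
        rcases hcase with h | h
        · omega
        · exact h
      obtain ⟨x, -, hx⟩ := Finset.exists_ne_zero_of_sum_ne_zero hQ
      have hx1 : 1 ≤ D x := by
        by_contra h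
        rw [if_neg h] at hx
        exact hx rfl
      rw [if_pos hx1] at hx
      have hmx : m ≤ D x := by
        rcases hy x hx with h | h
        · omega
        · exact h
      obtain ⟨i, j, hij, hnk⟩ := exists_pair hx
      have hθm : 0 ≤ θ ^ (m - 1) := pow_nonneg hθ0 _
      have hθm' : θ ^ m = θ * θ ^ (m - 1) := by
        rw [← pow_succ']; congr 1; omega
      have hga : ∀ r : ZMod N, ∀ y : X,
          0 ≤ (if D y < m then gv φ r * θ ^ (m - 1) else θ ^ m) + (2 * w) ^ k := by
        intro r y
        refine add_nonneg ?_ hε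
        split_ifs
        · exact mul_nonneg (gv_nonneg hφ0 _) hθm
        · exact pow_nonneg hθ0 _
      have hstep := Tc_step W (R := fun z y => z ≠ y ∧ D z ≤ D y + 1 ∧ D y ≤ D z + 1) hst
        (fun e => ⟨⟨hst e, hD e⟩, ⟨(hst e).symm, (hD e).2, (hD e).1⟩⟩) hij hnk hc
        (ga := fun y => (if D y < m then gv φ (res n x - 1) * θ ^ (m - 1) else θ ^ m) +
          (2 * w) ^ k)
        (gb := fun y => (if D y < m then gv φ (res n x + 1) * θ ^ (m - 1) else θ ^ m) +
          (2 * w) ^ k) (hga _) (hga _)
        (fun c' hc' y hR q => by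
          obtain ⟨hxy, hd1, hd2⟩ := hR
          have hrx : res (up (dn n (x, i)) (y, q)) x = res n x - 1 := by
            rw [res_up, res_dn, if_pos rfl, if_neg hxy, add_zero]
          have hQ' : 1 ≤ D y → Qc D (up (dn n (x, i)) (y, q)) ≠ 0 := by
            intro h
            rw [Qc_up, Qc_dn, if_pos hx1, if_pos h, sub_add_cancel]
            exact hQ
          have hrz : ∀ z, z ≠ x → z ≠ y → res (up (dn n (x, i)) (y, q)) z = res n z := by
            intro z h h'
            rw [res_up, res_dn, if_neg h, if_neg h', add_zero, sub_zero]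
          by_cases hym : D y < m
          · simp only [if_pos hym]
            rw [← hrx]
            refine (ih c' hc' _ (m - 1)).2 x (by omega) ?_
            by_cases hm1 : m - 1 = 0
            · exact Or.inl hm1
            · refine Or.inr ⟨hQ' (by omega), fun z hz hrz' => ?_⟩
              by_cases hzy : z = y
              · right; rw [hzy]; omega
              · rw [hrz z hz hzy] at hrz'
                rcases hy z hrz' with h | h
                · exact Or.inl h
                · right; omega
          · simp only [if_neg hym]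
            refine (ih c' hc' _ m).1 (Or.inr ⟨hQ' (by omega), fun z hrz' => ?_⟩)
            by_cases hzx : z = x
            · right; rw [hzx]; exact hmx
            · by_cases hzy : z = y
              · right; rw [hzy]; omega
              · rw [hrz z hzx hzy] at hrz'
                exact hy z hrz')
        (fun c' hc' y hR q => by
          obtain ⟨hxy, hd1, hd2⟩ := hR
          have hrx : res (dn (up n (x, j)) (y, q)) x = res n x + 1 := by
            rw [res_dn, res_up, if_pos rfl, if_neg hxy, sub_zero]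
          have hQ' : 1 ≤ D y → Qc D (dn (up n (x, j)) (y, q)) ≠ 0 := by
            intro h
            rw [Qc_dn, Qc_up, if_pos hx1, if_pos h, add_sub_cancel_right]
            exact hQ
          have hrz : ∀ z, z ≠ x → z ≠ y → res (dn (up n (x, j)) (y, q)) z = res n z := by
            intro z h h'
            rw [res_dn, res_up, if_neg h, if_neg h', add_zero, sub_zero]
          by_cases hym : D y < m
          · simp only [if_pos hym]
            rw [← hrx]
            refine (ih c' hc' _ (m - 1)).2 x (by omega) ?_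
            by_cases hm1 : m - 1 = 0
            · exact Or.inl hm1
            · refine Or.inr ⟨hQ' (by omega), fun z hz hrz' => ?_⟩
              by_cases hzy : z = y
              · right; rw [hzy]; omega
              · rw [hrz z hz hzy] at hrz'
                rcases hy z hrz' with h | h
                · exact Or.inl h
                · right; omega
          · simp only [if_neg hym]
            refine (ih c' hc' _ m).1 (Or.inr ⟨hQ' (by omega), fun z hrz' => ?_⟩)
            by_cases hzx : z = x
            · right; rw [hzx]; exact hmx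
            · by_cases hzy : z = y
              · right; rw [hzy]; omega
              · rw [hrz z hzx hzy] at hrz'
                exact hy z hrz')
      refine hstep.trans (mul_le_mul_of_nonneg_right ?_ hZ.le)
      have hrow : ∀ (r : ZMod N) (a : X × Fin N), a.1 = x →
          rs src tgt M (fun y => (if D y < m then gv φ r * θ ^ (m - 1) else θ ^ m) +
            (2 * w) ^ k) a ≤ (gv φ r - θ) * θ ^ (m - 1) * β + (θ ^ m + (2 * w) ^ k) * (2 * w) := by
        intro r a ha
        have hu : 0 ≤ (gv φ r - θ) * θ ^ (m - 1) :=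
          mul_nonneg (by linarith [gv_ge (N := N) hφ1 r]) hθm
        have e1 : rs src tgt M (fun y => (if D y < m then gv φ r * θ ^ (m - 1) else θ ^ m) +
            (2 * w) ^ k) a ≤ rs src tgt M (fun y => ((gv φ r - θ) * θ ^ (m - 1)) *
              (if D y < D a.1 then 1 else 0) + (θ ^ m + (2 * w) ^ k) * 1) a := by
          refine rs_mono hM (fun y => ?_) a
          by_cases hy1 : D y < m
          · rw [if_pos hy1, if_pos (by rw [ha]; omega), hθm']
            exact le_of_eq (by ring)
          · rw [if_neg hy1]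
            have : 0 ≤ ((gv φ r - θ) * θ ^ (m - 1)) * (if D y < D a.1 then (1 : ℝ) else 0) := by
              refine mul_nonneg hu ?_
              split_ifs <;> norm_num
            linarith
        refine e1.trans ?_
        rw [rs_lin (src := src) (tgt := tgt) M (fun y => if D y < D a.1 then (1 : ℝ) else 0)
          (fun _ => 1)]
        refine add_le_add (mul_le_mul_of_nonneg_left (htow a) hu)
          (mul_le_mul_of_nonneg_left (htot a) ?_)
        have := pow_nonneg hθ0 m
        linarith
      have r1 := hrow (res n x - 1) (x, i) rfl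
      have r2 := hrow (res n x + 1) (x, j) rfl
      have r3 := mul_le_mul_of_nonneg_right (hs _ hx) (mul_nonneg (by linarith : 0 ≤ β / 2) hθm)
      have r4 := mul_le_mul_of_nonneg_right h2 hθm
      rw [hθm'] at r1 r2 ⊢
      rw [hεs]
      nlinarith
    refine ⟨hB, fun x hx hcase => ?_⟩
    -- the second bound
    by_cases hr : res n x = 0
    · unfold gv
      rw [if_pos hr, one_mul]
      refine hB ?_
      rcases hcase with h | ⟨hQ, h⟩
      · exact Or.inl h
      · refine Or.inr ⟨hQ, fun y hy => h y (fun h' => ?_) hy⟩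
        rw [h'] at hy
        exact hy hr
    · obtain ⟨i, j, hij, hnk⟩ := exists_pair hr
      have hθm : 0 ≤ θ ^ m := pow_nonneg hθ0 _
      have hga : ∀ r : ZMod N, 0 ≤ gv φ r * θ ^ m + (2 * w) ^ k := fun r =>
        add_nonneg (mul_nonneg (gv_nonneg hφ0 _) hθm) hε
      have hstep := Tc_step W (R := fun z y => z ≠ y ∧ D z ≤ D y + 1 ∧ D y ≤ D z + 1) hst
        (fun e => ⟨⟨hst e, hD e⟩, ⟨(hst e).symm, (hD e).2, (hD e).1⟩⟩) hij hnk hc
        (ga := fun y => gv φ (res n x - 1) * θ ^ m + (2 * w) ^ k)
        (gb := fun y => gv φ (res n x + 1) * θ ^ m + (2 * w) ^ k) (fun _ => hga _) (fun _ => hga _)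
        (fun c' hc' y hR q => by
          obtain ⟨hxy, hd1, hd2⟩ := hR
          have hrx : res (up (dn n (x, i)) (y, q)) x = res n x - 1 := by
            rw [res_up, res_dn, if_pos rfl, if_neg hxy, add_zero]
          have hrz : ∀ z, z ≠ x → z ≠ y → res (up (dn n (x, i)) (y, q)) z = res n z := by
            intro z h h'
            rw [res_up, res_dn, if_neg h, if_neg h', add_zero, sub_zero]
          rw [← hrx]
          refine (ih c' hc' _ m).2 x hx ?_
          rcases hcase with h | ⟨hQ, h⟩
          · exact Or.inl h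
          · by_cases hm0 : m = 0
            · exact Or.inl hm0
            refine Or.inr ⟨?_, fun z hz hrz' => ?_⟩
            · have hd1' : 1 ≤ D (x, i).1 := by
                show 1 ≤ D x
                omega
              have hd2' : 1 ≤ D (y, q).1 := by
                show 1 ≤ D y
                omega
              rw [Qc_up, Qc_dn, if_pos hd1', if_pos hd2', sub_add_cancel]
              exact hQ
            · by_cases hzy : z = y
              · right; rw [hzy]; omega
              · rw [hrz z hz hzy] at hrz'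
                exact h z hz hrz')
        (fun c' hc' y hR q => by
          obtain ⟨hxy, hd1, hd2⟩ := hR
          have hrx : res (dn (up n (x, j)) (y, q)) x = res n x + 1 := by
            rw [res_dn, res_up, if_pos rfl, if_neg hxy, sub_zero]
          have hrz : ∀ z, z ≠ x → z ≠ y → res (dn (up n (x, j)) (y, q)) z = res n z := by
            intro z h h'
            rw [res_dn, res_up, if_neg h, if_neg h', add_zero, sub_zero]
          rw [← hrx]
          refine (ih c' hc' _ m).2 x hx ?_
          rcases hcase with h | ⟨hQ, h⟩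
          · exact Or.inl h
          · by_cases hm0 : m = 0
            · exact Or.inl hm0
            refine Or.inr ⟨?_, fun z hz hrz' => ?_⟩
            · have hd1' : 1 ≤ D (x, j).1 := by
                show 1 ≤ D x
                omega
              have hd2' : 1 ≤ D (y, q).1 := by
                show 1 ≤ D y
                omega
              rw [Qc_dn, Qc_up, if_pos hd1', if_pos hd2', add_sub_cancel_right]
              exact hQ
            · by_cases hzy : z = y
              · right; rw [hzy]; omega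
              · rw [hrz z hz hzy] at hrz'
                exact h z hz hrz')
      refine hstep.trans (mul_le_mul_of_nonneg_right ?_ hZ.le)
      have hrow : ∀ (r : ZMod N) (a : X × Fin N),
          rs src tgt M (fun _ => gv φ r * θ ^ m + (2 * w) ^ k) a ≤
            (gv φ r * θ ^ m + (2 * w) ^ k) * (2 * w) := by
        intro r a
        have e1 := rs_lin (src := src) (tgt := tgt) M (fun _ => (0 : ℝ)) (fun _ => 1) 0
          (gv φ r * θ ^ m + (2 * w) ^ k) a
        simp only [zero_mul, zero_add, mul_one] at e1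
        rw [e1]
        exact mul_le_mul_of_nonneg_left (htot a) (hga r)
      have r1 := hrow (res n x - 1) (x, i)
      have r2 := hrow (res n x + 1) (x, j)
      have r3 := mul_le_mul_of_nonneg_right (hs _ hr) (mul_nonneg hw hθm)
      have r4 := mul_le_mul_of_nonneg_right h1 hθm
      have hgr : gv φ (res n x) = φ := by unfold gv; rw [if_neg hr]
      rw [hεs, hgr]
      nlinarith

/-- the decay of a charged expectation, in the limit -/
theorem charge_lim {D : X → ℕ} {M : I → ℝ} {w β s φ θ : ℝ} (hM : ∀ e, 0 ≤ M e)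
    (hst : ∀ e, (src e).1 ≠ (tgt e).1)
    (hD : ∀ e, D (src e).1 ≤ D (tgt e).1 + 1 ∧ D (tgt e).1 ≤ D (src e).1 + 1)
    (htot : ∀ a, rs src tgt M (fun _ => 1) a ≤ 2 * w)
    (htow : ∀ a, rs src tgt M (fun y => if D y < D a.1 then 1 else 0) a ≤ β)
    (hw : 0 ≤ w) (hw1 : 2 * w < 1) (hβ : 0 ≤ β) (hβw : β ≤ 2 * w) (hθ0 : 0 ≤ θ) (hθφ : θ ≤ φ)
    (hφ1 : φ ≤ 1) (hs : ∀ r : ZMod N, r ≠ 0 → gv φ (r - 1) + gv φ (r + 1) ≤ s)
    (h1 : w * s ≤ φ) (h2 : β / 2 * s + (2 * w - β) * θ ≤ θ) (hN : 2 ≤ N)
    {c : I → ℂ} (hc : ∀ e, ‖c e‖ ≤ M e) {x y : X} (hy : D y = 0) (p q : Fin N) :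
    ‖Tc W src tgt c (dn (up 0 (x, p)) (y, q))‖ ≤ θ ^ D x * Zc W src tgt c := by
  have hone : (1 : ZMod N) ≠ 0 := by
    have : Fact (1 < N) := ⟨by omega⟩
    exact one_ne_zero
  have hres0 : ∀ z, res (0 : X × Fin N → ℤ) z = 0 := by
    intro z; unfold res; simp
  have hQ0 : Qc D (0 : X × Fin N → ℤ) = 0 := by
    unfold Qc
    simp [hres0]
  have key : ∀ k : ℕ, ‖Tc W src tgt c (dn (up 0 (x, p)) (y, q))‖ ≤
      (θ ^ D x + (2 * w) ^ k) * Zc W src tgt c := by
    intro k
    refine (charge W hM hst hD htot htow hw hβ hβw hθ0 hθφ hφ1 hs h1 h2 k c hc _ (D x)).1 ?_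
    by_cases hx : D x = 0
    · exact Or.inl hx
    · refine Or.inr ⟨?_, fun z hz => ?_⟩
      · have hx' : 1 ≤ D (x, p).1 := Nat.pos_of_ne_zero hx
        have hy' : ¬1 ≤ D (y, q).1 := by
          show ¬1 ≤ D y
          omega
        rw [Qc_dn, Qc_up, hQ0, if_pos hx', if_neg hy']
        simpa using hone
      · by_cases hzy : z = y
        · left; rw [hzy]; exact hy
        · by_cases hzx : z = x
          · right; rw [hzx]
          · rw [res_dn, res_up, hres0, if_neg hzx, if_neg hzy] at hz
            exact absurd (by ring) hz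
  have h6 : Tendsto (fun k : ℕ => (θ ^ D x + (2 * w) ^ k) * Zc W src tgt c) atTop
      (𝓝 ((θ ^ D x + 0) * Zc W src tgt c)) :=
    (tendsto_const_nhds.add
      (tendsto_pow_atTop_nhds_zero_of_lt_one (by linarith) hw1)).mul_const _
  rw [add_zero] at h6
  exact ge_of_tendsto' h6 key

end

end Pool.Agent.T2h21.YM
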