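import Mathlib
import Pool.Agent.T2h21.YM.Blk

/-!
# The operator of a slab
-/

open MeasureTheory Matrix
open scoped Matrix.Norms.Frobenius ContDiff RealInnerProductSpace
open Pool.Agent.H906R3.YM hiding Pl
open Pool.Agent.W793.YM Pool.Agent.TH618.YM Pool.Agent.TH190.YV

namespace Pool.Agent.T2h21.YM

set_option linter.unusedSectionVars false
set_option linter.unusedVariables false

noncomputable section

variable {K : Type*} [Group K] [TopologicalSpace K] [IsTopologicalGroup K] [CompactSpace K]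
  [SecondCountableTopology K] [MeasurableSpace K] [BorelSpace K] (κ : Measure K)
  [IsProbabilityMeasure κ] [κ.IsMulLeftInvariant]
  {V : Type*} [NormedAddCommGroup V] [InnerProductSpace ℝ V] [FiniteDimensional ℝ V]
  [CompleteSpace V] {m : ℕ}
  {d l : ℕ} [NeZero l] {G : Type*} [Group G] [TopologicalSpace G] [IsTopologicalGroup G]
  [CompactSpace G] [SecondCountableTopology G] [MeasurableSpace G] [BorelSpace G]
  {N n : ℕ} {L : LD G N n} {S : Spin K V m} {P : Type*} [Fintype P] [DecidableEq P] {b : ℕ}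
  (W : Blk L S P b) {j : Fin d} {t : ZMod l}

variable (L) in
/-- the exponent of a slab, with the couplings `J` -/
def HS (j : Fin d) (t : ZMod l) (J : Ed d l → ℝ) (U : Ed d l → G) : ℝ :=
  ∑ e : Ih j t, J e.1 * rt L (plqT U e.1.1 j e.1.2)

lemma HS_cont (J : Ed d l → ℝ) : Continuous (HS L j t J) := by
  unfold HS
  exact continuous_finsetSum _ fun e _ => continuous_const.mul (rt_cont.comp (plqT_cont _ _ _))

/-- multiplication of the vertical links of a slab by elements of the block subgroup -/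
def mk (j : Fin d) (t : ZMod l) (k : St d l × P → K) (U : Ed d l → G) : Ed d l → G :=
  fun e => if vt j t e then W.emb (fun p => k (e.1, p)) * U e else U e

lemma mk_v (k : St d l × P → K) (U : Ed d l → G) {x : St d l} (h : x j = t) :
    mk W j t k U (x, j) = W.emb (fun p => k (x, p)) * U (x, j) := by
  unfold mk
  rw [if_pos ⟨rfl, h⟩]

lemma mk_h (k : St d l × P → K) (U : Ed d l → G) {x : St d l} {i : Fin d} (h : i ≠ j) :
    mk W j t k U (x, i) = U (x, i) := by
  unfold mk
  rw [if_neg (fun h' => h h'.1)]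

lemma mk_cont : Continuous fun z : (St d l × P → K) × (Ed d l → G) => mk W j t z.1 z.2 := by
  refine continuous_pi fun e => ?_
  unfold mk
  split_ifs
  · refine Continuous.mul (W.emb_cont.comp ?_) ((continuous_apply e).comp continuous_snd)
    exact continuous_pi fun p => (continuous_apply (e.1, p)).comp continuous_fst
  · exact (continuous_apply e).comp continuous_snd

/-- the matrix of the block subgroup at a site -/
def Vm (k : St d l × P → K) (x : St d l) : Mat N := ∑ p, W.E p (S.io (k (x, p)))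

lemma rho_mk (k : St d l × P → K) (U : Ed d l → G) {x : St d l} (h : x j = t) :
    L.rho (mk W j t k U (x, j)) = Vm W k x * L.rho (U (x, j)) := by
  rw [mk_v W k U h, map_mul, W.rho_emb]
  rfl

variable (L) in
/-- the first matrix of a plaquette -/
def Am (j : Fin d) (U : Ed d l → G) (e : Ed d l) : Mat N :=
  L.rho (U (e.1, j) * U (e.1 + eT j, e.2) * (U (e.1 + eT e.2, j))⁻¹)

variable (L) in
/-- the second matrix of a plaquette -/
def Bm (U : Ed d l → G) (e : Ed d l) : Mat N := L.rho (U e)⁻¹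

lemma rt_mk (k : St d l × P → K) (U : Ed d l → G) (e : Ih j t) :
    rt L (plqT (mk W j t k U) e.1.1 j e.1.2) =
      ∑ p, ∑ q, (trace (W.E p (S.io (k (e.1.1, p))) * Am L j U e.1 *
        (W.E q (S.io (k (e.1.1 + eT e.1.2, q))))ᴴ * Bm L U e.1)).re := by
  obtain ⟨⟨x, i⟩, hi, hx⟩ := e
  simp only at hi hx
  have hy : (x + eT i : St d l) j = t := by rw [add_ne x hi, hx]
  unfold plqT Am Bm rt
  simp only
  rw [mk_v W k U hx, mk_v W k U hy, mk_h W k U hi, mk_h W k U hi]
  have h1 : W.emb (fun p => k (x, p)) * U (x, j) * U (x + eT j, i) *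
      (W.emb (fun p => k (x + eT i, p)) * U (x + eT i, j))⁻¹ * (U (x, i))⁻¹ =
      W.emb (fun p => k (x, p)) * (U (x, j) * U (x + eT j, i) * (U (x + eT i, j))⁻¹) *
        (W.emb (fun p => k (x + eT i, p)))⁻¹ * (U (x, i))⁻¹ := by group
  rw [h1, map_mul, map_mul, map_mul, L.rho_inv (W.emb _), W.rho_emb, W.rho_emb,
    conjTranspose_sum, Finset.sum_mul, Finset.sum_mul, Finset.sum_mul, trace_sum, Complex.re_sum]
  refine Finset.sum_congr rfl fun p _ => ?_
  rw [Finset.mul_sum, Finset.sum_mul, trace_sum, Complex.re_sum]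

/-- the bonds of a slab -/
abbrev Bd (P : Type*) (j : Fin d) (t : ZMod l) : Type _ := Ih j t × P × P

/-- the first end of a bond -/
def bs (e : Bd P j t) : St d l × P := (e.1.1.1, e.2.1)

/-- the second end of a bond -/
def bt (e : Bd P j t) : St d l × P := (e.1.1.1 + eT e.1.1.2, e.2.2)

/-- the operators of the bonds -/
def BQ (J : Ed d l → ℝ) (U : Ed d l → G) (e : Bd P j t) : V →L[ℝ] V :=
  J e.1.1 • Kop W e.2.1 e.2.2 (Am L j U e.1.1) (Bm L U e.1.1)

/-- the bounds of the operators -/
def BM (J : Ed d l → ℝ) (U : Ed d l → G) (e : Bd P j t) : ℝ :=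
  |J e.1.1| * (‖W.Q e.2.1 * Am L j U e.1.1 * W.Q e.2.2‖ *
    ‖W.Q e.2.2 * Bm L U e.1.1 * W.Q e.2.1‖)

lemma BQ_norm (J : Ed d l → ℝ) (U : Ed d l → G) (e : Bd P j t) :
    ‖BQ W J U e‖ ≤ BM W J U e := by
  unfold BQ BM
  rw [norm_smul, Real.norm_eq_abs]
  exact mul_le_mul_of_nonneg_left (Kop_norm W _ _ _ _) (abs_nonneg _)

lemma HS_mk (J : Ed d l → ℝ) (k : St d l × P → K) (U : Ed d l → G) :
    HS L j t J (mk W j t k U) = En S (bs (P := P) (j := j) (t := t)) bt (BQ W J U) k := by
  unfold HS En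
  rw [Fintype.sum_prod_type]
  refine Finset.sum_congr rfl fun e _ => ?_
  rw [rt_mk, Finset.mul_sum, Fintype.sum_prod_type]
  refine Finset.sum_congr rfl fun p _ => ?_
  rw [Finset.mul_sum]
  refine Finset.sum_congr rfl fun q _ => ?_
  unfold BQ bs bt
  simp only
  rw [_root_.smul_apply, inner_smul_right, Kop_apply]

lemma norm_one_block (p : P) {A : Mat N} (hA : A * Aᴴ = 1) : ‖W.Q p * A‖ ^ 2 ≤ b := by
  rw [norm_sq_ip, ip_apply, conjTranspose_mul, W.Qh, trace_mul_comm]
  have : W.Q p * A * (Aᴴ * W.Q p) = W.Q p * (A * Aᴴ) * W.Q p := by noncomm_ring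
  rw [this, hA, mul_one, W.Qm]
  exact W.Qt p

lemma norm_one_block' (p : P) {A : Mat N} (hA : Aᴴ * A = 1) : ‖A * W.Q p‖ ^ 2 ≤ b := by
  rw [norm_sq_ip, ip_apply, conjTranspose_mul, W.Qh]
  have : W.Q p * Aᴴ * (A * W.Q p) = W.Q p * (Aᴴ * A) * W.Q p := by noncomm_ring
  rw [this, hA, mul_one, W.Qm]
  exact W.Qt p

lemma rho_unit' (g : G) : (L.rho g)ᴴ * L.rho g = 1 := LD.unit' g

/-- the sum over the second block -/
lemma sum_q (U : Ed d l → G) (e : Ed d l) (p : P) :
    ∑ q, ‖W.Q p * Am L j U e * W.Q q‖ * ‖W.Q q * Bm L U e * W.Q p‖ ≤ b := by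
  have h1 : ∑ q, ‖W.Q p * Am L j U e * W.Q q‖ ^ 2 ≤ (Real.sqrt b) ^ 2 := by
    rw [sum_Q' W (W.Q p * Am L j U e), Real.sq_sqrt (Nat.cast_nonneg _)]
    exact norm_one_block W p (L.unit _)
  have h2 : ∑ q, ‖W.Q q * Bm L U e * W.Q p‖ ^ 2 ≤ (Real.sqrt b) ^ 2 := by
    have e1 : ∀ q, W.Q q * Bm L U e * W.Q p = W.Q q * (Bm L U e * W.Q p) := fun q => by
      rw [Matrix.mul_assoc]
    simp only [e1]
    rw [sum_Q W (Bm L U e * W.Q p), Real.sq_sqrt (Nat.cast_nonneg _)]
    exact norm_one_block' W p (rho_unit' _)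
  refine (cs_sum _ _ (Real.sqrt_nonneg _) (Real.sqrt_nonneg _) h1 h2).trans (le_of_eq ?_)
  rw [← sq, Real.sq_sqrt (Nat.cast_nonneg _)]

/-- the sum over the first block -/
lemma sum_p (U : Ed d l → G) (e : Ed d l) (q : P) :
    ∑ p, ‖W.Q p * Am L j U e * W.Q q‖ * ‖W.Q q * Bm L U e * W.Q p‖ ≤ b := by
  have h1 : ∑ p, ‖W.Q p * Am L j U e * W.Q q‖ ^ 2 ≤ (Real.sqrt b) ^ 2 := by
    have e1 : ∀ p, W.Q p * Am L j U e * W.Q q = W.Q p * (Am L j U e * W.Q q) := fun p => by
      rw [Matrix.mul_assoc]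
    simp only [e1]
    rw [sum_Q W (Am L j U e * W.Q q), Real.sq_sqrt (Nat.cast_nonneg _)]
    exact norm_one_block' W q (rho_unit' _)
  have h2 : ∑ p, ‖W.Q q * Bm L U e * W.Q p‖ ^ 2 ≤ (Real.sqrt b) ^ 2 := by
    rw [sum_Q' W (W.Q q * Bm L U e), Real.sq_sqrt (Nat.cast_nonneg _)]
    exact norm_one_block W q (L.unit _)
  refine (cs_sum _ _ (Real.sqrt_nonneg _) (Real.sqrt_nonneg _) h1 h2).trans (le_of_eq ?_)
  rw [← sq, Real.sq_sqrt (Nat.cast_nonneg _)]

/-- sums over the spatial links of a slice -/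
lemma sum_Ih (F : Ed d l → ℝ) : ∑ e : Ih j t, F e.1 =
    ∑ x : St d l, ∑ i, if i ≠ j ∧ x j = t then F (x, i) else 0 := by
  have h1 : ∑ e ∈ (Finset.univ.filter fun e : Ed d l => e.2 ≠ j ∧ e.1 j = t), F e =
      ∑ e : Ih j t, F e.1 := Finset.sum_subtype _ (fun e => by simp) _
  rw [← h1, Finset.sum_filter, Fintype.sum_prod_type]

/-- the sum over the neighbours of a site -/
lemma sum_nbr {β : ℝ} {f : St d l → ℝ} (z : St d l) :
    ∑ e : Ih j t, ((if e.1.1 = z then β * f (e.1.1 + eT e.1.2) else 0) +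
      (if e.1.1 + eT e.1.2 = z then β * f e.1.1 else 0)) =
      if z j = t then β * ∑ i, (if i ≠ j then f (z + eT i) + f (z - eT i) else 0) else 0 := by
  rw [sum_Ih (fun e => (if e.1 = z then β * f (e.1 + eT e.2) else 0) +
      (if e.1 + eT e.2 = z then β * f e.1 else 0)), Finset.sum_comm]
  have h1 : ∀ i : Fin d, ∑ x : St d l, (if i ≠ j ∧ x j = t then
      ((if x = z then β * f (x + eT i) else 0) + (if x + eT i = z then β * f x else 0)) else 0) =
      if z j = t then β * (if i ≠ j then f (z + eT i) + f (z - eT i) else 0) else 0 := by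
    intro i
    by_cases hi : i ≠ j
    · simp only [hi, ne_eq, not_false_eq_true, true_and, if_true]
      have e1 : ∀ x : St d l, (if x j = t then ((if x = z then β * f (x + eT i) else 0) +
          (if x + eT i = z then β * f x else 0)) else 0) =
          (if x = z then (if z j = t then β * f (z + eT i) else 0) else 0) +
          (if x = z - eT i then (if z j = t then β * f (z - eT i) else 0) else 0) := by
        intro x
        have e2 : (x + eT i = z) ↔ (x = z - eT i) := by
          constructor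
          · intro h; rw [← h]; abel
          · intro h; rw [h]; abel
        have e3 : (z - eT i : St d l) j = z j := by simp [eT, hi.symm]
        by_cases h1 : x = z
        · subst h1
          by_cases h2 : x = x - eT i
          · rw [if_pos (e2.2 h2)]
            simp only [if_true]
            rw [← h2]
            simp only [if_true]
            split_ifs
            · rfl
            · simp
          · rw [if_neg (fun h => h2 (e2.1 h)), if_neg h2]
            simp
        · by_cases h2 : x = z - eT i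
          · subst h2
            rw [if_neg h1, if_neg h1, if_pos (e2.2 rfl), if_pos rfl, e3, zero_add, zero_add]
          · rw [if_neg h1, if_neg h1, if_neg h2, if_neg (fun h => h2 (e2.1 h))]
            simp
      rw [Finset.sum_congr rfl fun x _ => e1 x, Finset.sum_add_distrib, Finset.sum_ite_eq',
        Finset.sum_ite_eq', if_pos (Finset.mem_univ _), if_pos (Finset.mem_univ _)]
      split_ifs
      · ring
      · simp
    · simp [hi]
  rw [Finset.sum_congr rfl fun i _ => h1 i]
  split_ifs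
  · rw [Finset.mul_sum]
  · simp

end

end Pool.Agent.T2h21.YM
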