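import Mathlib
import Pool.Agent.T2h21.YM.SlabW

/-!
# The norm of the operator of a slab
-/

open MeasureTheory Matrix
open scoped Matrix.Norms.Frobenius ContDiff RealInnerProductSpace
open Pool.Agent.H906R3.YM hiding Pl
open Pool.Agent.W793.YM Pool.Agent.TH618.YM Pool.Agent.TH190.YV

namespace Pool.Agent.T2h21.YM

set_option linter.unusedSectionVars false
set_option linter.unusedVariables false

noncomputable section

variable {K : Type*} [Group K] [TopologicalSpace K] [IsTopologicalGroup K] [CompactSpace K]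
  [SecondCountableTopology K] [MeasurableSpace K] [BorelSpace K] (κ : Measure K)
  [IsProbabilityMeasure κ] [κ.IsMulLeftInvariant]
  {V : Type*} [NormedAddCommGroup V] [InnerProductSpace ℝ V] [FiniteDimensional ℝ V]
  [CompleteSpace V] {m : ℕ}
  {d l : ℕ} [NeZero l] {G : Type*} [Group G] [TopologicalSpace G] [IsTopologicalGroup G]
  [CompactSpace G] [SecondCountableTopology G] [MeasurableSpace G] [BorelSpace G]
  {N n : ℕ} {L : LD G N n} {S : Spin K V m} {P : Type*} [Fintype P] [DecidableEq P] {b : ℕ}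
  (W : Blk L S P b) {j : Fin d} {t : ZMod l}

lemma row_sum {J : Ed d l → ℝ} {β : ℝ} (hJ : ∀ e : Ih j t, |J e.1| ≤ β) (U : Ed d l → G)
    {f : St d l → ℝ} (hf : ∀ z, 0 ≤ f z) (a : St d l × P) :
    ∑ e : Bd P j t, ((if bs e = a then BM W J U e * f (bt e).1 else 0) +
      (if bt e = a then BM W J U e * f (bs e).1 else 0)) ≤
      if a.1 j = t then (β * b) * ∑ i, (if i ≠ j then f (a.1 + eT i) + f (a.1 - eT i) else 0)
        else 0 := by
  obtain ⟨z, p0⟩ := a
  rw [← sum_nbr (j := j) (t := t) (β := β * b) (f := f) z, Fintype.sum_prod_type]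
  refine Finset.sum_le_sum fun e _ => ?_
  have hβ0 : 0 ≤ β := (abs_nonneg _).trans (hJ e)
  rw [Fintype.sum_prod_type]
  simp only [Finset.sum_add_distrib]
  have key : ∀ {c w : ℝ} , c ≤ b → 0 ≤ w → |J e.1| * c * w ≤ β * b * w := by
    intro c w hc hw
    refine mul_le_mul_of_nonneg_right ?_ hw
    exact (mul_le_mul_of_nonneg_left hc (abs_nonneg _)).trans
      (mul_le_mul_of_nonneg_right (hJ e) (Nat.cast_nonneg _))
  refine add_le_add ?_ ?_
  · by_cases hx : e.1.1 = z
    · rw [if_pos hx]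
      have e1 : ∑ p, ∑ q, (if bs (e, p, q) = (z, p0) then BM W J U (e, p, q) *
          f (bt (e, p, q)).1 else 0) =
          |J e.1| * (∑ q, ‖W.Q p0 * Am L j U e.1 * W.Q q‖ * ‖W.Q q * Bm L U e.1 * W.Q p0‖) *
            f (e.1.1 + eT e.1.2) := by
        rw [Finset.sum_eq_single p0]
        · rw [Finset.mul_sum, Finset.sum_mul]
          refine Finset.sum_congr rfl fun q _ => ?_
          rw [if_pos (by unfold bs; simp only; rw [hx])]
          rfl
        · intro p _ hp
          refine Finset.sum_eq_zero fun q _ => ?_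
          rw [if_neg]
          unfold bs
          simp only [Prod.mk.injEq, not_and]
          exact fun _ => hp
        · intro h; exact absurd (Finset.mem_univ _) h
      rw [e1]
      exact key (sum_q W U e.1 p0) (hf _)
    · rw [if_neg hx]
      refine le_of_eq (Finset.sum_eq_zero fun p _ => Finset.sum_eq_zero fun q _ => ?_)
      rw [if_neg]
      unfold bs
      simp only [Prod.mk.injEq, not_and]
      exact fun h => absurd h hx
  · by_cases hx : e.1.1 + eT e.1.2 = z
    · rw [if_pos hx]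
      have e1 : ∑ p, ∑ q, (if bt (e, p, q) = (z, p0) then BM W J U (e, p, q) *
          f (bs (e, p, q)).1 else 0) =
          |J e.1| * (∑ p, ‖W.Q p * Am L j U e.1 * W.Q p0‖ * ‖W.Q p0 * Bm L U e.1 * W.Q p‖) *
            f e.1.1 := by
        rw [Finset.mul_sum, Finset.sum_mul]
        refine Finset.sum_congr rfl fun p _ => ?_
        rw [Finset.sum_eq_single p0]
        · rw [if_pos (by unfold bt; simp only; rw [hx])]
          rfl
        · intro q _ hq
          rw [if_neg]
          unfold bt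
          simp only [Prod.mk.injEq, not_and]
          exact fun _ => hq
        · intro h; exact absurd (Finset.mem_univ _) h
      rw [e1]
      exact key (sum_p W U e.1 p0) (hf _)
    · rw [if_neg hx]
      refine le_of_eq (Finset.sum_eq_zero fun p _ => Finset.sum_eq_zero fun q _ => ?_)
      rw [if_neg]
      unfold bt
      simp only [Prod.mk.injEq, not_and]
      exact fun h => absurd h hx

lemma eT_ne {l : ℕ} [NeZero l] (hl : 2 ≤ l) (x : St d l) (i : Fin d) : x ≠ x + eT i := by
  intro h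
  have h1 : (eT i : St d l) = 0 := by
    have := congrArg (fun z => z - x) h
    simp only [sub_self, add_sub_cancel_left] at this
    exact this.symm
  have h2 := congrFun h1 i
  unfold eT at h2
  rw [Pi.single_eq_same, Pi.zero_apply] at h2
  have : Fact (1 < l) := ⟨by omega⟩
  exact one_ne_zero h2

/-- the two-point function of the blocks -/
lemma block_two (hm : 1 ≤ m) (hl : 2 ≤ l) {J : Ed d l → ℝ} {β β₁ θ : ℝ}
    (hb : 2 * b * β ≤ (m + 1) * β₁)
    (hβ : 0 ≤ β) (hJ : ∀ e : Ih j t, |J e.1| ≤ β)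
    (hθ : (∑ i : Fin d, if i ≠ j then β₁ else 0) ≤ θ)
    (hθ1 : θ < 1) {f : St d l → ℝ} (hf : ∀ z, 0 ≤ f z) {y : St d l} (hfy : 1 ≤ f y)
    (hsup : ∀ z : St d l, z j = t →
      β₁ * ∑ i, (if i ≠ j then f (z + eT i) + f (z - eT i) else 0) ≤ 2 * f z)
    (U : Ed d l → G) (x : St d l) (p q : P) (C : V →L[ℝ] V) :
    |TT κ S (bs (P := P) (j := j) (t := t)) bt (BQ W J U) (x, p) (y, q) C| ≤
      ‖C‖ * f x * ZZ κ S (bs (P := P) (j := j) (t := t)) bt (BQ W J U) := by
  have hb0 : (0 : ℝ) ≤ b := Nat.cast_nonneg _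
  have hβ₁ : 0 ≤ β₁ := by
    have h1 : 0 ≤ ((m : ℝ) + 1) * β₁ := le_trans (by positivity) hb
    exact nonneg_of_mul_nonneg_right h1 (by positivity)
  have hθ0 : 0 ≤ θ := by
    refine le_trans (Finset.sum_nonneg fun i _ => ?_) hθ
    split_ifs
    · exact hβ₁
    · exact le_rfl
  have hbS : ∀ S : ℝ, 0 ≤ S → β * b * S ≤ (m + 1) / 2 * (β₁ * S) := by
    intro S hS
    have := mul_le_mul_of_nonneg_right hb hS
    linarith
  refine walk κ S hm (src := bs) (tgt := bt) (M := BM W J U) (g := fun a => f a.1) (θ := θ)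
    (fun e h => ?_) (fun e => ?_) (fun a => hf _) hfy hθ0 hθ1 (fun a => ?_) (fun a ha => ?_)
    (fun e => BQ_norm W J U e) (x, p) C
  · exact eT_ne hl e.1.1.1 e.1.1.2 (congrArg Prod.fst h)
  · unfold BM; positivity
  · have h1 := row_sum W hJ U (f := fun _ => (1 : ℝ)) (fun _ => zero_le_one) a
    simp only [mul_one] at h1
    refine h1.trans ?_
    split_ifs
    · have h2 : ∑ i : Fin d, (if i ≠ j then (1 : ℝ) + 1 else 0) =
          2 * ∑ i : Fin d, (if i ≠ j then (1 : ℝ) else 0) := by
        rw [Finset.mul_sum]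
        refine Finset.sum_congr rfl fun i _ => ?_
        split_ifs <;> norm_num
      have h3 : (∑ i : Fin d, if i ≠ j then β₁ else 0) =
          β₁ * ∑ i : Fin d, (if i ≠ j then (1 : ℝ) else 0) := by
        rw [Finset.mul_sum]
        refine Finset.sum_congr rfl fun i _ => ?_
        split_ifs <;> simp
      have hS : 0 ≤ ∑ i : Fin d, (if i ≠ j then (1 : ℝ) else 0) :=
        Finset.sum_nonneg fun i _ => by split_ifs <;> norm_num
      rw [h2]
      rw [h3] at hθ
      calc β * b * (2 * ∑ i : Fin d, (if i ≠ j then (1 : ℝ) else 0))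
          ≤ (m + 1) / 2 * (β₁ * (2 * ∑ i : Fin d, (if i ≠ j then (1 : ℝ) else 0))) :=
            hbS _ (by positivity)
        _ = (m + 1) * (β₁ * ∑ i : Fin d, (if i ≠ j then (1 : ℝ) else 0)) := by ring
        _ ≤ (m + 1) * θ := mul_le_mul_of_nonneg_left hθ (by positivity)
    · positivity
  · refine (row_sum W hJ U hf a).trans ?_
    split_ifs with h
    · have hS : 0 ≤ ∑ i, (if i ≠ j then f (a.1 + eT i) + f (a.1 - eT i) else 0) :=
        Finset.sum_nonneg fun i _ => by
          split_ifs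
          · exact add_nonneg (hf _) (hf _)
          · exact le_rfl
      refine (hbS _ hS).trans ?_
      have h1 := mul_le_mul_of_nonneg_left (hsup a.1 h) (by positivity : (0 : ℝ) ≤ (m + 1) / 2)
      refine h1.trans (le_of_eq ?_)
      ring
    · have := hf a.1
      positivity

lemma Vm_cont (x : St d l) : Continuous fun k : St d l × P → K => Vm W k x := by
  unfold Vm
  refine continuous_finsetSum _ fun p _ => ?_
  have h1 : Continuous fun v : V => W.E p v := LinearMap.continuous_of_finiteDimensional (W.E p)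
  exact h1.comp (S.cont.comp (continuous_apply _))

/-- **The norm of the operator of a slab.** -/
theorem slab_k (hm : 1 ≤ m) (hl : 2 ≤ l) {J : Ed d l → ℝ} {β β₁ θ : ℝ}
    (hb : 2 * b * β ≤ (m + 1) * β₁)
    (hβ : 0 ≤ β) (hJ : ∀ e : Ih j t, |J e.1| ≤ β)
    (hθ : (∑ i : Fin d, if i ≠ j then β₁ else 0) ≤ θ)
    (hθ1 : θ < 1) {f : St d l → ℝ} (hf : ∀ z, 0 ≤ f z) {x y : St d l} (hfy : 1 ≤ f y)
    (hsup : ∀ z : St d l, z j = t →
      β₁ * ∑ i, (if i ≠ j then f (z + eT i) + f (z - eT i) else 0) ≤ 2 * f z)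
    (hx : x j = t) (hy : y j = t) (U : Ed d l → G) :
    ‖∫ k : St d l × P → K, Real.exp (HS L j t J (mk W j t k U)) •
      cj (L.rho (mk W j t k U (x, j))) (L.rho (mk W j t k U (y, j))) ∂(MP κ (St d l × P))‖ ≤
      f x * ∫ k : St d l × P → K, Real.exp (HS L j t J (mk W j t k U)) ∂(MP κ (St d l × P)) := by
  have hmk : Continuous fun k : St d l × P → K => mk W j t k U :=
    (mk_cont W).comp (Continuous.prodMk continuous_id continuous_const)
  have hE : Continuous fun k : St d l × P → K => Real.exp (HS L j t J (mk W j t k U)) :=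
    Real.continuous_exp.comp ((HS_cont J).comp hmk)
  have hZ : ∫ k : St d l × P → K, Real.exp (HS L j t J (mk W j t k U)) ∂(MP κ (St d l × P)) =
      ZZ κ S (bs (P := P) (j := j) (t := t)) bt (BQ W J U) := by
    unfold ZZ
    simp only [HS_mk]
  have hZ0 := ZZ_pos κ (src := bs (P := P) (j := j) (t := t)) (tgt := bt) S (BQ W J U)
  rw [hZ]
  refine ContinuousLinearMap.opNorm_le_bound _ (mul_nonneg (hf x) hZ0.le) fun M => ?_
  obtain ⟨Y, hY⟩ : ∃ Y : Mat N, Y = L.rho (U (x, j)) * ofF M * (L.rho (U (y, j)))ᴴ := ⟨_, rfl⟩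
  have hYn : ‖Y‖ = ‖M‖ := by
    rw [hY, norm_ctmul, norm_lmul, norm_ofF]
  have hcj : Continuous fun k : St d l × P → K =>
      Real.exp (HS L j t J (mk W j t k U)) •
        cj (L.rho (mk W j t k U (x, j))) (L.rho (mk W j t k U (y, j))) :=
    hE.smul (cj_cont (L.cont.comp (continuous_pi_iff.1 hmk _))
      (L.cont.comp (continuous_pi_iff.1 hmk _)))
  rw [ContinuousLinearMap.integral_apply (int_cont _ hcj) M]
  have hFc : Continuous fun k : St d l × P → K =>
      Real.exp (HS L j t J (mk W j t k U)) • (Vm W k x * Y * (Vm W k y)ᴴ) :=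
    hE.smul (((Vm_cont W x).mul continuous_const).mul (Vm_cont W y).matrix_conjTranspose)
  have h1 : ∫ k : St d l × P → K, (Real.exp (HS L j t J (mk W j t k U)) •
      cj (L.rho (mk W j t k U (x, j))) (L.rho (mk W j t k U (y, j)))) M ∂(MP κ (St d l × P)) =
      ∫ k : St d l × P → K, toF (Real.exp (HS L j t J (mk W j t k U)) •
        (Vm W k x * Y * (Vm W k y)ᴴ)) ∂(MP κ (St d l × P)) := by
    refine integral_congr_ae (Filter.Eventually.of_forall fun k => ?_)
    show toF (Real.exp _ • (L.rho _ * ofF M * (L.rho _)ᴴ)) = _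
    rw [rho_mk W k U hx, rho_mk W k U hy, conjTranspose_mul, hY]
    congr 2
    noncomm_ring
  rw [h1]
  obtain ⟨R, hR⟩ : ∃ R : Mat N, R = ofF (∫ k : St d l × P → K,
      toF (Real.exp (HS L j t J (mk W j t k U)) •
        (Vm W k x * Y * (Vm W k y)ᴴ)) ∂(MP κ (St d l × P))) := ⟨_, rfl⟩
  rw [← norm_ofF, ← hR]
  rw [integral_FM hFc] at hR
  have h2 : ‖R‖ ^ 2 = ∑ p, ∑ q, TT κ S (bs (P := P) (j := j) (t := t)) bt (BQ W J U)
      (x, p) (y, q) (Kop W p q Y Rᴴ) := by
    rw [norm_sq_ip]
    have hRR := congrArg (ip R) hR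
    rw [ip_mint R hFc] at hRR
    rw [hRR]
    have h3 : ∀ k : St d l × P → K, ip R (Real.exp (HS L j t J (mk W j t k U)) •
        (Vm W k x * Y * (Vm W k y)ᴴ)) = ∑ p, ∑ q,
        ⟪S.io (k (x, p)), Kop W p q Y Rᴴ (S.io (k (y, q)))⟫ *
          Real.exp (En S (bs (P := P) (j := j) (t := t)) bt (BQ W J U) k) := by
      intro k
      rw [map_smul, smul_eq_mul, HS_mk, mul_comm]
      simp only [← Finset.sum_mul]
      congr 1
      simp only [Kop_apply]
      rw [ip_apply]
      unfold Vm
      rw [conjTranspose_sum, Finset.sum_mul, Finset.sum_mul, Finset.mul_sum, trace_sum,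
        Complex.re_sum]
      refine Finset.sum_congr rfl fun p _ => ?_
      rw [Finset.mul_sum, Finset.mul_sum, trace_sum, Complex.re_sum]
      refine Finset.sum_congr rfl fun q _ => ?_
      rw [trace_mul_comm]
    simp only [h3]
    have hc := S.cont
    have hEc := En_cont (src := bs (P := P) (j := j) (t := t)) (tgt := bt) S (BQ W J U)
    have hc2 : ∀ p q, Continuous fun k : St d l × P → K =>
        ⟪S.io (k (x, p)), Kop W p q Y Rᴴ (S.io (k (y, q)))⟫ *
          Real.exp (En S (bs (P := P) (j := j) (t := t)) bt (BQ W J U) k) := by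
      intro p q
      fun_prop
    rw [integral_finsetSum _ (fun p _ => int_cont _ (continuous_finsetSum _ fun q _ => hc2 p q))]
    refine Finset.sum_congr rfl fun p _ => ?_
    rw [integral_finsetSum _ (fun q _ => int_cont _ (hc2 p q))]
    rfl
  have h4 : ‖R‖ ^ 2 ≤ f x * ZZ κ S (bs (P := P) (j := j) (t := t)) bt (BQ W J U) *
      (‖Y‖ * ‖R‖) := by
    rw [h2]
    have h5 : ∀ p q, TT κ S (bs (P := P) (j := j) (t := t)) bt (BQ W J U)
        (x, p) (y, q) (Kop W p q Y Rᴴ) ≤
        f x * ZZ κ S (bs (P := P) (j := j) (t := t)) bt (BQ W J U) *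
          (‖W.Q p * Y * W.Q q‖ * ‖W.Q q * Rᴴ * W.Q p‖) := by
      intro p q
      refine (le_abs_self _).trans ((block_two κ W hm hl hb hβ hJ hθ hθ1 hf hfy hsup U x p q _).trans
        ?_)
      have := mul_le_mul_of_nonneg_right (Kop_norm W p q Y Rᴴ)
        (mul_nonneg (hf x) hZ0.le)
      calc _ = ‖Kop W p q Y Rᴴ‖ * (f x * ZZ κ S (bs (P := P) (j := j) (t := t)) bt (BQ W J U)) := by
            ring
        _ ≤ _ := this
        _ = _ := by ring
    refine (Finset.sum_le_sum fun p _ => Finset.sum_le_sum fun q _ => h5 p q).trans ?_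
    simp only [← Finset.mul_sum]
    refine mul_le_mul_of_nonneg_left ?_ (mul_nonneg (hf x) hZ0.le)
    have h6 := cs_sum (fun z : P × P => ‖W.Q z.1 * Y * W.Q z.2‖)
      (fun z : P × P => ‖W.Q z.2 * Rᴴ * W.Q z.1‖) (norm_nonneg Y) (norm_nonneg R) (by
        rw [Fintype.sum_prod_type]
        simp only
        rw [← sum_Q W Y]
        exact (Finset.sum_congr rfl fun p _ => sum_Q' W (W.Q p * Y)).le) (by
        rw [Fintype.sum_prod_type]
        simp only
        rw [← norm_ct' R, ← sum_Q' W Rᴴ]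
        refine (Finset.sum_congr rfl fun p _ => ?_).le
        have e1 : ∀ q, W.Q q * Rᴴ * W.Q p = W.Q q * (Rᴴ * W.Q p) := fun q => by
          rw [Matrix.mul_assoc]
        simp only [e1]
        exact sum_Q W (Rᴴ * W.Q p))
    rw [Fintype.sum_prod_type] at h6
    exact h6
  rcases (norm_nonneg R).eq_or_lt with h0 | h0
  · rw [← h0]
    have := mul_nonneg (hf x) hZ0.le
    positivity
  · rw [hYn] at h4
    have h7 : ‖R‖ * ‖R‖ ≤ (f x * ZZ κ S (bs (P := P) (j := j) (t := t)) bt (BQ W J U) * ‖M‖) *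
        ‖R‖ := by nlinarith
    exact le_of_mul_le_mul_right h7 h0

end

end Pool.Agent.T2h21.YM
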