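import Mathlib
import Pool.Agent.T2h21.YM.SlabX

/-!
# The bound of the loops
-/

open MeasureTheory Matrix
open scoped Matrix.Norms.Frobenius ContDiff RealInnerProductSpace
open Pool.Agent.H906R3.YM hiding Pl
open Pool.Agent.W793.YM Pool.Agent.TH618.YM Pool.Agent.TH190.YV

namespace Pool.Agent.T2h21.YM

set_option linter.unusedSectionVars false
set_option linter.unusedVariables false

noncomputable section

variable {K : Type*} [Group K] [TopologicalSpace K] [IsTopologicalGroup K] [CompactSpace K]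
  [SecondCountableTopology K] [MeasurableSpace K] [BorelSpace K] (κ : Measure K)
  [IsProbabilityMeasure κ] [κ.IsMulLeftInvariant]
  {V : Type*} [NormedAddCommGroup V] [InnerProductSpace ℝ V] [FiniteDimensional ℝ V]
  [CompleteSpace V] {m : ℕ}
  {d l : ℕ} [NeZero l] {G : Type*} [Group G] [TopologicalSpace G] [IsTopologicalGroup G]
  [CompactSpace G] [SecondCountableTopology G] [MeasurableSpace G] [BorelSpace G]
  (μ : Measure G) [IsProbabilityMeasure μ] [μ.IsMulLeftInvariant]
  {N n : ℕ} {L : LD G N n} {S : Spin K V m} {P : Type*} [Fintype P] [DecidableEq P] {b : ℕ}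
  (W : Blk L S P b) {j : Fin d}

lemma mk_mp (t : ZMod l) (k : St d l × P → K) :
    MeasurePreserving (mk W j t k) (ME μ (Ed d l)) (ME μ (Ed d l)) := by
  have h1 : mk W j t k = fun (U : Ed d l → G) e =>
      (if vt j t e then (fun z => W.emb (fun p => k (e.1, p)) * z) else id) (U e) := by
    funext U e
    unfold mk
    split_ifs <;> rfl
  rw [h1]
  refine measurePreserving_pi _ _ fun e => ?_
  split_ifs
  · exact measurePreserving_mul_left μ _
  · exact MeasurePreserving.id μ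

lemma int_mk {F : Type*} [NormedAddCommGroup F] [NormedSpace ℝ F] [CompleteSpace F] (t : ZMod l)
    {f : (Ed d l → G) → F} (hf : Continuous f) :
    ∫ g, ∫ k, f (mk W j t k g) ∂(MP κ (St d l × P)) ∂(ME μ (Ed d l)) =
      ∫ g, f g ∂(ME μ (Ed d l)) := by
  have hc : Continuous fun z : (St d l × P → K) × (Ed d l → G) => f (mk W j t z.1 z.2) :=
    hf.comp (mk_cont W)
  have h1 : ∀ k : St d l × P → K, ∫ g, f (mk W j t k g) ∂(ME μ (Ed d l)) =
      ∫ g, f g ∂(ME μ (Ed d l)) := by
    intro k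
    have h2 := (mk_mp (j := j) μ W t k).map_eq
    conv_rhs => rw [← h2]
    rw [integral_map (mk_mp (j := j) μ W t k).measurable.aemeasurable hf.aestronglyMeasurable]
  have h3 : ∫ k, ∫ g, f (mk W j t k g) ∂(ME μ (Ed d l)) ∂(MP κ (St d l × P)) =
      ∫ g, f g ∂(ME μ (Ed d l)) := by
    simp only [h1]
    simp
  rw [← h3]
  exact integral_integral_swap (f := fun g k => f (mk W j t k g))
    (TH190.YV.cont_int (hc.comp continuous_swap))

variable (L) in
/-- the operator of one slab with the weight -/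
def KJ (j : Fin d) (J : Ed d l → ℝ) (x y : St d l) (t : ℕ) (U : Ed d l → G) : Op N :=
  Real.exp (HS L j (t : ZMod l) J U) •
    cj (L.rho (U (x + t • eT j, j))) (L.rho (U (y + t • eT j, j)))

variable (L) in
/-- the weight of one slab -/
def EJ (j : Fin d) (J : Ed d l → ℝ) (t : ℕ) (U : Ed d l → G) : ℝ :=
  Real.exp (HS L j (t : ZMod l) J U)

lemma KJ_cont (J : Ed d l → ℝ) (x y : St d l) (t : ℕ) : Continuous (KJ L j J x y t) := by
  unfold KJ
  refine (Real.continuous_exp.comp (HS_cont J)).smul ?_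
  exact cj_cont (L.cont.comp (continuous_apply _)) (L.cont.comp (continuous_apply _))

lemma EJ_cont (J : Ed d l → ℝ) (t : ℕ) : Continuous (EJ L j J t) :=
  Real.continuous_exp.comp (HS_cont J)

lemma HS_dep (J : Ed d l → ℝ) (t : ZMod l) :
    Dep (fun e : Ed d l => e.2 = j → e.1 j = t) (HS L j t J : (Ed d l → G) → ℝ) := by
  intro U U' h
  unfold HS
  refine Finset.sum_congr rfl fun e _ => ?_
  obtain ⟨⟨x, k⟩, hk, hx⟩ := e
  simp only at hk hx ⊢
  congr 2
  refine plqT_congr (h _ fun _ => hx) (h _ fun hkj => absurd hkj hk) (h _ fun _ => ?_)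
    (h _ fun hkj => absurd hkj hk)
  show (x + eT k : St d l) j = t
  rw [add_ne x hk, hx]

lemma KJ_dep (J : Ed d l → ℝ) {x y : St d l} (hx : x j = 0) (hy : y j = 0) (t : ℕ) :
    Dep (fun e : Ed d l => e.2 = j → e.1 j = (t : ZMod l)) (KJ L j J x y t) := by
  intro U U' h
  unfold KJ
  rw [HS_dep J _ U U' h, h _ fun _ => add_smul_j hx t, h _ fun _ => add_smul_j hy t]

lemma EJ_dep (J : Ed d l → ℝ) (t : ℕ) :
    Dep (fun e : Ed d l => e.2 = j → e.1 j = (t : ZMod l)) (EJ L j J t) := by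
  intro U U' h
  unfold EJ
  rw [HS_dep J _ U U' h]

lemma mixp_mk (t : ZMod l) (k : St d l × P → K) (g U : Ed d l → G) :
    mixp (vt j t) (mk W j t k g) U = mk W j t k (mixp (vt j t) g U) := by
  funext e
  unfold mixp mk
  by_cases h : vt j t e
  · simp only [if_pos h]
  · simp only [if_neg h]

include κ W in
/-- one slab -/
lemma norm_avg_KJ (hm : 1 ≤ m) (hl : 2 ≤ l) {J : Ed d l → ℝ} {β β₁ θ : ℝ}
    (hb : 2 * b * β ≤ (m + 1) * β₁)
    {t : ℕ} (hβ : 0 ≤ β) (hJ : ∀ e : Ih j (t : ZMod l), |J e.1| ≤ β)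
    (hθ : (∑ i : Fin d, if i ≠ j then β₁ else 0) ≤ θ)
    (hθ1 : θ < 1) {f : St d l → ℝ} (hf : ∀ z, 0 ≤ f z) {x y : St d l}
    (hfy : 1 ≤ f (y + t • eT j))
    (hsup : ∀ z : St d l, z j = (t : ZMod l) →
      β₁ * ∑ i, (if i ≠ j then f (z + eT i) + f (z - eT i) else 0) ≤ 2 * f z)
    (hx : x j = 0) (hy : y j = 0) (U : Ed d l → G) :
    ‖avg μ (vt j (t : ZMod l)) (KJ L j J x y t) U‖ ≤
      f (x + t • eT j) * avg μ (vt j (t : ZMod l)) (EJ L j J t) U := by
  have hmx : Continuous fun g : Ed d l → G => mixp (vt j (t : ZMod l)) g U :=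
    (mixp_cont _).comp (Continuous.prodMk continuous_id continuous_const)
  have hK : Continuous fun g : Ed d l → G => KJ L j J x y t (mixp (vt j (t : ZMod l)) g U) :=
    (KJ_cont _ _ _ _).comp hmx
  have hE : Continuous fun g : Ed d l → G => EJ L j J t (mixp (vt j (t : ZMod l)) g U) :=
    (EJ_cont _ _).comp hmx
  unfold avg
  rw [← int_mk (j := j) κ μ W (t : ZMod l) hK, ← int_mk (j := j) κ μ W (t : ZMod l) hE]
  simp only [mixp_mk]
  rw [← integral_const_mul]
  refine (norm_integral_le_integral_norm _).trans ?_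
  have hmc : Continuous fun a : (Ed d l → G) × (St d l × P → K) =>
      mk W j (t : ZMod l) a.2 (mixp (vt j (t : ZMod l)) a.1 U) :=
    (mk_cont (j := j) (t := (t : ZMod l)) W).comp
      (Continuous.prodMk continuous_snd (hmx.comp continuous_fst))
  have hc1 : Continuous (Function.uncurry fun (g : Ed d l → G) (k : St d l × P → K) =>
      KJ L j J x y t (mk W j (t : ZMod l) k (mixp (vt j (t : ZMod l)) g U))) :=
    (KJ_cont _ _ _ _).comp hmc
  have hc2 : Continuous (Function.uncurry fun (g : Ed d l → G) (k : St d l × P → K) =>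
      EJ L j J t (mk W j (t : ZMod l) k (mixp (vt j (t : ZMod l)) g U))) :=
    (EJ_cont _ _).comp hmc
  have hc1' := continuous_parametric_integral_of_continuous (μ := MP κ (St d l × P)) hc1
    isCompact_univ
  have hc2' := continuous_parametric_integral_of_continuous (μ := MP κ (St d l × P)) hc2
    isCompact_univ
  simp only [Measure.restrict_univ] at hc1' hc2'
  refine integral_mono (TH190.YV.cont_int hc1'.norm)
    (TH190.YV.cont_int (continuous_const.mul hc2')) fun g => ?_
  exact slab_k κ W hm hl hb hβ hJ hθ hθ1 hf hfy hsup (add_smul_j hx t) (add_smul_j hy t)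
    (mixp (vt j (t : ZMod l)) g U)

lemma pk_KJ (J : Ed d l → ℝ) (x y : St d l) (T : ℕ) (U : Ed d l → G) :
    pk (KJ L j J x y) T U = Real.exp (∑ t ∈ Finset.range T, HS L j (t : ZMod l) J U) •
      cj (L.rho (ln U j T x)) (L.rho (ln U j T y)) := by
  induction T with
  | zero =>
    show (1 : Op N) = _
    rw [Finset.sum_range_zero, Real.exp_zero, one_smul, ln_zero, ln_zero, map_one, cj_one]
  | succ T ih =>
    show pk (KJ L j J x y) T U * KJ L j J x y T U = _
    rw [ih]
    unfold KJ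
    rw [smul_mul_smul_comm, cj_mul, ← map_mul, ← map_mul, ← ln_succ', ← ln_succ',
      Finset.sum_range_succ, ← Real.exp_add]

lemma pk_EJ (J : Ed d l → ℝ) (T : ℕ) (U : Ed d l → G) :
    pk (EJ L j J) T U = Real.exp (∑ t ∈ Finset.range T, HS L j (t : ZMod l) J U) := by
  induction T with
  | zero =>
    show (1 : ℝ) = _
    rw [Finset.sum_range_zero, Real.exp_zero]
  | succ T ih =>
    show pk (EJ L j J) T U * EJ L j J T U = _
    rw [ih]
    unfold EJ
    rw [← Real.exp_add, Finset.sum_range_succ]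

lemma pk_smul {c : ℝ} {B : ℕ → (Ed d l → G) → ℝ} (T : ℕ) (U : Ed d l → G) :
    pk (fun t U => c * B t U) T U = c ^ T * pk B T U := by
  induction T with
  | zero => show (1 : ℝ) = c ^ 0 * 1; rw [pow_zero, one_mul]
  | succ T ih =>
    show pk (fun t U => c * B t U) T U * (c * B T U) = c ^ (T + 1) * (pk B T U * B T U)
    rw [ih]; ring

/-- **the bound of the loops** -/
theorem loop_bound {J : Ed d l → ℝ} {c : ℝ} {x y : St d l} (hx : x j = 0)
    (hy : y j = 0) {T : ℕ} (hT : T ≤ l)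
    (hK : ∀ t < T, ∀ U : Ed d l → G, ‖avg μ (vt j (t : ZMod l)) (KJ L j J x y t) U‖ ≤
      c * avg μ (vt j (t : ZMod l)) (EJ L j J t) U)
    {a0 aT : (Ed d l → G) → G} (hc0 : Continuous a0) (hcT : Continuous aT)
    (hd0 : Dep (fun e : Ed d l => e.2 ≠ j) a0) (hdT : Dep (fun e : Ed d l => e.2 ≠ j) aT)
    {H Rs : (Ed d l → G) → ℝ} (hRc : Continuous Rs)
    (hRd : Dep (fun e : Ed d l => ∀ s < T, ¬vt j (s : ZMod l) e) Rs)
    (hH : ∀ U, H U = Rs U + ∑ t ∈ Finset.range T, HS L j (t : ZMod l) J U) :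
    |∫ U, rt L (ln U j T x * aT U * (ln U j T y)⁻¹ * (a0 U)⁻¹) * Real.exp (H U)
      ∂(ME μ (Ed d l))| ≤ N * (c ^ T * ∫ U, Real.exp (H U) ∂(ME μ (Ed d l))) := by
  have hsub : ∀ t < T, ∀ e : Ed d l, (e.2 = j → e.1 j = (t : ZMod l)) →
      ∀ s < T, s ≠ t → ¬vt j (s : ZMod l) e := by
    intro t ht e he s hs hst hv
    have h1 := he hv.1
    rw [hv.2] at h1
    exact hst (cast_inj (by omega) (by omega) h1)
  have hmono : ∀ {α : Type _} {p p' : Ed d l → Prop} {F : (Ed d l → G) → α},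
      (∀ e, p e → p' e) → Dep p F → Dep p' F := by
    intro α p p' F hpp hF U U' hU
    exact hF U U' fun e he => hU e (hpp e he)
  have hhor : ∀ e : Ed d l, e.2 ≠ j → ∀ s < T, ¬vt j (s : ZMod l) e := fun e he s _ hs => he hs.1
  -- the operators
  obtain ⟨C, hC⟩ : ∃ C : (Ed d l → G) → Op N, C = fun U => cj (L.rho 1) (L.rho (a0 U)) := ⟨_, rfl⟩
  obtain ⟨w, hw⟩ : ∃ w : (Ed d l → G) → ℝ, w = fun U => Real.exp (Rs U) := ⟨_, rfl⟩
  obtain ⟨R, hR⟩ : ∃ R : (Ed d l → G) → Op N, R = fun U => w U • cj (L.rho (aT U)) (L.rho 1) :=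
    ⟨_, rfl⟩
  have hCc : Continuous C := by
    rw [hC]; exact cj_cont continuous_const (L.cont.comp hc0)
  have hwc : Continuous w := by
    rw [hw]; exact Real.continuous_exp.comp hRc
  have hRc' : Continuous R := by
    rw [hR]; exact hwc.smul (cj_cont (L.cont.comp hcT) continuous_const)
  have hCd : Dep (fun e : Ed d l => ∀ s < T, ¬vt j (s : ZMod l) e) C := by
    refine hmono (p := fun e : Ed d l => e.2 ≠ j) hhor ?_
    intro U U' hU
    rw [hC]; simp only; rw [hd0 U U' hU]
  have hwd : Dep (fun e : Ed d l => ∀ s < T, ¬vt j (s : ZMod l) e) w := by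
    intro U U' hU
    rw [hw]; simp only; rw [hRd U U' hU]
  have hRd' : Dep (fun e : Ed d l => ∀ s < T, ¬vt j (s : ZMod l) e) R := by
    intro U U' hU
    rw [hR]; simp only
    rw [hwd U U' hU, hdT U U' fun e he => hU e (hhor e he)]
  have hKd : ∀ t < T, Dep (fun e : Ed d l => ∀ s < T, s ≠ t → ¬vt j (s : ZMod l) e)
      (KJ L j J x y t) := fun t ht => hmono (hsub t ht) (KJ_dep J hx hy t)
  have hbd : ∀ t < T, Dep (fun e : Ed d l => ∀ s < T, s ≠ t → ¬vt j (s : ZMod l) e)
      (EJ L j J t) := fun t ht => hmono (hsub t ht) (EJ_dep J t)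
  -- the loop
  have e1 : ∀ U : Ed d l → G, rt L (ln U j T x * aT U * (ln U j T y)⁻¹ * (a0 U)⁻¹) *
      Real.exp (H U) = tF N (C U * pk (KJ L j J x y) T U * R U) := by
    intro U
    rw [pk_KJ, hC, hR, tF_apply]
    simp only
    rw [cj3, ← map_mul, ← map_mul, ← map_mul, ← map_mul, hw]
    simp only
    rw [← Real.exp_add]
    have f1 : ∑ t ∈ Finset.range T, HS L j (t : ZMod l) J U + Rs U = H U := by rw [hH]; ring
    rw [f1]
    show _ = ip 1 (Real.exp (H U) • (L.rho (1 * ln U j T x * aT U) * (1 : Mat N) *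
      (L.rho (a0 U * ln U j T y * 1))ᴴ))
    rw [map_smul, smul_eq_mul, mul_comm, ip_apply, conjTranspose_one, one_mul, mul_one, mul_one,
      one_mul, ← L.rho_inv, ← map_mul]
    unfold rt
    have f2 : ln U j T x * aT U * (ln U j T y)⁻¹ * (a0 U)⁻¹ =
        ln U j T x * aT U * (a0 U * ln U j T y)⁻¹ := by group
    rw [f2]
  have hpkc : Continuous (pk (KJ L j J x y) T) := pk_cont fun t _ => KJ_cont _ _ _ _
  have e2 : ∫ U, rt L (ln U j T x * aT U * (ln U j T y)⁻¹ * (a0 U)⁻¹) * Real.exp (H U)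
      ∂(ME μ (Ed d l)) =
      tF N (∫ U, C U * pk (KJ L j J x y) T U * R U ∂(ME μ (Ed d l))) := by
    have e3 := ContinuousLinearMap.integral_comp_comm (tF N)
      (φ := fun U => C U * pk (KJ L j J x y) T U * R U) (μ := ME μ (Ed d l))
      (TH190.YV.cont_int ((hCc.mul hpkc).mul hRc'))
    rw [← e3]
    exact integral_congr_ae (Filter.Eventually.of_forall fun U => e1 U)
  rw [e2, chain μ (fun t _ => KJ_cont J x y t) hKd hCc hRc' hCd hRd']
  refine (abs_tF _).trans (mul_le_mul_of_nonneg_left ?_ (Nat.cast_nonneg _))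
  -- the norm
  have hpa : Continuous (pk (fun t => avg μ (vt j (t : ZMod l)) (KJ L j J x y t)) T) :=
    pk_cont fun t _ => avg_cont (KJ_cont _ _ _ _)
  have hpb : Continuous (pk (fun t => avg μ (vt j (t : ZMod l)) (EJ L j J t)) T) :=
    pk_cont fun t _ => avg_cont (EJ_cont _ _)
  refine (norm_integral_le_integral_norm _).trans ?_
  have h5 : ∫ U, ‖C U * pk (fun t => avg μ (vt j (t : ZMod l)) (KJ L j J x y t)) T U * R U‖
      ∂(ME μ (Ed d l)) ≤
      ∫ U, c ^ T * (1 * pk (fun t => avg μ (vt j (t : ZMod l)) (EJ L j J t)) T U * w U)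
        ∂(ME μ (Ed d l)) := by
    refine integral_mono (integrable_cont μ ((hCc.mul hpa).mul hRc').norm)
      (integrable_cont μ (continuous_const.mul ((continuous_const.mul hpb).mul hwc))) fun U => ?_
    have g1 : ‖pk (fun t => avg μ (vt j (t : ZMod l)) (KJ L j J x y t)) T U‖ ≤
        c ^ T * pk (fun t => avg μ (vt j (t : ZMod l)) (EJ L j J t)) T U := by
      rw [← pk_smul]
      exact norm_pk fun t ht => hK t ht U
    have g2 : ‖C U‖ ≤ 1 := by rw [hC]; exact norm_cj _ _
    have hw0 : 0 < w U := by rw [hw]; exact Real.exp_pos _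
    have g3 : ‖R U‖ ≤ w U := by
      rw [hR]
      simp only
      rw [norm_smul, Real.norm_eq_abs, abs_of_pos hw0]
      have := norm_cj (L := L) (aT U) 1
      calc w U * ‖cj (L.rho (aT U)) (L.rho 1)‖ ≤ w U * 1 :=
            mul_le_mul_of_nonneg_left this hw0.le
        _ = _ := mul_one _
    refine (norm_mul_le _ _).trans ((mul_le_mul ((norm_mul_le _ _).trans
      (mul_le_mul g2 g1 (norm_nonneg _) zero_le_one)) g3 (norm_nonneg _) ?_).trans (le_of_eq ?_))
    · rw [one_mul]
      exact (norm_nonneg _).trans g1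
    · ring
  refine h5.trans (le_of_eq ?_)
  rw [integral_const_mul]
  congr 1
  rw [← chain μ (C := fun _ => (1 : ℝ)) (R := w) (fun t _ => EJ_cont J t) hbd
    continuous_const hwc (fun _ _ _ => rfl) hwd]
  refine integral_congr_ae (Filter.Eventually.of_forall fun U => ?_)
  simp only
  rw [pk_EJ, hw]
  simp only
  rw [one_mul, ← Real.exp_add, hH]
  congr 1
  ring

end

end Pool.Agent.T2h21.YM
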