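import Mathlib
import Pool.Agent.T2h21.YM.LoopW

/-!
# The decay in one direction, and the decomposition of the exponent
-/

open MeasureTheory Matrix
open scoped Matrix.Norms.Frobenius ContDiff RealInnerProductSpace
open Pool.Agent.H906R3.YM hiding Pl
open Pool.Agent.W793.YM Pool.Agent.TH618.YM Pool.Agent.TH190.YV

namespace Pool.Agent.T2h21.YM

set_option linter.unusedSectionVars false
set_option linter.unusedVariables false

noncomputable section

section super

variable {d l : ℕ} [NeZero l]

/-- the profile -/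
def ph (l : ℕ) (a r : ℝ) : ℝ := Real.cosh (a * (l / 2 - r))

lemma ph_pos (a r : ℝ) : 0 < ph l a r := Real.cosh_pos _

lemma ph_rec (a r : ℝ) : ph l a (r + 1) + ph l a (r - 1) = 2 * Real.cosh a * ph l a r := by
  unfold ph
  have e1 : a * ((l : ℝ) / 2 - (r + 1)) = a * (l / 2 - r) - a := by ring
  have e2 : a * ((l : ℝ) / 2 - (r - 1)) = a * (l / 2 - r) + a := by ring
  rw [e1, e2, Real.cosh_add, Real.cosh_sub]
  ring

lemma ph_symm (a r : ℝ) : ph l a (l - r) = ph l a r := by
  unfold ph
  rw [← Real.cosh_neg]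
  congr 1
  ring

lemma ph_succ (hl : 2 ≤ l) (a : ℝ) (w : ZMod l) : ph l a ((w + 1).val : ℕ) = ph l a (w.val + 1) := by
  have : Fact (1 < l) := ⟨by omega⟩
  have h1 : (w + 1).val = (w.val + 1) % l := by rw [ZMod.val_add, ZMod.val_one]
  have h2 := ZMod.val_lt w
  by_cases h : w.val + 1 < l
  · rw [h1, Nat.mod_eq_of_lt h]
    push_cast; rfl
  · have h3 : w.val + 1 = l := by omega
    rw [h1, h3, Nat.mod_self, Nat.cast_zero, ← ph_symm, sub_zero]
    congr 1
    exact_mod_cast h3.symm

lemma ph_pred (hl : 2 ≤ l) {a : ℝ} (w : ZMod l) :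
    ph l a ((w - 1).val : ℕ) ≤ ph l a (w.val - 1) := by
  have hf : Fact (1 < l) := ⟨by omega⟩
  by_cases h : w = 0
  · subst h
    have h1 : ((0 : ZMod l) - 1).val = l - 1 := by
      rw [zero_sub, ZMod.neg_val, if_neg one_ne_zero, ZMod.val_one]
    rw [h1, ZMod.val_zero, Nat.cast_sub (by omega), Nat.cast_one, ph_symm, Nat.cast_zero]
    unfold ph
    rw [Real.cosh_le_cosh, abs_mul, abs_mul]
    refine mul_le_mul_of_nonneg_left ?_ (abs_nonneg _)
    have hl' : (2 : ℝ) ≤ l := by exact_mod_cast hl
    rw [abs_of_nonneg (by linarith), abs_of_nonneg (by linarith)]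
    linarith
  · have h1 : 1 ≤ w.val := by
      have : w.val ≠ 0 := fun h' => h ((ZMod.val_eq_zero w).1 h')
      omega
    have h2 : (w - 1).val = w.val - 1 := by
      rw [ZMod.val_sub (by rw [ZMod.val_one]; exact h1), ZMod.val_one]
    rw [h2, Nat.cast_sub h1, Nat.cast_one]

lemma ph_sup (hl : 2 ≤ l) {a : ℝ} (w : ZMod l) :
    ph l a ((w + 1).val : ℕ) + ph l a ((w - 1).val : ℕ) ≤ 2 * Real.cosh a * ph l a w.val := by
  rw [← ph_rec, ph_succ hl]
  exact add_le_add_right (ph_pred hl w) _

/-- the supersolution -/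
def sf (a : ℝ) (i : Fin d) (y z : St d l) : ℝ := ph l a ((z - y) i).val / ph l a 0

lemma sf_nonneg (a : ℝ) (i : Fin d) (y z : St d l) : 0 ≤ sf a i y z := by
  unfold sf
  exact div_nonneg (ph_pos _ _).le (ph_pos _ _).le

lemma sf_self (a : ℝ) (i : Fin d) (y : St d l) : sf a i y y = 1 := by
  unfold sf
  rw [sub_self, Pi.zero_apply, ZMod.val_zero, Nat.cast_zero, div_self (ph_pos _ _).ne']

lemma sf_sup (hl : 2 ≤ l) {a β : ℝ} {i j : Fin d} (hij : i ≠ j) (hβ : 0 ≤ β)
    (hc : β * ((d : ℝ) - 2 + Real.cosh a) = 1) (y z : St d l) :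
    β * ∑ k, (if k ≠ j then sf a i y (z + eT k) + sf a i y (z - eT k) else 0) ≤
      2 * sf a i y z := by
  have h0 := ph_pos (l := l) a 0
  have h1 : ∀ k : Fin d, (if k ≠ j then sf a i y (z + eT k) + sf a i y (z - eT k) else 0) ≤
      (if k = i then 2 * (Real.cosh a - 1) * sf a i y z else 0) +
        ((if k ≠ j then 2 * sf a i y z else 0)) := by
    intro k
    by_cases hk : k = i
    · subst hk
      rw [if_pos hij, if_pos rfl, if_pos hij]
      unfold sf
      have e1 : (z + eT k - y : St d l) k = (z - y) k + 1 := by simp [eT]; ring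
      have e2 : (z - eT k - y : St d l) k = (z - y) k - 1 := by simp [eT]; ring
      rw [e1, e2, ← add_div, mul_div_assoc', mul_div_assoc', ← add_div]
      refine div_le_div_of_nonneg_right ?_ h0.le
      have := ph_sup hl (a := a) ((z - y) k)
      linarith
    · rw [if_neg hk, zero_add]
      split_ifs with hkj
      · have e1 : (z + eT k - y : St d l) i = (z - y) i := by simp [eT, Ne.symm hk]
        have e2 : (z - eT k - y : St d l) i = (z - y) i := by simp [eT, Ne.symm hk]
        unfold sf
        rw [e1, e2]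
        linarith
      · exact le_rfl
  have h2 := Finset.sum_le_sum fun k (_ : k ∈ (Finset.univ : Finset (Fin d))) => h1 k
  refine (mul_le_mul_of_nonneg_left h2 hβ).trans (le_of_eq ?_)
  rw [Finset.sum_add_distrib, Finset.sum_ite_eq' Finset.univ i, if_pos (Finset.mem_univ _)]
  have h3 : ∑ k : Fin d, (if k ≠ j then 2 * sf a i y z else 0) =
      ((d : ℝ) - 1) * (2 * sf a i y z) := by
    have h4 : ∀ k : Fin d, (if k ≠ j then 2 * sf a i y z else 0) =
        2 * sf a i y z - (if k = j then 2 * sf a i y z else 0) := by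
      intro k
      by_cases hk : k = j
      · simp [hk]
      · simp [hk]
    rw [Finset.sum_congr rfl fun k _ => h4 k, Finset.sum_sub_distrib,
      Finset.sum_ite_eq' Finset.univ j, if_pos (Finset.mem_univ _), Finset.sum_const,
      Finset.card_univ, Fintype.card_fin, nsmul_eq_mul]
    ring
  rw [h3]
  have : β * (2 * (Real.cosh a - 1) * sf a i y z + ((d : ℝ) - 1) * (2 * sf a i y z)) =
      (β * ((d : ℝ) - 2 + Real.cosh a)) * (2 * sf a i y z) := by ring
  rw [this, hc, one_mul]

/-- the value at the distance `R` -/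
lemma sf_val {a : ℝ} {i j : Fin d} (hij : i ≠ j) {R : ℕ} (hR : R ≤ l) (t : ℕ) :
    sf a i (R • eT i + t • eT j : St d l) (0 + t • eT j) = ph l a R / ph l a 0 := by
  unfold sf
  have e1 : ((0 + t • eT j - (R • eT i + t • eT j) : St d l)) i = -(R : ZMod l) := by
    simp [eT]
  rw [e1]
  congr 1
  rcases Nat.eq_zero_or_pos R with h | h
  · subst h; simp
  · rcases hR.eq_or_lt with h' | h'
    · rw [h', ZMod.natCast_self, neg_zero, ZMod.val_zero, Nat.cast_zero, ← ph_symm, sub_zero]
    · have h2 : (R : ZMod l) ≠ 0 := by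
        intro h3
        have := congrArg ZMod.val h3
        rw [ZMod.val_natCast_of_lt h', ZMod.val_zero] at this
        omega
      rw [ZMod.neg_val, if_neg h2, ZMod.val_natCast_of_lt h', Nat.cast_sub h'.le, ph_symm]

end super

section act

variable {d l : ℕ} [NeZero l] {G : Type*} [Group G] [TopologicalSpace G] [IsTopologicalGroup G]
  [CompactSpace G] [SecondCountableTopology G] [MeasurableSpace G] [BorelSpace G]
  {N n : ℕ} {L : LD G N n} {j : Fin d}

variable (L) in
/-- the exponent with the couplings `J` -/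
def HJ (J : St d l → Fin d → Fin d → ℝ) (U : Ed d l → G) : ℝ :=
  ∑ x, ∑ i, ∑ k, if i < k then J x i k * rt L (plqT U x i k) else 0

/-- the couplings of the plaquettes with the direction `j` -/
def Jv (j : Fin d) (J : St d l → Fin d → Fin d → ℝ) (e : Ed d l) : ℝ :=
  if j < e.2 then J e.1 j e.2 else J e.1 e.2 j

variable (L) in
/-- plaquettes at `x` without the direction `j` -/
def hA (j : Fin d) (J : St d l → Fin d → Fin d → ℝ) (U : Ed d l → G) (x : St d l) : ℝ :=
  ∑ i, ∑ k, if i < k ∧ i ≠ j ∧ k ≠ j then J x i k * rt L (plqT U x i k) else 0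

variable (L) in
/-- plaquettes at `x` with the direction `j` -/
def hB (j : Fin d) (J : St d l → Fin d → Fin d → ℝ) (U : Ed d l → G) (x : St d l) : ℝ :=
  ∑ k, if k ≠ j then Jv j J (x, k) * rt L (plqT U x j k) else 0

lemma HJ_eq (j : Fin d) (J : St d l → Fin d → Fin d → ℝ) (U : Ed d l → G) :
    HJ L J U = ∑ x, hA L j J U x + ∑ x, hB L j J U x := by
  unfold HJ
  rw [← Finset.sum_add_distrib]
  refine Finset.sum_congr rfl fun x _ => ?_
  have hsym : ∀ i k, rt L (plqT U x i k) = rt L (plqT U x k i) := fun i k => by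
    rw [plqT_swap U x i k, rt_inv]
  have h1 : ∀ i k, (if i < k then J x i k * rt L (plqT U x i k) else 0) =
      (if i < k ∧ i ≠ j ∧ k ≠ j then J x i k * rt L (plqT U x i k) else 0) +
      ((if i = j then (if j < k then Jv j J (x, k) * rt L (plqT U x j k) else 0) else 0) +
        (if k = j then (if i < j then Jv j J (x, i) * rt L (plqT U x j i) else 0) else 0)) := by
    intro i k
    by_cases hi : i = j
    · subst hi
      by_cases hk : k = i
      · subst hk; simp
      · simp only [hk, ne_eq, not_true_eq_false, false_and, and_false, if_false, if_true, zero_add,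
          add_zero]
        split_ifs with h
        · unfold Jv
          rw [if_pos h]
        · rfl
    · by_cases hk : k = j
      · subst hk
        simp only [hi, ne_eq, not_true_eq_false, and_false, if_false, if_true, zero_add]
        split_ifs with h
        · unfold Jv
          rw [if_neg (not_lt.2 h.le), hsym i k]
        · rfl
      · simp [hi, hk]
  rw [Finset.sum_congr rfl fun i _ => Finset.sum_congr rfl fun k _ => h1 i k]
  simp only [Finset.sum_add_distrib]
  unfold hA hB
  congr 1
  have h2 : ∑ i, ∑ k, (if i = j then (if j < k then Jv j J (x, k) * rt L (plqT U x j k) else 0)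
      else 0) = ∑ k, if j < k then Jv j J (x, k) * rt L (plqT U x j k) else 0 := by
    rw [Finset.sum_comm]
    refine Finset.sum_congr rfl fun k _ => ?_
    rw [Finset.sum_ite_eq' Finset.univ j]; simp
  have h3 : ∑ i, ∑ k, (if k = j then (if i < j then Jv j J (x, i) * rt L (plqT U x j i) else 0)
      else 0) = ∑ i, if i < j then Jv j J (x, i) * rt L (plqT U x j i) else 0 := by
    refine Finset.sum_congr rfl fun i _ => ?_
    rw [Finset.sum_ite_eq' Finset.univ j]; simp
  rw [h2, h3, ← Finset.sum_add_distrib]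
  refine Finset.sum_congr rfl fun k _ => ?_
  rcases lt_trichotomy k j with h | h | h
  · rw [if_neg (not_lt.2 h.le), if_pos h, if_pos h.ne, zero_add]
  · subst h; simp
  · rw [if_pos h, if_neg (not_lt.2 h.le), if_pos h.ne', add_zero]

lemma HS_eq (J : St d l → Fin d → Fin d → ℝ) (t : ZMod l) (U : Ed d l → G) :
    HS L j t (Jv j J) U = ∑ x, if x j = t then hB L j J U x else 0 := by
  unfold HS
  rw [sum_Ih (fun e => Jv j J e * rt L (plqT U e.1 j e.2))]
  refine Finset.sum_congr rfl fun x _ => ?_
  unfold hB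
  simp only
  by_cases hx : x j = t
  · simp only [hx, and_true, if_true]
  · simp only [hx, and_false, if_false, Finset.sum_const_zero]

variable (L) in
/-- the rest of the exponent -/
def Rt (j : Fin d) (T : ℕ) (J : St d l → Fin d → Fin d → ℝ) (U : Ed d l → G) : ℝ :=
  ∑ x, hA L j J U x + ∑ x, if (x j).val < T then 0 else hB L j J U x

lemma HJ_slabs {T : ℕ} (hT : T ≤ l) (J : St d l → Fin d → Fin d → ℝ) (U : Ed d l → G) :
    HJ L J U = Rt L j T J U + ∑ t ∈ Finset.range T, HS L j (t : ZMod l) (Jv j J) U := by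
  rw [HJ_eq j]
  unfold Rt
  rw [add_assoc]
  congr 1
  simp only [HS_eq]
  rw [Finset.sum_comm, ← Finset.sum_add_distrib]
  refine Finset.sum_congr rfl fun x _ => ?_
  by_cases hx : (x j).val < T
  · rw [if_pos hx, zero_add, Finset.sum_eq_single (x j).val]
    · rw [if_pos (ZMod.natCast_zmod_val _).symm]
    · intro t ht hne
      rw [if_neg]
      intro h
      apply hne
      have := congrArg ZMod.val h
      rw [ZMod.val_natCast_of_lt (lt_of_lt_of_le (Finset.mem_range.1 ht) hT)] at this
      exact this.symm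
    · intro h
      exact absurd (Finset.mem_range.2 hx) h
  · rw [if_neg hx, Finset.sum_eq_zero, add_zero]
    intro t ht
    rw [if_neg]
    intro h
    apply hx
    have := congrArg ZMod.val h
    rw [ZMod.val_natCast_of_lt (lt_of_lt_of_le (Finset.mem_range.1 ht) hT)] at this
    rw [this]
    exact Finset.mem_range.1 ht

lemma hA_cont (J : St d l → Fin d → Fin d → ℝ) (x : St d l) :
    Continuous fun U : Ed d l → G => hA L j J U x := by
  unfold hA
  refine continuous_finsetSum _ fun i _ => continuous_finsetSum _ fun k _ => ?_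
  split_ifs
  · exact continuous_const.mul (rt_cont.comp (plqT_cont _ _ _))
  · exact continuous_const

lemma hB_cont (J : St d l → Fin d → Fin d → ℝ) (x : St d l) :
    Continuous fun U : Ed d l → G => hB L j J U x := by
  unfold hB
  refine continuous_finsetSum _ fun k _ => ?_
  split_ifs
  · exact continuous_const.mul (rt_cont.comp (plqT_cont _ _ _))
  · exact continuous_const

lemma Rt_cont (T : ℕ) (J : St d l → Fin d → Fin d → ℝ) :
    Continuous (Rt L j T J : (Ed d l → G) → ℝ) := by
  unfold Rt
  refine (continuous_finsetSum _ fun x _ => hA_cont J x).add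
    (continuous_finsetSum _ fun x _ => ?_)
  split_ifs
  · exact continuous_const
  · exact hB_cont J x

lemma Rt_dep (T : ℕ) (J : St d l → Fin d → Fin d → ℝ) :
    Dep (fun e : Ed d l => ∀ s < T, ¬vt j (s : ZMod l) e)
    (Rt L j T J : (Ed d l → G) → ℝ) := by
  intro U U' h
  unfold Rt
  have hh : ∀ y k, k ≠ j → U (y, k) = U' (y, k) := fun y k hk => h _ fun s _ hs => hk hs.1
  congr 1
  · refine Finset.sum_congr rfl fun x _ => ?_
    unfold hA
    refine Finset.sum_congr rfl fun i _ => Finset.sum_congr rfl fun k _ => ?_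
    split_ifs with hik
    · rw [plqT_congr (hh _ _ hik.2.1) (hh _ _ hik.2.2) (hh _ _ hik.2.1) (hh _ _ hik.2.2)]
    · rfl
  · refine Finset.sum_congr rfl fun x _ => ?_
    split_ifs with hx
    · rfl
    · unfold hB
      refine Finset.sum_congr rfl fun k _ => ?_
      split_ifs with hk
      · have hv : ∀ y : St d l, y j = x j → U (y, j) = U' (y, j) := by
          intro y hy
          refine h _ fun s hs hv => hx ?_
          have h2 : y j = (s : ZMod l) := hv.2
          rw [← hy, h2]
          refine lt_of_le_of_lt ?_ hs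
          rw [ZMod.val_natCast]
          exact Nat.mod_le _ _
        rw [plqT_congr (hv _ rfl) (hh _ _ hk) (hv _ (add_ne x hk)) (hh _ _ hk)]
      · rfl

end act

end

end Pool.Agent.T2h21.YM
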