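import Mathlib
import Pool.Agent.T2h21.YM.Chq
import Pool.Agent.T2h21.YM.LoopW
import Pool.Agent.T2h21.YM.Super

/-!
# The operator of a slab for groups which contain the maximal torus of `SU(N)`
-/

open MeasureTheory Matrix
open scoped Matrix.Norms.Frobenius ContDiff RealInnerProductSpace ComplexConjugate
open Pool.Agent.H906R3.YM hiding Pl
open Pool.Agent.W793.YM Pool.Agent.TH618.YM Pool.Agent.TH190.YV

namespace Pool.Agent.T2h21.YM

set_option linter.unusedSectionVars false
set_option linter.unusedVariables false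

noncomputable section

/-- the diagonal entries of an element of the maximal torus of `SU(N)` -/
def tt {N : ℕ} (z : Fin N × Fin N → Circle) (p : Fin N) : ℂ :=
  ∏ q, ((z (p, q) : ℂ) * conj (z (q, p) : ℂ))

lemma circ_conj (z : Circle) : (z : ℂ) * conj (z : ℂ) = 1 := by
  rw [Complex.mul_conj, Circle.normSq_coe, Complex.ofReal_one]

lemma tt_norm {N : ℕ} (z : Fin N × Fin N → Circle) (p : Fin N) : ‖tt z p‖ = 1 := by
  unfold tt
  rw [norm_prod]
  refine Finset.prod_eq_one fun q _ => ?_
  rw [norm_mul, RCLike.norm_conj, Circle.norm_coe, Circle.norm_coe, mul_one]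

lemma tt_cont {N : ℕ} (p : Fin N) : Continuous fun z : Fin N × Fin N → Circle => tt z p := by
  unfold tt
  refine continuous_finsetProd _ fun q _ => ?_
  exact (continuous_subtype_val.comp (continuous_apply _)).mul
    (Complex.continuous_conj.comp (continuous_subtype_val.comp (continuous_apply _)))

lemma tt_upd_i {N : ℕ} (z : Fin N × Fin N → Circle) {i j : Fin N} (hij : i ≠ j) (c : Circle) :
    tt (Function.update z (i, j) (c * z (i, j))) i = c * tt z i := by
  unfold tt
  have h1 : ∀ q, ((Function.update z (i, j) (c * z (i, j)) (i, q) : Circle) : ℂ) *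
      conj ((Function.update z (i, j) (c * z (i, j)) (q, i) : Circle) : ℂ) =
      (if q = j then (c : ℂ) else 1) * ((z (i, q) : ℂ) * conj (z (q, i) : ℂ)) := by
    intro q
    have h2 : (q, i) ≠ (i, j) := fun h => hij (congrArg Prod.snd h)
    rw [Function.update_of_ne h2]
    by_cases hq : q = j
    · subst hq
      rw [Function.update_self, if_pos rfl, Circle.coe_mul]; ring
    · rw [Function.update_of_ne (fun h => hq (congrArg Prod.snd h)), if_neg hq, one_mul]
  rw [Finset.prod_congr rfl fun q _ => h1 q, Finset.prod_mul_distrib, Finset.prod_ite_eq',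
    if_pos (Finset.mem_univ _)]

lemma tt_upd_j {N : ℕ} (z : Fin N × Fin N → Circle) {i j : Fin N} (hij : i ≠ j) (c : Circle) :
    tt (Function.update z (i, j) (c * z (i, j))) j = conj (c : ℂ) * tt z j := by
  unfold tt
  have h1 : ∀ q, ((Function.update z (i, j) (c * z (i, j)) (j, q) : Circle) : ℂ) *
      conj ((Function.update z (i, j) (c * z (i, j)) (q, j) : Circle) : ℂ) =
      (if q = i then conj (c : ℂ) else 1) * ((z (j, q) : ℂ) * conj (z (q, j) : ℂ)) := by
    intro q
    have h2 : (j, q) ≠ (i, j) := fun h => hij (congrArg Prod.fst h).symm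
    rw [Function.update_of_ne h2]
    by_cases hq : q = i
    · subst hq
      rw [Function.update_self, if_pos rfl, Circle.coe_mul, map_mul]; ring
    · rw [Function.update_of_ne (fun h => hq (congrArg Prod.fst h)), if_neg hq, one_mul]
  rw [Finset.prod_congr rfl fun q _ => h1 q, Finset.prod_mul_distrib, Finset.prod_ite_eq',
    if_pos (Finset.mem_univ _)]

lemma tt_upd_o {N : ℕ} (z : Fin N × Fin N → Circle) {i j p : Fin N} (hi : p ≠ i) (hj : p ≠ j)
    (c : Circle) : tt (Function.update z (i, j) c) p = tt z p := by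
  unfold tt
  refine Finset.prod_congr rfl fun q _ => ?_
  rw [Function.update_of_ne (fun h => hi (congrArg Prod.fst h)),
    Function.update_of_ne (fun h => hj (congrArg Prod.snd h))]

variable [MeasurableSpace Circle] [BorelSpace Circle] (κ : Measure Circle)
  [IsProbabilityMeasure κ] [κ.IsMulLeftInvariant]

/-- the torus of a slab -/
abbrev TS (d l N : ℕ) := St d l × (Fin N × Fin N) → Circle

lemma upd_site {d l N : ℕ} (k : TS d l N) (x y : St d l) (e : Fin N × Fin N) (c : Circle) :
    (fun z => Function.update k (x, e) c (y, z)) =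
      if y = x then Function.update (fun z => k (y, z)) e c else fun z => k (y, z) := by
  funext z
  by_cases h : y = x
  · subst h
    rw [if_pos rfl]
    by_cases hz : z = e
    · subst hz
      rw [Function.update_self, Function.update_self]
    · rw [Function.update_of_ne hz, Function.update_of_ne (fun h => hz (congrArg Prod.snd h))]
  · rw [if_neg h, Function.update_of_ne (fun h' => h (congrArg Prod.fst h'))]

/-- the flows of the torus of a slab -/
def flwT (d l N : ℕ) [NeZero l] : Flw (MP κ (St d l × (Fin N × Fin N))) (St d l) N where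
  t u k := tt (fun z => k (u.1, z)) u.2
  cont u := by
    have h1 : Continuous fun (k : TS d l N) (z : Fin N × Fin N) => k (u.1, z) :=
      continuous_pi fun z => continuous_apply _
    exact (tt_cont u.2).comp h1
  nrm u k := tt_norm _ _
  fl x i j s k := Function.update k (x, (i, j)) (Circle.exp s * k (x, (i, j)))
  inv x i j hij s f hf := by
    have h2 := (upd_mp κ (x, (i, j)) (Circle.exp s)).map_eq
    conv_rhs => rw [← h2]
    rw [integral_map (upd_mp κ (x, (i, j)) (Circle.exp s)).measurable.aemeasurable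
      hf.aestronglyMeasurable]
  fl_i x i j hij s k := by
    simp only
    rw [upd_site, if_pos rfl, tt_upd_i _ hij, Circle.coe_exp]
  fl_j x i j hij s k := by
    simp only
    rw [upd_site, if_pos rfl, tt_upd_j _ hij, Circle.coe_exp, ← Complex.exp_conj, map_mul,
      Complex.conj_ofReal, Complex.conj_I]
    congr 2
    ring
  fl_o x i j hij s k u hi hj := by
    obtain ⟨y, p⟩ := u
    simp only
    rw [upd_site]
    by_cases h : y = x
    · subst h
      rw [if_pos rfl]
      exact tt_upd_o _ (fun h => hi (by rw [h])) (fun h => hj (by rw [h])) _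
    · rw [if_neg h]

lemma flwT_t (d l N : ℕ) [NeZero l] (u : St d l × Fin N) (k : TS d l N) :
    (flwT κ d l N).t u k = tt (fun z => k (u.1, z)) u.2 := rfl

variable {d l : ℕ} [NeZero l] {G : Type*} [Group G] [TopologicalSpace G] [IsTopologicalGroup G]
  [CompactSpace G] [SecondCountableTopology G] [MeasurableSpace G] [BorelSpace G]
  {N n : ℕ} {L : LD G N n} {j : Fin d} {t : ZMod l}

/-- the maximal torus of `SU(N)` in `G` -/
structure Trs (L : LD G N n) where
  dg : (Fin N × Fin N → Circle) → G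
  dg_cont : Continuous dg
  rho_dg : ∀ z, L.rho (dg z) = Matrix.diagonal (fun p => tt z p)

variable (V : Trs L)

/-- multiplication of the vertical links of a slab by elements of the torus -/
def mkT (j : Fin d) (t : ZMod l) (k : TS d l N) (U : Ed d l → G) : Ed d l → G :=
  fun e => if vt j t e then V.dg (fun z => k (e.1, z)) * U e else U e

lemma mkT_v (k : TS d l N) (U : Ed d l → G) {x : St d l} (h : x j = t) :
    mkT V j t k U (x, j) = V.dg (fun z => k (x, z)) * U (x, j) := by
  unfold mkT
  rw [if_pos ⟨rfl, h⟩]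

lemma mkT_h (k : TS d l N) (U : Ed d l → G) {x : St d l} {i : Fin d} (h : i ≠ j) :
    mkT V j t k U (x, i) = U (x, i) := by
  unfold mkT
  rw [if_neg (fun h' => h h'.1)]

lemma mkT_cont : Continuous fun z : TS d l N × (Ed d l → G) => mkT V j t z.1 z.2 := by
  refine continuous_pi fun e => ?_
  unfold mkT
  split_ifs
  · refine Continuous.mul (V.dg_cont.comp ?_) ((continuous_apply e).comp continuous_snd)
    exact continuous_pi fun p => (continuous_apply (e.1, p)).comp continuous_fst
  · exact (continuous_apply e).comp continuous_snd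

/-- the diagonal matrix of a site -/
def Dg (k : TS d l N) (x : St d l) : Mat N := Matrix.diagonal (fun p => tt (fun z => k (x, z)) p)

lemma rho_mkT (k : TS d l N) (U : Ed d l → G) {x : St d l} (h : x j = t) :
    L.rho (mkT V j t k U (x, j)) = Dg k x * L.rho (U (x, j)) := by
  rw [mkT_v V k U h, map_mul, V.rho_dg]
  rfl

lemma Dg_ct (k : TS d l N) (x : St d l) :
    (Dg k x)ᴴ = Matrix.diagonal (fun p => conj (tt (fun z => k (x, z)) p)) := by
  unfold Dg
  rw [Matrix.diagonal_conjTranspose]
  rfl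

/-- the trace of a product with two diagonal matrices -/
lemma tr_diag (a b : Fin N → ℂ) (A B : Mat N) :
    trace (Matrix.diagonal a * A * Matrix.diagonal b * B) = ∑ p, ∑ q, a p * A p q * b q * B q p := by
  unfold trace
  refine Finset.sum_congr rfl fun p _ => ?_
  rw [Matrix.diag_apply, Matrix.mul_apply]
  refine Finset.sum_congr rfl fun q _ => ?_
  rw [Matrix.mul_diagonal, Matrix.diagonal_mul]

lemma rt_mkT (k : TS d l N) (U : Ed d l → G) (e : Ih j t) :
    rt L (plqT (mkT V j t k U) e.1.1 j e.1.2) =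
      ∑ p, ∑ q, ((Am L j U e.1 p q * Bm L U e.1 q p) * tt (fun z => k (e.1.1, z)) p *
        conj (tt (fun z => k (e.1.1 + eT e.1.2, z)) q)).re := by
  obtain ⟨⟨x, i⟩, hi, hx⟩ := e
  simp only at hi hx
  have hy : (x + eT i : St d l) j = t := by rw [add_ne x hi, hx]
  unfold plqT Am Bm rt
  simp only
  rw [mkT_v V k U hx, mkT_v V k U hy, mkT_h V k U hi, mkT_h V k U hi]
  have h1 : V.dg (fun z => k (x, z)) * U (x, j) * U (x + eT j, i) *
      (V.dg (fun z => k (x + eT i, z)) * U (x + eT i, j))⁻¹ * (U (x, i))⁻¹ =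
      V.dg (fun z => k (x, z)) * (U (x, j) * U (x + eT j, i) * (U (x + eT i, j))⁻¹) *
        (V.dg (fun z => k (x + eT i, z)))⁻¹ * (U (x, i))⁻¹ := by group
  rw [h1, map_mul, map_mul, map_mul, L.rho_inv (V.dg _), V.rho_dg, V.rho_dg,
    Matrix.diagonal_conjTranspose, tr_diag, Complex.re_sum]
  refine Finset.sum_congr rfl fun p _ => ?_
  rw [Complex.re_sum]
  refine Finset.sum_congr rfl fun q _ => ?_
  congr 1
  show _ * _ * conj _ * _ = _
  ring

/-- the couplings of the bonds -/
def cT (J : Ed d l → ℝ) (U : Ed d l → G) (e : Bd (Fin N) j t) : ℂ :=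
  J e.1.1 * (Am L j U e.1.1 e.2.1 e.2.2 * Bm L U e.1.1 e.2.2 e.2.1)

/-- the bounds of the couplings -/
def MT (L : LD G N n) (J : Ed d l → ℝ) (U : Ed d l → G) (e : Bd (Fin N) j t) : ℝ :=
  |J e.1.1| * (‖Am L j U e.1.1 e.2.1 e.2.2‖ * ‖Bm L U e.1.1 e.2.2 e.2.1‖)

lemma cT_norm (J : Ed d l → ℝ) (U : Ed d l → G) (e : Bd (Fin N) j t) :
    ‖cT (L := L) J U e‖ ≤ MT L J U e := by
  unfold cT MT
  rw [norm_mul, norm_mul, Complex.norm_real, Real.norm_eq_abs]

lemma HS_mkT (J : Ed d l → ℝ) (k : TS d l N) (U : Ed d l → G) :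
    HS L j t J (mkT V j t k U) = Ec (flwT κ d l N) (bs (P := Fin N) (j := j) (t := t)) bt
      (cT (L := L) J U) k := by
  unfold HS Ec
  rw [Fintype.sum_prod_type]
  refine Finset.sum_congr rfl fun e _ => ?_
  rw [rt_mkT, Finset.mul_sum, Fintype.sum_prod_type]
  refine Finset.sum_congr rfl fun p _ => ?_
  rw [Finset.mul_sum]
  refine Finset.sum_congr rfl fun q _ => ?_
  unfold cT bs bt
  simp only
  rw [← Complex.re_ofReal_mul, flwT_t, flwT_t]
  congr 1
  ring

lemma row_one {A : Mat N} (hA : A * Aᴴ = 1) (p : Fin N) : ∑ q, ‖A p q‖ ^ 2 = 1 := by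
  have h1 := congrFun (congrFun hA p) p
  rw [Matrix.mul_apply, Matrix.one_apply_eq] at h1
  have h2 := congrArg Complex.re h1
  rw [Complex.re_sum, Complex.one_re] at h2
  rw [← h2]
  refine Finset.sum_congr rfl fun q _ => ?_
  rw [Matrix.conjTranspose_apply]
  show _ = (A p q * conj (A p q)).re
  rw [Complex.mul_conj, Complex.ofReal_re, Complex.normSq_eq_norm_sq]

lemma col_one {A : Mat N} (hA : Aᴴ * A = 1) (q : Fin N) : ∑ p, ‖A p q‖ ^ 2 = 1 := by
  have h1 := congrFun (congrFun hA q) q
  rw [Matrix.mul_apply, Matrix.one_apply_eq] at h1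
  have h2 := congrArg Complex.re h1
  rw [Complex.re_sum, Complex.one_re] at h2
  rw [← h2]
  refine Finset.sum_congr rfl fun p _ => ?_
  rw [Matrix.conjTranspose_apply]
  show _ = (conj (A p q) * A p q).re
  rw [mul_comm, Complex.mul_conj, Complex.ofReal_re, Complex.normSq_eq_norm_sq]

lemma sum_qT (U : Ed d l → G) (e : Ed d l) (p : Fin N) :
    ∑ q, ‖Am L j U e p q‖ * ‖Bm L U e q p‖ ≤ 1 := by
  have h := cs_sum (fun q => ‖Am L j U e p q‖) (fun q => ‖Bm L U e q p‖) zero_le_one zero_le_one
    (by rw [one_pow]; exact (row_one (L.unit _) p).le)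
    (by rw [one_pow]; exact (col_one (rho_unit' _) p).le)
  rwa [mul_one] at h

lemma sum_pT (U : Ed d l → G) (e : Ed d l) (q : Fin N) :
    ∑ p, ‖Am L j U e p q‖ * ‖Bm L U e q p‖ ≤ 1 := by
  have h := cs_sum (fun p => ‖Am L j U e p q‖) (fun p => ‖Bm L U e q p‖) zero_le_one zero_le_one
    (by rw [one_pow]; exact (col_one (rho_unit' _) q).le)
    (by rw [one_pow]; exact (row_one (L.unit _) q).le)
  rwa [mul_one] at h

lemma row_sumT {J : Ed d l → ℝ} {β : ℝ} (hJ : ∀ e : Ih j t, |J e.1| ≤ β) (U : Ed d l → G)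
    {f : St d l → ℝ} (hf : ∀ z, 0 ≤ f z) (a : St d l × Fin N) :
    rs (bs (P := Fin N) (j := j) (t := t)) bt (MT L J U) f a ≤
      if a.1 j = t then β * ∑ i, (if i ≠ j then f (a.1 + eT i) + f (a.1 - eT i) else 0)
        else 0 := by
  obtain ⟨z, p0⟩ := a
  rw [← sum_nbr (j := j) (t := t) (β := β) (f := f) z]
  unfold rs
  rw [Fintype.sum_prod_type]
  refine Finset.sum_le_sum fun e _ => ?_
  have hβ0 : 0 ≤ β := (abs_nonneg _).trans (hJ e)
  rw [Fintype.sum_prod_type]
  simp only [Finset.sum_add_distrib]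
  have key : ∀ {c w : ℝ} , c ≤ 1 → 0 ≤ w → |J e.1| * c * w ≤ β * w := by
    intro c w hc hw
    refine mul_le_mul_of_nonneg_right ?_ hw
    exact (mul_le_of_le_one_right (abs_nonneg _) hc).trans (hJ e)
  refine add_le_add ?_ ?_
  · by_cases hx : e.1.1 = z
    · rw [if_pos hx]
      have e1 : ∑ p, ∑ q, (if bs (e, p, q) = (z, p0) then MT L J U (e, p, q) *
          f (bt (e, p, q)).1 else 0) =
          |J e.1| * (∑ q, ‖Am L j U e.1 p0 q‖ * ‖Bm L U e.1 q p0‖) *
            f (e.1.1 + eT e.1.2) := by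
        rw [Finset.sum_eq_single p0]
        · rw [Finset.mul_sum, Finset.sum_mul]
          refine Finset.sum_congr rfl fun q _ => ?_
          rw [if_pos (by unfold bs; simp only; rw [hx])]
          rfl
        · intro p _ hp
          refine Finset.sum_eq_zero fun q _ => ?_
          rw [if_neg]
          unfold bs
          simp only [Prod.mk.injEq, not_and]
          exact fun _ => hp
        · intro h; exact absurd (Finset.mem_univ _) h
      rw [e1]
      exact key (sum_qT U e.1 p0) (hf _)
    · rw [if_neg hx]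
      refine le_of_eq (Finset.sum_eq_zero fun p _ => Finset.sum_eq_zero fun q _ => ?_)
      rw [if_neg]
      unfold bs
      simp only [Prod.mk.injEq, not_and]
      exact fun h => absurd h hx
  · by_cases hx : e.1.1 + eT e.1.2 = z
    · rw [if_pos hx]
      have e1 : ∑ p, ∑ q, (if bt (e, p, q) = (z, p0) then MT L J U (e, p, q) *
          f (bs (e, p, q)).1 else 0) =
          |J e.1| * (∑ p, ‖Am L j U e.1 p p0‖ * ‖Bm L U e.1 p0 p‖) *
            f e.1.1 := by
        rw [Finset.mul_sum, Finset.sum_mul]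
        refine Finset.sum_congr rfl fun p _ => ?_
        rw [Finset.sum_eq_single p0]
        · rw [if_pos (by unfold bt; simp only; rw [hx])]
          rfl
        · intro q _ hq
          rw [if_neg]
          unfold bt
          simp only [Prod.mk.injEq, not_and]
          exact fun _ => hq
        · intro h; exact absurd (Finset.mem_univ _) h
      rw [e1]
      exact key (sum_pT U e.1 p0) (hf _)
    · rw [if_neg hx]
      refine le_of_eq (Finset.sum_eq_zero fun p _ => Finset.sum_eq_zero fun q _ => ?_)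
      rw [if_neg]
      unfold bt
      simp only [Prod.mk.injEq, not_and]
      exact fun h => absurd h hx

lemma frob_sq (A : Mat N) : ‖A‖ ^ 2 = ∑ p, ∑ q, ‖A p q‖ ^ 2 := by
  rw [norm_sq_ip, ip_apply]
  unfold trace
  rw [Complex.re_sum, Finset.sum_comm]
  refine Finset.sum_congr rfl fun q _ => ?_
  rw [Matrix.diag_apply, Matrix.mul_apply, Complex.re_sum]
  refine Finset.sum_congr rfl fun p _ => ?_
  rw [Matrix.conjTranspose_apply]
  show (conj (A p q) * A p q).re = _
  rw [mul_comm, Complex.mul_conj, Complex.ofReal_re, Complex.normSq_eq_norm_sq]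

lemma Dg_cont (x : St d l) : Continuous fun k : TS d l N => Dg k x := by
  unfold Dg
  refine Continuous.matrix_diagonal ?_
  have h1 : Continuous fun (k : TS d l N) (z : Fin N × Fin N) => k (x, z) :=
    continuous_pi fun z => continuous_apply _
  exact continuous_pi fun p => (tt_cont p).comp h1

/-- **The norm of the operator of a slab**, from the two-point functions of the torus. -/
theorem slab_T {J : Ed d l → ℝ} {x y : St d l} (hx : x j = t) (hy : y j = t) (U : Ed d l → G)
    {C : ℝ} (hC : 0 ≤ C) (h : ∀ p q, ‖Tc (flwT κ d l N) (bs (P := Fin N) (j := j) (t := t)) bt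
      (cT (L := L) J U) (dn (up 0 (x, p)) (y, q))‖ ≤
        C * Zc (flwT κ d l N) (bs (P := Fin N) (j := j) (t := t)) bt (cT (L := L) J U)) :
    ‖∫ k : TS d l N, Real.exp (HS L j t J (mkT V j t k U)) •
      cj (L.rho (mkT V j t k U (x, j))) (L.rho (mkT V j t k U (y, j)))
        ∂(MP κ (St d l × (Fin N × Fin N)))‖ ≤
      C * ∫ k : TS d l N, Real.exp (HS L j t J (mkT V j t k U))
        ∂(MP κ (St d l × (Fin N × Fin N))) := by
  obtain ⟨Z, hZd⟩ : ∃ Z, Z = Zc (flwT κ d l N) (bs (P := Fin N) (j := j) (t := t)) bt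
    (cT (L := L) J U) := ⟨_, rfl⟩
  have hmk : Continuous fun k : TS d l N => mkT V j t k U :=
    (mkT_cont V).comp (Continuous.prodMk continuous_id continuous_const)
  have hE : Continuous fun k : TS d l N => Real.exp (HS L j t J (mkT V j t k U)) :=
    Real.continuous_exp.comp ((HS_cont J).comp hmk)
  have hZ : ∫ k : TS d l N, Real.exp (HS L j t J (mkT V j t k U))
      ∂(MP κ (St d l × (Fin N × Fin N))) = Z := by
    rw [hZd]
    unfold Zc
    simp only [HS_mkT κ V]
  have hZ0 : 0 < Z := by rw [hZd]; exact Zc_pos _ _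
  rw [← hZd] at h
  rw [hZ]
  refine ContinuousLinearMap.opNorm_le_bound _ (mul_nonneg hC hZ0.le) fun M => ?_
  obtain ⟨Y, hY⟩ : ∃ Y : Mat N, Y = L.rho (U (x, j)) * ofF M * (L.rho (U (y, j)))ᴴ := ⟨_, rfl⟩
  have hYn : ‖Y‖ = ‖M‖ := by
    rw [hY, norm_ctmul, norm_lmul, norm_ofF]
  have hcj : Continuous fun k : TS d l N =>
      Real.exp (HS L j t J (mkT V j t k U)) •
        cj (L.rho (mkT V j t k U (x, j))) (L.rho (mkT V j t k U (y, j))) :=
    hE.smul (cj_cont (L.cont.comp (continuous_pi_iff.1 hmk _))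
      (L.cont.comp (continuous_pi_iff.1 hmk _)))
  rw [ContinuousLinearMap.integral_apply (int_cont _ hcj) M]
  have hFc : Continuous fun k : TS d l N =>
      Real.exp (HS L j t J (mkT V j t k U)) • (Dg k x * Y * (Dg k y)ᴴ) :=
    hE.smul (((Dg_cont x).mul continuous_const).mul (Dg_cont y).matrix_conjTranspose)
  have h1 : ∫ k : TS d l N, (Real.exp (HS L j t J (mkT V j t k U)) •
      cj (L.rho (mkT V j t k U (x, j))) (L.rho (mkT V j t k U (y, j)))) M
        ∂(MP κ (St d l × (Fin N × Fin N))) =
      ∫ k : TS d l N, toF (Real.exp (HS L j t J (mkT V j t k U)) •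
        (Dg k x * Y * (Dg k y)ᴴ)) ∂(MP κ (St d l × (Fin N × Fin N))) := by
    refine integral_congr_ae (Filter.Eventually.of_forall fun k => ?_)
    show toF (Real.exp _ • (L.rho _ * ofF M * (L.rho _)ᴴ)) = _
    rw [rho_mkT V k U hx, rho_mkT V k U hy, conjTranspose_mul, hY]
    congr 2
    noncomm_ring
  rw [h1]
  obtain ⟨R, hR⟩ : ∃ R : Mat N, R = ofF (∫ k : TS d l N,
      toF (Real.exp (HS L j t J (mkT V j t k U)) •
        (Dg k x * Y * (Dg k y)ᴴ)) ∂(MP κ (St d l × (Fin N × Fin N)))) := ⟨_, rfl⟩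
  rw [← norm_ofF, ← hR]
  rw [integral_FM hFc] at hR
  have h2 : ‖R‖ ^ 2 = ∑ p, ∑ q, (Y p q * conj (R p q) *
      Tc (flwT κ d l N) (bs (P := Fin N) (j := j) (t := t)) bt
      (cT (L := L) J U) (dn (up 0 (x, p)) (y, q))).re := by
    rw [norm_sq_ip]
    have hRR := congrArg (ip R) hR
    rw [ip_mint R hFc] at hRR
    rw [hRR]
    have h3 : ∀ k : TS d l N, ip R (Real.exp (HS L j t J (mkT V j t k U)) •
        (Dg k x * Y * (Dg k y)ᴴ)) = ∑ p, ∑ q,
        ((Y p q * conj (R p q)) * (ch (flwT κ d l N) (dn (up 0 (x, p)) (y, q)) k *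
          (Real.exp (Ec (flwT κ d l N) (bs (P := Fin N) (j := j) (t := t)) bt
            (cT (L := L) J U) k) : ℝ))).re := by
      intro k
      rw [map_smul, smul_eq_mul, HS_mkT κ V, ip_apply, trace_mul_comm, Dg_ct]
      unfold Dg
      rw [tr_diag, Complex.re_sum, Finset.mul_sum]
      refine Finset.sum_congr rfl fun p _ => ?_
      rw [Complex.re_sum, Finset.mul_sum]
      refine Finset.sum_congr rfl fun q _ => ?_
      rw [← Complex.re_ofReal_mul, ch_dn, ch_up, Matrix.conjTranspose_apply]
      congr 1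
      have e1 : ch (flwT κ d l N) 0 k = 1 := by
        unfold ch
        simp
      have e2 : star (R p q) = conj (R p q) := rfl
      rw [e1, flwT_t, flwT_t, e2]
      ring
    simp only [h3]
    have hi : ∀ p q, Integrable (fun k : TS d l N =>
        ((Y p q * conj (R p q)) * (ch (flwT κ d l N) (dn (up 0 (x, p)) (y, q)) k *
          (Real.exp (Ec (flwT κ d l N) (bs (P := Fin N) (j := j) (t := t)) bt
            (cT (L := L) J U) k) : ℝ)))) (MP κ (St d l × (Fin N × Fin N))) := fun p q =>
      (Tc_int (flwT κ d l N) _ _).const_mul _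
    have hi' : ∀ p q, Integrable (fun k : TS d l N =>
        ((Y p q * conj (R p q)) * (ch (flwT κ d l N) (dn (up 0 (x, p)) (y, q)) k *
          (Real.exp (Ec (flwT κ d l N) (bs (P := Fin N) (j := j) (t := t)) bt
            (cT (L := L) J U) k) : ℝ))).re) (MP κ (St d l × (Fin N × Fin N))) := fun p q =>
      (hi p q).re
    rw [integral_finsetSum _ (fun p _ => integrable_finsetSum _ fun q _ => hi' p q)]
    refine Finset.sum_congr rfl fun p _ => ?_
    rw [integral_finsetSum _ (fun q _ => hi' p q)]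
    refine Finset.sum_congr rfl fun q _ => ?_
    have h4 := integral_re (hi p q)
    have h5 : ∀ z : ℂ, RCLike.re z = z.re := fun z => rfl
    simp only [h5] at h4
    rw [h4, integral_const_mul]
    rfl
  have h4 : ‖R‖ ^ 2 ≤ C * Z * (‖Y‖ * ‖R‖) := by
    rw [h2]
    have h5 : ∀ p q, (Y p q * conj (R p q) *
        Tc (flwT κ d l N) (bs (P := Fin N) (j := j) (t := t)) bt
        (cT (L := L) J U) (dn (up 0 (x, p)) (y, q))).re ≤ C * Z * (‖Y p q‖ * ‖R p q‖) := by
      intro p q
      refine (Complex.re_le_norm _).trans ?_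
      rw [norm_mul, norm_mul, RCLike.norm_conj]
      have := mul_le_mul_of_nonneg_left (h p q)
        (mul_nonneg (norm_nonneg (Y p q)) (norm_nonneg (R p q)))
      refine this.trans (le_of_eq ?_)
      ring
    refine (Finset.sum_le_sum fun p _ => Finset.sum_le_sum fun q _ => h5 p q).trans ?_
    simp only [← Finset.mul_sum]
    refine mul_le_mul_of_nonneg_left ?_ (mul_nonneg hC hZ0.le)
    have h6 := cs_sum (fun z : Fin N × Fin N => ‖Y z.1 z.2‖)
      (fun z : Fin N × Fin N => ‖R z.1 z.2‖) (norm_nonneg Y) (norm_nonneg R) (by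
        rw [Fintype.sum_prod_type, frob_sq]) (by
        rw [Fintype.sum_prod_type, frob_sq])
    rw [Fintype.sum_prod_type] at h6
    exact h6
  rcases (norm_nonneg R).eq_or_lt with h0 | h0
  · rw [← h0]
    have := mul_nonneg hC hZ0.le
    positivity
  · rw [hYn] at h4
    have h7 : ‖R‖ * ‖R‖ ≤ (C * Z * ‖M‖) * ‖R‖ := by nlinarith
    exact le_of_mul_le_mul_right h7 h0

end

end Pool.Agent.T2h21.YM
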