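import Mathlib
import Pool.Agent.T2h21.YM.Inst
import Pool.Agent.T2h21.YM.SlT

/-!
# Rotation blocks, and the maximal torus of `SU(N)`
-/

open MeasureTheory Matrix
open scoped Matrix.Norms.Frobenius ContDiff RealInnerProductSpace ComplexConjugate Quaternion
open Pool.Agent.H906R3.YM hiding Pl
open Pool.Agent.W793.YM Pool.Agent.TH618.YM Pool.Agent.TH190.YV

namespace Pool.Agent.T2h21.YM

set_option linter.unusedSectionVars false
set_option linter.unusedVariables false

noncomputable section

/-- a quaternion -/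
def rq0 (a b : ℝ) : ℍ[ℝ] := ⟨a, 0, b, 0⟩

lemma rq0_re (a b : ℝ) : (rq0 a b).re = a := rfl
lemma rq0_imI (a b : ℝ) : (rq0 a b).imI = 0 := rfl
lemma rq0_imJ (a b : ℝ) : (rq0 a b).imJ = b := rfl
lemma rq0_imK (a b : ℝ) : (rq0 a b).imK = 0 := rfl

/-- the rotations as quaternions -/
def rE : ℂ →ₗ[ℝ] ℍ[ℝ] where
  toFun v := rq0 v.re v.im
  map_add' v w := by
    apply QuaternionAlgebra.ext
    · rw [Quaternion.re_add, rq0_re, rq0_re, rq0_re, Complex.add_re]
    · rw [Quaternion.imI_add, rq0_imI, rq0_imI, rq0_imI, add_zero]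
    · rw [Quaternion.imJ_add, rq0_imJ, rq0_imJ, rq0_imJ, Complex.add_im]
    · rw [Quaternion.imK_add, rq0_imK, rq0_imK, rq0_imK, add_zero]
  map_smul' c v := by
    apply QuaternionAlgebra.ext
    · rw [Quaternion.re_smul, rq0_re, rq0_re, Complex.smul_re]; rfl
    · rw [Quaternion.imI_smul, rq0_imI, rq0_imI, smul_zero]
    · rw [Quaternion.imJ_smul, rq0_imJ, rq0_imJ, Complex.smul_im]; rfl
    · rw [Quaternion.imK_smul, rq0_imK, rq0_imK, smul_zero]

lemma rE_re (v : ℂ) : (rE v).re = v.re := rfl
lemma rE_imI (v : ℂ) : (rE v).imI = 0 := rfl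
lemma rE_imJ (v : ℂ) : (rE v).imJ = v.im := rfl
lemma rE_imK (v : ℂ) : (rE v).imK = 0 := rfl

lemma rE_norm (v : ℂ) : ‖rE v‖ = ‖v‖ := by
  have h1 : ‖rE v‖ * ‖rE v‖ = ‖v‖ * ‖v‖ := by
    rw [← Quaternion.normSq_eq_norm_mul_self, Quaternion.normSq_def', Complex.norm_mul_self_eq_normSq,
      Complex.normSq_apply, rE_re, rE_imI, rE_imJ, rE_imK]
    ring
  exact (mul_self_inj (norm_nonneg _) (norm_nonneg _)).1 h1

lemma rE_cont : Continuous rE := LinearMap.continuous_of_finiteDimensional rE

/-- the rotations as unit quaternions -/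
def rQ (z : Circle) : UQ := ⟨rE (z : ℂ), by
  rw [mem_UQ, rE_re, rE_imI, rE_imJ, rE_imK]
  have h := Circle.normSq_coe z
  rw [Complex.normSq_apply] at h
  linarith⟩

lemma rQ_io (z : Circle) : quatSpin.io (rQ z) = rE (z : ℂ) := rfl

variable {N n : ℕ} {G : Subgroup (UN N)} (π : Fin N → Fin N)

lemma pM_im (p q : Fin N) {z w : ℂ} (hz : z.im = 0) (hw : w.im = 0) (a b : Fin N) :
    (pM p q z w a b).im = 0 := by
  rw [pM_apply]
  have e1 : (-conj w).im = 0 := by rw [Complex.neg_im, Complex.conj_im, hw]; simp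
  have e2 : (conj z).im = 0 := by rw [Complex.conj_im, hz]; simp
  have h : ∀ (c : Prop) [Decidable c] (v : ℂ), v.im = 0 → (if c then v else 0).im = 0 := by
    intro c _ v hv
    split_ifs
    · exact hv
    · rfl
  rw [Complex.add_im, Complex.add_im, Complex.add_im, h _ _ hz, h _ _ hw, h _ _ e1, h _ _ e2]
  simp

/-- groups with all the rotations of the pairs -/
def blkRot (B : Frame G n) (h1 : ∀ a, π (π a) = a) (h2 : ∀ a, π a ≠ a)
    (hG : ∀ u : UN N, (∀ a b, ((u : Mat N) a b).im = 0) →
      (∀ a b, b ≠ a → b ≠ π a → (u : Mat N) a b = 0) →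
      (∀ a, (u : Mat N) a a * (u : Mat N) (π a) (π a) -
        (u : Mat N) a (π a) * (u : Mat N) (π a) a = 1) → u ∈ G) :
    Blk B.toLD circleSpin (Fin N) 2 where
  E p := (pE π p).comp rE
  Q := pQ π
  Qh := pQh π
  Qm := pQQ π
  Qs := pQ_sum π h1 h2
  Qt p := by
    unfold pQ
    split_ifs
    · rw [pM_one, trace_add, Matrix.trace_single_eq_same, Matrix.trace_single_eq_same]
      norm_num
    · rw [trace_zero]; norm_num
  EQ p v := pEQ π p (rE v)
  QE p v := pQE π p (rE v)
  EE p v := by
    show (pE π p (rE v))ᴴ * pE π p (rE v) = _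
    rw [pE_EE, rE_norm]
  emb k := ⟨pU π h1 h2 (fun p => rQ (k p)), by
    have hent := pE_ent π h1 h2 fun p => quatSpin.io (rQ (k p))
    have hn : ∀ p, qz (quatSpin.io (rQ (k p))) * conj (qz (quatSpin.io (rQ (k p)))) +
        qw (quatSpin.io (rQ (k p))) * conj (qw (quatSpin.io (rQ (k p)))) = 1 := by
      intro p
      rw [qnorm, quatSpin.nrm]; simp
    have hz : ∀ p, (qz (quatSpin.io (rQ (k p)))).im = 0 := fun p => rfl
    have hw : ∀ p, (qw (quatSpin.io (rQ (k p)))).im = 0 := fun p => rfl
    refine hG _ (fun a b => ?_) (fun a b hb hb' => ?_) fun a => ?_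
    · show ((∑ p, pE π p (quatSpin.io (rQ (k p)))) a b).im = 0
      rw [hent]
      split_ifs
      · exact pM_im _ _ (hz _) (hw _) _ _
      · exact pM_im _ _ (hz _) (hw _) _ _
    · show (∑ p, pE π p (quatSpin.io (rQ (k p)))) a b = 0
      rw [hent]
      split_ifs
      · rw [pM_apply]
        simp [hb.symm, hb'.symm]
      · rw [pM_apply]
        simp [hb.symm, hb'.symm]
    · show (∑ p, pE π p (quatSpin.io (rQ (k p)))) a a *
        (∑ p, pE π p (quatSpin.io (rQ (k p)))) (π a) (π a) -
        (∑ p, pE π p (quatSpin.io (rQ (k p)))) a (π a) *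
          (∑ p, pE π p (quatSpin.io (rQ (k p)))) (π a) a = 1
      have ha := h2 a
      rw [hent, hent, hent a (π a), hent (π a) a]
      rw [h1]
      by_cases h : a < π a
      · have h' : ¬π a < a := lt_asymm h
        simp only [if_pos h, if_neg h', pM_apply]
        simp only [ha, ha.symm, and_true, and_false, if_true, if_false, add_zero,
          zero_add, and_self]
        have := hn a
        linear_combination this
      · have h' : π a < a := lt_of_le_of_ne (not_lt.1 h) ha
        simp only [if_neg h, if_pos h', pM_apply]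
        simp only [ha, ha.symm, and_true, and_false, if_true, if_false, add_zero,
          zero_add, and_self]
        have := hn (π a)
        linear_combination this⟩
  emb_cont := by
    refine Continuous.subtype_mk (Continuous.subtype_mk ?_ _) _
    refine continuous_finsetSum _ fun p _ => ?_
    have h1 : Continuous fun v : ℍ[ℝ] => pE π p v :=
      LinearMap.continuous_of_finiteDimensional (pE π p)
    exact h1.comp (rE_cont.comp (continuous_subtype_val.comp (continuous_apply p)))
  rho_emb k := rfl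

lemma prod_tt (z : Fin N × Fin N → Circle) : ∏ p, tt z p = 1 := by
  unfold tt
  simp only [Finset.prod_mul_distrib]
  rw [Finset.prod_comm (f := fun p q => conj (z (q, p) : ℂ)), ← Finset.prod_mul_distrib]
  refine Finset.prod_eq_one fun p _ => ?_
  rw [← Finset.prod_mul_distrib]
  exact Finset.prod_eq_one fun q _ => circ_conj _

/-- groups with all the diagonal matrices of determinant one -/
def trsOf (B : Frame G n) (hG : ∀ u : UN N, (∀ a b, a ≠ b → (u : Mat N) a b = 0) →
    ∏ a, (u : Mat N) a a = 1 → u ∈ G) : Trs B.toLD where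
  dg z := ⟨⟨Matrix.diagonal (fun p => tt z p), by
    rw [Matrix.mem_unitaryGroup_iff, Matrix.star_eq_conjTranspose, Matrix.diagonal_conjTranspose,
      Matrix.diagonal_mul_diagonal, ← Matrix.diagonal_one]
    congr 1
    funext p
    show tt z p * conj (tt z p) = 1
    rw [Complex.mul_conj, Complex.normSq_eq_norm_sq, tt_norm]
    simp⟩, hG _ (fun a b h => Matrix.diagonal_apply_ne _ h) (by
      have h : ∀ a, (Matrix.diagonal (fun p => tt z p) : Mat N) a a = tt z a := fun a =>
        Matrix.diagonal_apply_eq _ _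
      show ∏ a, (Matrix.diagonal (fun p => tt z p) : Mat N) a a = 1
      simp only [h]
      exact prod_tt z)⟩
  dg_cont := by
    refine Continuous.subtype_mk (Continuous.subtype_mk ?_ _) _
    exact Continuous.matrix_diagonal (continuous_pi fun p => tt_cont p)
  rho_dg z := rfl

end

end Pool.Agent.T2h21.YM
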