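import Mathlib
import Pool.Agent.TH190.YV.SlabM
import Pool.Agent.TH618.YM.Pot

/-!
# The expectation of the plaquette is positive
-/

open MeasureTheory Matrix
open scoped Matrix.Norms.Frobenius ContDiff
open Pool.Agent.H906R3.YM hiding Pl
open Pool.Agent.W793.YM Pool.Agent.TH618.YM Pool.Agent.TH190.YV

namespace Pool.Agent.T2h21.YM

set_option linter.unusedSectionVars false
set_option linter.unusedVariables false

noncomputable section

variable {d l : ℕ} [NeZero l] {G : Type*} [Group G] [TopologicalSpace G] [IsTopologicalGroup G]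
  [CompactSpace G] [SecondCountableTopology G] [MeasurableSpace G] [BorelSpace G] (μ : Measure G)
  [IsProbabilityMeasure μ] [μ.IsMulLeftInvariant] [μ.IsMulRightInvariant] [μ.IsInvInvariant]
  {N n : ℕ} {L : LD G N n}

/-- integration over one link first -/
lemma one_link (f : Ed d l) {F : (Ed d l → G) → ℝ} (hF : Continuous F) :
    ∫ U, ∫ g, F (Function.update U f g) ∂μ ∂(ME μ (Ed d l)) = ∫ U, F U ∂(ME μ (Ed d l)) := by
  rw [← integral_mixp μ (fun e => e = f) hF]
  refine integral_congr_ae (Filter.Eventually.of_forall fun U => ?_)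
  simp only
  have h1 : ∀ g : Ed d l → G, mixp (fun e => e = f) g U = Function.update U f (g f) := by
    intro g
    funext e
    unfold mixp
    by_cases h : e = f
    · subst h; simp
    · simp [h]
  simp only [h1]
  have h2 := measurePreserving_eval (fun _ : Ed d l => μ) f
  have hc : Continuous fun g : G => F (Function.update U f g) :=
    hF.comp (continuous_const.update f continuous_id)
  have h3 := integral_map (μ := ME μ (Ed d l)) (φ := Function.eval f)
    (measurable_pi_apply f).aemeasurable (f := fun g => F (Function.update U f g))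
    hc.aestronglyMeasurable
  rw [h2.map_eq] at h3
  exact h3

/-- a function which does not depend on a link -/
lemma dep_update {α : Type*} {f : Ed d l} {R : (Ed d l → G) → α} (hR : Dep (fun e => e ≠ f) R)
    (U : Ed d l → G) (g : G) : R (Function.update U f g) = R U :=
  hR _ _ fun e he => Function.update_of_ne he _ _

variable (L) in
/-- the sum of the traces of the plaquettes which contain the link `(y, i)` -/
def Xf (y : St d l) (i : Fin d) (U : Ed d l → G) : ℝ :=
  ∑ k, if k ≠ i then rt L (plqT U y i k) + rt L (plqT U (y - eT k) i k) else 0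

variable (L) in
/-- the rest of the action -/
def Rf (y : St d l) (i : Fin d) (U : Ed d l → G) : ℝ :=
  ∑ x, aA L i U x + ∑ k, ∑ x, if k ≠ i ∧ x ≠ y ∧ x ≠ y - eT k then we L (plqT U x i k) else 0

lemma eT_ne_zero (hl : 2 ≤ l) (i : Fin d) : (eT i : St d l) ≠ 0 := by
  intro h1
  have h2 := congrFun h1 i
  unfold eT at h2
  rw [Pi.single_eq_same, Pi.zero_apply] at h2
  have : Fact (1 < l) := ⟨by omega⟩
  exact one_ne_zero h2

lemma act_split (hl : 2 ≤ l) (y : St d l) (i : Fin d) (U : Ed d l → G) :
    act L U = Rf L y i U + ∑ k, if k ≠ i then we L (plqT U y i k) +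
      we L (plqT U (y - eT k) i k) else 0 := by
  rw [act_eq i]
  unfold Rf aB
  rw [add_assoc]
  congr 1
  rw [Finset.sum_comm, ← Finset.sum_add_distrib]
  refine Finset.sum_congr rfl fun k _ => ?_
  by_cases hk : k ≠ i
  · simp only [hk, ne_eq, not_false_eq_true, if_true, true_and]
    have hne : y ≠ y - eT k := by
      intro h
      apply eT_ne_zero hl k
      have := congrArg (fun z => y - z) h
      simp only [sub_self, sub_sub_cancel] at this
      exact this.symm
    have e1 : ∀ x : St d l, we L (plqT U x i k) =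
        (if ¬x = y ∧ ¬x = y - eT k then we L (plqT U x i k) else 0) +
        ((if x = y then we L (plqT U y i k) else 0) +
          (if x = y - eT k then we L (plqT U (y - eT k) i k) else 0)) := by
      intro x
      by_cases h1 : x = y
      · subst h1
        simp only [not_true_eq_false, false_and, if_false, if_true, zero_add]
        rw [if_neg hne, add_zero]
      · by_cases h2 : x = y - eT k
        · subst h2
          simp only [not_true_eq_false, and_false, if_false, if_true, zero_add]
          rw [if_neg h1, zero_add]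
        · simp [h1, h2]
    rw [Finset.sum_congr rfl fun x _ => e1 x, Finset.sum_add_distrib, Finset.sum_add_distrib,
      Finset.sum_ite_eq', Finset.sum_ite_eq', if_pos (Finset.mem_univ _),
      if_pos (Finset.mem_univ _)]
  · simp [hk]

lemma act_split' (hl : 2 ≤ l) (y : St d l) (i : Fin d) (U : Ed d l → G) :
    ∃ c : ℝ, c = ∑ k : Fin d, (if k ≠ i then 2 * (N : ℝ) else 0) ∧
      act L U = Rf L y i U + (c - Xf L y i U) := by
  refine ⟨_, rfl, ?_⟩
  rw [act_split hl y i]
  congr 1
  unfold Xf
  rw [← Finset.sum_sub_distrib]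
  refine Finset.sum_congr rfl fun k _ => ?_
  split_ifs
  · rw [rt_we, rt_we]; ring
  · ring

lemma Rf_dep (y : St d l) (i : Fin d) :
    Dep (fun e => e ≠ (y, i)) (Rf L y i : (Ed d l → G) → ℝ) := by
  intro U U' h
  have hh : ∀ z k, k ≠ i → U (z, k) = U' (z, k) := fun z k hk => h _ fun h' =>
    hk (Prod.ext_iff.1 h').2
  unfold Rf
  congr 1
  · exact Finset.sum_congr rfl fun x _ => aA_congr fun z k hk _ => hh z k hk
  · refine Finset.sum_congr rfl fun k _ => Finset.sum_congr rfl fun x _ => ?_
    split_ifs with hx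
    · obtain ⟨hk, h1, h2⟩ := hx
      have e1 : U (x, i) = U' (x, i) := h _ fun h' => h1 (Prod.ext_iff.1 h').1
      have e2 : U (x + eT k, i) = U' (x + eT k, i) := h _ fun h' => h2 (by
        have := (Prod.ext_iff.1 h').1
        simp only at this
        rw [← this]; abel)
      rw [plqT_congr e1 (hh _ _ hk) e2 (hh _ _ hk)]
    · rfl

lemma Xf_cont (y : St d l) (i : Fin d) : Continuous (Xf L y i : (Ed d l → G) → ℝ) := by
  unfold Xf
  refine continuous_finsetSum _ fun k _ => ?_
  split_ifs
  · exact (rt_cont.comp (plqT_cont _ _ _)).add (rt_cont.comp (plqT_cont _ _ _))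
  · exact continuous_const

lemma Rf_cont (y : St d l) (i : Fin d) : Continuous (Rf L y i : (Ed d l → G) → ℝ) := by
  unfold Rf
  refine (continuous_finsetSum _ fun x _ => Sm_cont ⟨_, aA_mem (L := L) i x⟩).add
    (continuous_finsetSum _ fun k _ => continuous_finsetSum _ fun x _ => ?_)
  split_ifs
  · exact we_cont.comp (plqT_cont _ _ _)
  · exact continuous_const

lemma rt_abs (g : G) : |rt L g| ≤ N := by
  rw [abs_le]
  refine ⟨?_, rt_le g⟩
  have h1 := abs_ip_le (1 : Mat N) (L.rho g)
  have h2 : ip 1 (L.rho g) = rt L g := by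
    rw [ip_apply, conjTranspose_one, one_mul]; rfl
  have h3 : ‖L.rho g‖ = ‖(1 : Mat N)‖ := by
    have := norm_lmul (L := L) g (1 : Mat N)
    rwa [mul_one] at this
  rw [h2, h3, ← sq, norm_one_sq] at h1
  linarith [(abs_le.1 h1).1]

lemma Xf_abs (y : St d l) (i : Fin d) (U : Ed d l → G) : |Xf L y i U| ≤ 2 * d * N := by
  unfold Xf
  refine (Finset.abs_sum_le_sum_abs _ _).trans ?_
  have h1 : ∀ k : Fin d, |if k ≠ i then rt L (plqT U y i k) + rt L (plqT U (y - eT k) i k)
      else 0| ≤ 2 * (N : ℝ) := by
    intro k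
    split_ifs
    · refine (abs_add_le _ _).trans ?_
      have a1 := rt_abs (L := L) (plqT U y i k)
      have a2 := rt_abs (L := L) (plqT U (y - eT k) i k)
      linarith
    · rw [abs_zero]; positivity
  refine (Finset.sum_le_sum fun k _ => h1 k).trans (le_of_eq ?_)
  rw [Finset.sum_const, Finset.card_univ, Fintype.card_fin, nsmul_eq_mul]
  ring

/-- a central element without fixed vectors: the representation has mean zero -/
lemma mean_zero {c : G} {z0 : ℂ} (hc : L.rho c = z0 • (1 : Mat N)) (hz0 : z0 ≠ 1) (M : Mat N) :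
    ∫ g, (trace (L.rho g * M)).re ∂μ = 0 := by
  have hcont : Continuous fun g : G => trace (L.rho g * M) :=
    (L.cont.mul continuous_const).matrix_trace
  have h1 : ∫ g, trace (L.rho g * M) ∂μ = 0 := by
    have h2 := integral_mul_left_eq_self (μ := μ) (fun g => trace (L.rho g * M)) c
    have h3 : ∀ g, trace (L.rho (c * g) * M) = z0 * trace (L.rho g * M) := by
      intro g
      rw [map_mul, hc, smul_mul_assoc, one_mul, smul_mul_assoc, trace_smul, smul_eq_mul]
    simp only [h3] at h2
    rw [integral_const_mul] at h2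
    have h4 : (z0 - 1) * ∫ g, trace (L.rho g * M) ∂μ = 0 := by
      rw [sub_mul, one_mul, h2, sub_self]
    rcases mul_eq_zero.1 h4 with h | h
    · exact absurd (sub_eq_zero.1 h) hz0
    · exact h
  have h2 := integral_re (μ := μ) (f := fun g => trace (L.rho g * M))
    (TH190.YV.cont_int hcont)
  have h3 : ∫ g, (trace (L.rho g * M)).re ∂μ = (∫ g, trace (L.rho g * M) ∂μ).re := h2
  rw [h3, h1, Complex.zero_re]

lemma rt_first (U : Ed d l → G) (hl : 2 ≤ l) (y : St d l) {i k : Fin d} (hk : k ≠ i) (g : G) :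
    rt L (plqT (Function.update U (y, i) g) y i k) =
      (trace (L.rho g * L.rho (U (y + eT i, k) * (U (y + eT k, i))⁻¹ * (U (y, k))⁻¹))).re := by
  have h1 : y + eT k ≠ y := by
    intro h
    exact eT_ne_zero hl k (by simpa using h)
  unfold plqT
  rw [Function.update_self, Function.update_of_ne (fun h => hk (Prod.ext_iff.1 h).2),
    Function.update_of_ne (fun h => h1 (Prod.ext_iff.1 h).1),
    Function.update_of_ne (fun h => hk (Prod.ext_iff.1 h).2), ← map_mul]
  unfold rt
  congr 3
  group

lemma rt_second (U : Ed d l → G) (hl : 2 ≤ l) (y : St d l) {i k : Fin d} (hk : k ≠ i) (g : G) :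
    rt L (plqT (Function.update U (y, i) g) (y - eT k) i k) =
      (trace (L.rho g * L.rho ((U (y - eT k + eT i, k))⁻¹ * (U (y - eT k, i))⁻¹ *
        U (y - eT k, k)))).re := by
  have h1 : y - eT k ≠ y := by
    intro h
    exact eT_ne_zero hl k (by simpa using h)
  have h2 : y - eT k + eT k = y := by abel
  rw [← rt_inv, ← rt_conj' (U (y - eT k, k))]
  unfold plqT
  rw [h2, Function.update_self, Function.update_of_ne (fun h => h1 (Prod.ext_iff.1 h).1),
    Function.update_of_ne (fun h => hk (Prod.ext_iff.1 h).2),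
    Function.update_of_ne (fun h => hk (Prod.ext_iff.1 h).2), ← map_mul]
  unfold rt
  congr 3
  group

lemma int_Xf {c : G} {z0 : ℂ} (hc : L.rho c = z0 • (1 : Mat N)) (hz0 : z0 ≠ 1) (hl : 2 ≤ l)
    (y : St d l) (i : Fin d) (U : Ed d l → G) :
    ∫ g, Xf L y i (Function.update U (y, i) g) ∂μ = 0 := by
  unfold Xf
  have hcc : ∀ k : Fin d, Continuous fun g : G => (if k ≠ i then
      rt L (plqT (Function.update U (y, i) g) y i k) +
        rt L (plqT (Function.update U (y, i) g) (y - eT k) i k) else 0) := by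
    intro k
    have hu : Continuous fun g : G => Function.update U (y, i) g :=
      continuous_const.update _ continuous_id
    split_ifs
    · exact (rt_cont.comp ((plqT_cont _ _ _).comp hu)).add
        (rt_cont.comp ((plqT_cont _ _ _).comp hu))
    · exact continuous_const
  rw [integral_finsetSum _ (fun k _ => TH190.YV.cont_int (hcc k))]
  refine Finset.sum_eq_zero fun k _ => ?_
  by_cases hk : k ≠ i
  · simp only [hk, ne_eq, not_false_eq_true, if_true]
    simp only [rt_first U hl y hk, rt_second U hl y hk]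
    have c1 : ∀ M : Mat N, Continuous fun g : G => (trace (L.rho g * M)).re := fun M =>
      Complex.continuous_re.comp (L.cont.mul continuous_const).matrix_trace
    rw [integral_add (TH190.YV.cont_int (c1 _)) (TH190.YV.cont_int (c1 _)),
      mean_zero μ hc hz0, mean_zero μ hc hz0, add_zero]
  · simp [hk]

/-- an elementary inequality -/
lemma elem {x β B : ℝ} (hβ : 0 ≤ β) (hx : |x| ≤ B) :
    β * Real.exp (-(β * B)) * x ^ 2 ≤ x * (1 - Real.exp (-(β * x))) := by
  obtain ⟨h1, h2⟩ := abs_le.1 hx
  rcases le_total 0 x with h0 | h0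
  · have e1 : β * x * Real.exp (-(β * x)) ≤ 1 - Real.exp (-(β * x)) := by
      have e2 := Real.add_one_le_exp (β * x)
      have e3 : Real.exp (β * x) * Real.exp (-(β * x)) = 1 := by
        rw [← Real.exp_add]; simp
      nlinarith [Real.exp_pos (-(β * x))]
    have e4 : Real.exp (-(β * B)) ≤ Real.exp (-(β * x)) := by
      rw [Real.exp_le_exp]; nlinarith
    calc β * Real.exp (-(β * B)) * x ^ 2 ≤ β * Real.exp (-(β * x)) * x ^ 2 :=
          mul_le_mul_of_nonneg_right (mul_le_mul_of_nonneg_left e4 hβ) (sq_nonneg _)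
      _ = x * (β * x * Real.exp (-(β * x))) := by ring
      _ ≤ _ := mul_le_mul_of_nonneg_left e1 h0
  · have e1 : -(β * x) ≤ Real.exp (-(β * x)) - 1 := by
      have := Real.add_one_le_exp (-(β * x)); linarith
    have e4 : Real.exp (-(β * B)) ≤ 1 := by
      rw [Real.exp_le_one_iff]
      have : 0 ≤ B := (abs_nonneg _).trans hx
      have := mul_nonneg hβ this
      linarith
    calc β * Real.exp (-(β * B)) * x ^ 2 ≤ β * 1 * x ^ 2 :=
          mul_le_mul_of_nonneg_right (mul_le_mul_of_nonneg_left e4 hβ) (sq_nonneg _)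
      _ = (-x) * (-(β * x)) := by ring
      _ ≤ (-x) * (Real.exp (-(β * x)) - 1) := mul_le_mul_of_nonneg_left e1 (by linarith)
      _ = _ := by ring

/-- the variance of the trace -/
def vr (L : LD G N n) : ℝ := ∫ g, rt L g ^ 2 ∂μ

lemma vr_pos (hN : 1 ≤ N) [μ.IsOpenPosMeasure] : 0 < vr μ L := by
  unfold vr
  have hc : Continuous fun g : G => rt L g ^ 2 := rt_cont.pow 2
  refine hc.integral_pos_of_hasCompactSupport_nonneg_nonzero (HasCompactSupport.of_compactSpace _)
    (fun g => sq_nonneg _) (x := 1) ?_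
  have : rt L 1 = N := by
    unfold rt
    rw [map_one, trace_one, Fintype.card_fin]; simp
  rw [this]
  have : (0 : ℝ) < N := by exact_mod_cast hN
  positivity

/-- integration of the square over the opposite link -/
lemma int_sq {c : G} {z0 : ℂ} (hc : L.rho c = z0 • (1 : Mat N)) (hz0 : z0 ≠ 1) (hl : 3 ≤ l)
    (y : St d l) {i k : Fin d} (hk : k ≠ i) (U : Ed d l → G) :
    vr μ L ≤ ∫ g, Xf L y i (Function.update U (y + eT k, i) g) ^ 2 ∂μ := by
  have hl2 : 2 ≤ l := by omega
  obtain ⟨X', hX'⟩ : ∃ X' : (Ed d l → G) → ℝ, X' = fun U => Xf L y i U - rt L (plqT U y i k) :=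
    ⟨_, rfl⟩
  have hne : ∀ k' : Fin d, k' ≠ k → y + eT k ≠ y + eT k' := by
    intro k' hk' h
    have h1 : (eT k : St d l) = eT k' := add_left_cancel h
    have h2 := congrFun h1 k
    unfold eT at h2
    rw [Pi.single_eq_same, Pi.single_eq_of_ne hk'.symm] at h2
    have : Fact (1 < l) := ⟨by omega⟩
    exact one_ne_zero h2
  have h0 : y + eT k ≠ y := fun h => eT_ne_zero hl2 k (by simpa using h)
  have hm : ∀ k' : Fin d, y + eT k ≠ y - eT k' := by
    intro k' h
    have h1 : (eT k + eT k' : St d l) = 0 := by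
      have := congrArg (fun z => z - y + eT k') h
      simp only [add_sub_cancel_left] at this
      rw [this]; abel
    have h2 := congrFun h1 k
    unfold eT at h2
    rw [Pi.add_apply, Pi.single_eq_same, Pi.zero_apply] at h2
    by_cases hkk : k' = k
    · subst hkk
      rw [Pi.single_eq_same] at h2
      have h3 : ((2 : ℕ) : ZMod l) = 0 := by push_cast; rw [← h2]; ring
      rw [ZMod.natCast_eq_zero_iff] at h3
      have := Nat.le_of_dvd (by norm_num) h3
      omega
    · rw [Pi.single_eq_of_ne (Ne.symm hkk), add_zero] at h2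
      have : Fact (1 < l) := ⟨by omega⟩
      exact one_ne_zero h2
  have hdep : Dep (fun e => e ≠ (y + eT k, i)) X' := by
    intro U U' h
    have hh : ∀ z k', k' ≠ i → U (z, k') = U' (z, k') := fun z k' hk' => h _ fun h' =>
      hk' (Prod.ext_iff.1 h').2
    have hz : ∀ z, z ≠ y + eT k → U (z, i) = U' (z, i) := fun z hz => h _ fun h' =>
      hz (Prod.ext_iff.1 h').1
    rw [hX']
    have e1 : ∀ V : Ed d l → G, Xf L y i V - rt L (plqT V y i k) = ∑ k', if k' ≠ i then
        (if k' = k then 0 else rt L (plqT V y i k')) + rt L (plqT V (y - eT k') i k') else 0 := by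
      intro V
      unfold Xf
      have e2 : rt L (plqT V y i k) = ∑ k', if k' = k then rt L (plqT V y i k) else 0 := by
        rw [Finset.sum_ite_eq', if_pos (Finset.mem_univ _)]
      rw [e2, ← Finset.sum_sub_distrib]
      refine Finset.sum_congr rfl fun k' _ => ?_
      by_cases h1 : k' = k
      · subst h1
        simp [hk]
      · simp [h1]
    simp only [e1]
    refine Finset.sum_congr rfl fun k' _ => ?_
    by_cases hk' : k' ≠ i
    · simp only [hk', ne_eq, not_false_eq_true, if_true]
      congr 1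
      · split_ifs with h1
        · rfl
        · rw [plqT_congr (hz _ h0.symm) (hh _ _ hk') (hz _ (hne k' h1).symm) (hh _ _ hk')]
      · have e3 : y - eT k' + eT k' = y := by abel
        rw [plqT_congr (hz _ (hm k').symm) (hh _ _ hk') (by rw [e3]; exact hz _ h0.symm)
          (hh _ _ hk')]
    · simp [hk']
  have hu : Continuous fun g : G => Function.update U (y + eT k, i) g :=
    continuous_const.update _ continuous_id
  -- the trace of the plaquette
  obtain ⟨p, hp⟩ : ∃ p : G → ℝ, p = fun g => rt L (plqT (Function.update U (y + eT k, i) g) y i k) :=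
    ⟨_, rfl⟩
  have hpc : Continuous p := by
    rw [hp]; exact rt_cont.comp ((plqT_cont _ _ _).comp hu)
  have hpe : ∀ g, p g = rt L ((U (y, k))⁻¹ * (U (y, i) * U (y + eT i, k)) * g⁻¹) := by
    intro g
    rw [hp]
    simp only
    unfold plqT
    rw [Function.update_self, Function.update_of_ne (fun h => h0.symm (Prod.ext_iff.1 h).1),
      Function.update_of_ne (fun h => hk (Prod.ext_iff.1 h).2),
      Function.update_of_ne (fun h => hk (Prod.ext_iff.1 h).2), ← rt_conj' (U (y, k))]
    congr 1
    group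
  have hp2 : ∫ g, p g ^ 2 ∂μ = vr μ L := by
    simp only [hpe]
    have e1 := integral_inv_eq_self (μ := μ) (fun g => rt L ((U (y, k))⁻¹ *
      (U (y, i) * U (y + eT i, k)) * g) ^ 2)
    have e2 := integral_mul_left_eq_self (μ := μ) (fun g => rt L g ^ 2)
      ((U (y, k))⁻¹ * (U (y, i) * U (y + eT i, k)))
    exact e1.trans e2
  have hp1 : ∫ g, p g ∂μ = 0 := by
    have e1 : ∀ g, p g = (trace (L.rho g * L.rho ((U (y, k))⁻¹ *
        (U (y, i) * U (y + eT i, k)))⁻¹)).re := by
      intro g
      rw [hpe, ← rt_inv, ← map_mul]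
      unfold rt
      congr 3
      group
    simp only [e1]
    exact mean_zero μ hc hz0 _
  have hX : ∀ g, Xf L y i (Function.update U (y + eT k, i) g) = p g + X' U := by
    intro g
    rw [← dep_update hdep U g, hX', hp]
    ring
  simp only [hX]
  have e3 : ∀ g, (p g + X' U) ^ 2 = p g ^ 2 + (2 * X' U * p g + X' U ^ 2) := fun g => by ring
  simp only [e3]
  have k1 : Continuous fun g => p g ^ 2 := hpc.pow 2
  have k2 : Continuous fun g => 2 * X' U * p g + X' U ^ 2 := by fun_prop
  have k3 : Continuous fun g => 2 * X' U * p g := by fun_prop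
  have k4 : Continuous fun _ : G => X' U ^ 2 := continuous_const
  rw [integral_add (TH190.YV.cont_int k1) (TH190.YV.cont_int k2),
    integral_add (TH190.YV.cont_int k3) (TH190.YV.cont_int k4), integral_const_mul, hp1, hp2,
    mul_zero, zero_add]
  simp only [integral_const, probReal_univ, one_smul]
  have := sq_nonneg (X' U)
  linarith

/-- the sum of the expectations of the plaquettes around a link -/
theorem Zt_Xf {c : G} {z0 : ℂ} (hc : L.rho c = z0 • (1 : Mat N)) (hz0 : z0 ≠ 1) (hl : 3 ≤ l)
    {i k : Fin d} (hk : k ≠ i) {β : ℝ} (hβ : 0 ≤ β) (y : St d l) :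
    β * Real.exp (-(6 * d * N * β)) * vr μ L * Zt μ L β (fun _ : Ed d l → G => 1) ≤
      Zt μ L β (Xf L y i) := by
  have hl2 : 2 ≤ l := by omega
  obtain ⟨B, hB⟩ : ∃ B : ℝ, B = 2 * d * N := ⟨_, rfl⟩
  have hXa : ∀ (y : St d l) (U : Ed d l → G), |Xf L y i U| ≤ B := fun y U => by
    rw [hB]; exact Xf_abs y i U
  obtain ⟨c1, hc1⟩ : ∃ c1 : ℝ, c1 = ∑ k : Fin d, (if k ≠ i then 2 * (N : ℝ) else 0) := ⟨_, rfl⟩
  have hact : ∀ (y : St d l) (U : Ed d l → G), act L U = Rf L y i U + (c1 - Xf L y i U) := by
    intro y U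
    obtain ⟨c2, h2, h3⟩ := act_split' (L := L) hl2 y i U
    rw [h3, h2, hc1]
  have hXc := fun y => Xf_cont (L := L) (l := l) y i
  have hRc := fun y => Rf_cont (L := L) (l := l) y i
  have hact_c : Continuous (act L : (Ed d l → G) → ℝ) := act_cont
  -- first step
  have s1 : ∫ U, Xf L y i U * Real.exp (-(β * (Rf L y i U + c1))) ∂(ME μ (Ed d l)) = 0 := by
    rw [← one_link μ (y, i) (by fun_prop)]
    have : ∀ U : Ed d l → G, ∫ g, Xf L y i (Function.update U (y, i) g) *
        Real.exp (-(β * (Rf L y i (Function.update U (y, i) g) + c1))) ∂μ = 0 := by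
      intro U
      simp only [dep_update (Rf_dep y i)]
      rw [integral_mul_const, int_Xf μ hc hz0 hl2, zero_mul]
    simp only [this]
    simp
  have s2 : Zt μ L β (Xf L y i) = ∫ U, Xf L y i U * (1 - Real.exp (-(β * Xf L y i U))) *
      Real.exp (-(β * act L U)) ∂(ME μ (Ed d l)) := by
    unfold Zt
    rw [← sub_eq_zero, ← integral_sub (TH190.YV.cont_int (by fun_prop))
      (TH190.YV.cont_int (by fun_prop)), ← s1]
    refine integral_congr_ae (Filter.Eventually.of_forall fun U => ?_)
    simp only
    have : Real.exp (-(β * (Rf L y i U + c1))) = Real.exp (-(β * Xf L y i U)) *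
        Real.exp (-(β * act L U)) := by
      rw [← Real.exp_add, hact y U]; congr 1; ring
    rw [this]; ring
  have s3 : β * Real.exp (-(β * B)) * ∫ U, Xf L y i U ^ 2 * Real.exp (-(β * act L U))
      ∂(ME μ (Ed d l)) ≤ Zt μ L β (Xf L y i) := by
    rw [s2, ← integral_const_mul]
    refine integral_mono (TH190.YV.cont_int (by fun_prop)) (TH190.YV.cont_int (by fun_prop))
      fun U => ?_
    have := mul_le_mul_of_nonneg_right (elem hβ (hXa y U)) (Real.exp_pos (-(β * act L U))).le
    calc _ = β * Real.exp (-(β * B)) * Xf L y i U ^ 2 * Real.exp (-(β * act L U)) := by ring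
      _ ≤ _ := this
  -- second step
  obtain ⟨y', hy'⟩ : ∃ y', y' = y + eT k := ⟨_, rfl⟩
  have hlow : ∀ U : Ed d l → G, Real.exp (-(β * (Rf L y' i U + c1))) ≤
      Real.exp (β * B) * Real.exp (-(β * act L U)) := by
    intro U
    rw [← Real.exp_add, Real.exp_le_exp, hact y' U]
    have := (abs_le.1 (hXa y' U)).1
    nlinarith
  have hup : ∀ U : Ed d l → G, Real.exp (-(β * act L U)) ≤
      Real.exp (β * B) * Real.exp (-(β * (Rf L y' i U + c1))) := by
    intro U
    rw [← Real.exp_add, Real.exp_le_exp, hact y' U]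
    have := (abs_le.1 (hXa y' U)).2
    nlinarith
  have s4 : vr μ L * ∫ U, Real.exp (-(β * (Rf L y' i U + c1))) ∂(ME μ (Ed d l)) ≤
      ∫ U, Xf L y i U ^ 2 * Real.exp (-(β * (Rf L y' i U + c1))) ∂(ME μ (Ed d l)) := by
    rw [← one_link μ (y', i) (F := fun U => Xf L y i U ^ 2 *
      Real.exp (-(β * (Rf L y' i U + c1)))) (by fun_prop), ← integral_const_mul]
    have e1 : ∀ U : Ed d l → G, ∫ g, Xf L y i (Function.update U (y', i) g) ^ 2 *
        Real.exp (-(β * (Rf L y' i (Function.update U (y', i) g) + c1))) ∂μ =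
        (∫ g, Xf L y i (Function.update U (y', i) g) ^ 2 ∂μ) *
          Real.exp (-(β * (Rf L y' i U + c1))) := by
      intro U
      simp only [dep_update (Rf_dep y' i)]
      rw [integral_mul_const]
    simp only [e1]
    have hcI : Continuous fun U : Ed d l → G =>
        ∫ g, Xf L y i (Function.update U (y', i) g) ^ 2 ∂μ := by
      have hcc : Continuous (Function.uncurry fun (U : Ed d l → G) (g : G) =>
          Xf L y i (Function.update U (y', i) g) ^ 2) := by
        refine ((hXc y).comp ?_).pow 2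
        exact continuous_fst.update _ continuous_snd
      have h := continuous_parametric_integral_of_continuous (μ := μ) hcc isCompact_univ
      simpa only [Measure.restrict_univ] using h
    refine integral_mono (TH190.YV.cont_int (by fun_prop)) (TH190.YV.cont_int (by fun_prop))
      fun U => ?_
    refine mul_le_mul_of_nonneg_right ?_ (Real.exp_pos _).le
    rw [hy']
    exact int_sq μ hc hz0 hl y hk U
  have hv0 : 0 ≤ vr μ L := integral_nonneg fun g => sq_nonneg _
  have s5 : Zt μ L β (fun _ : Ed d l → G => 1) ≤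
      Real.exp (β * B) * ∫ U, Real.exp (-(β * (Rf L y' i U + c1))) ∂(ME μ (Ed d l)) := by
    unfold Zt
    simp only [one_mul]
    rw [← integral_const_mul]
    exact integral_mono (TH190.YV.cont_int (by fun_prop)) (TH190.YV.cont_int (by fun_prop)) hup
  have s6 : ∫ U, Xf L y i U ^ 2 * Real.exp (-(β * (Rf L y' i U + c1))) ∂(ME μ (Ed d l)) ≤
      Real.exp (β * B) * ∫ U, Xf L y i U ^ 2 * Real.exp (-(β * act L U)) ∂(ME μ (Ed d l)) := by
    rw [← integral_const_mul]
    refine integral_mono (TH190.YV.cont_int (by fun_prop)) (TH190.YV.cont_int (by fun_prop))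
      fun U => ?_
    have := mul_le_mul_of_nonneg_left (hlow U) (sq_nonneg (Xf L y i U))
    calc _ ≤ Xf L y i U ^ 2 * (Real.exp (β * B) * Real.exp (-(β * act L U))) := this
      _ = _ := by ring
  obtain ⟨I1, hI1⟩ : ∃ I1, I1 = ∫ U, Real.exp (-(β * (Rf L y' i U + c1))) ∂(ME μ (Ed d l)) :=
    ⟨_, rfl⟩
  obtain ⟨I2, hI2⟩ : ∃ I2, I2 = ∫ U, Xf L y i U ^ 2 * Real.exp (-(β * act L U))
    ∂(ME μ (Ed d l)) := ⟨_, rfl⟩
  rw [← hI1] at s4 s5
  rw [← hI2] at s3 s6
  have s7 : vr μ L * I1 ≤ Real.exp (β * B) * I2 := s4.trans s6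
  have s8 : vr μ L * Zt μ L β (fun _ : Ed d l → G => 1) ≤
      Real.exp (β * B) * (Real.exp (β * B) * I2) := by
    calc _ ≤ vr μ L * (Real.exp (β * B) * I1) := mul_le_mul_of_nonneg_left s5 hv0
      _ = Real.exp (β * B) * (vr μ L * I1) := by ring
      _ ≤ _ := mul_le_mul_of_nonneg_left s7 (Real.exp_pos _).le
  have hE : Real.exp (-(6 * d * N * β)) = Real.exp (-(β * B)) * (Real.exp (-(β * B)) *
      Real.exp (-(β * B))) := by
    rw [← Real.exp_add, ← Real.exp_add, hB]; congr 1; ring
  have hE2 : Real.exp (-(β * B)) * Real.exp (β * B) = 1 := by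
    rw [← Real.exp_add]; simp
  rw [hE]
  calc β * (Real.exp (-(β * B)) * (Real.exp (-(β * B)) * Real.exp (-(β * B)))) * vr μ L *
        Zt μ L β (fun _ : Ed d l → G => 1)
      = β * Real.exp (-(β * B)) * (Real.exp (-(β * B)) * Real.exp (-(β * B)) *
        (vr μ L * Zt μ L β (fun _ : Ed d l → G => 1))) := by ring
    _ ≤ β * Real.exp (-(β * B)) * (Real.exp (-(β * B)) * Real.exp (-(β * B)) *
        (Real.exp (β * B) * (Real.exp (β * B) * I2))) := by gcongr
    _ = β * Real.exp (-(β * B)) * ((Real.exp (-(β * B)) * Real.exp (β * B)) *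
        (Real.exp (-(β * B)) * Real.exp (β * B)) * I2) := by ring
    _ = β * Real.exp (-(β * B)) * I2 := by rw [hE2]; ring
    _ ≤ _ := s3

end

end Pool.Agent.T2h21.YM
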