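import Mathlib
import Pool.Agent.T2h21.YM.Pos

/-!
# Permutations of the coordinates, and the lower bound of the plaquette
-/

open MeasureTheory Matrix Filter
open scoped Matrix.Norms.Frobenius ContDiff Topology
open Pool.Agent.H906R3.YM hiding Pl
open Pool.Agent.W793.YM Pool.Agent.TH618.YM Pool.Agent.TH190.YV

namespace Pool.Agent.T2h21.YM

set_option linter.unusedSectionVars false
set_option linter.unusedVariables false

noncomputable section

variable {d l : ℕ} [NeZero l] {G : Type*} [Group G] [TopologicalSpace G] [IsTopologicalGroup G]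
  [CompactSpace G] [SecondCountableTopology G] [MeasurableSpace G] [BorelSpace G] (μ : Measure G)
  [IsProbabilityMeasure μ] [μ.IsMulLeftInvariant] [μ.IsMulRightInvariant] [μ.IsInvInvariant]
  {N n : ℕ} {L : LD G N n}

/-- permutation of the coordinates of the links -/
def pmE (τ : Equiv.Perm (Fin d)) : Ed d l ≃ Ed d l :=
  (Equiv.arrowCongr τ (Equiv.refl (ZMod l))).prodCongr τ

lemma pmE_apply (τ : Equiv.Perm (Fin d)) (x : St d l) (i : Fin d) :
    pmE τ (x, i) = (x ∘ τ.symm, τ i) := rfl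

/-- permutation of the coordinates of the configurations -/
def pm (τ : Equiv.Perm (Fin d)) (U : Ed d l → G) : Ed d l → G := fun e => U (pmE τ e)

lemma pm_mp (τ : Equiv.Perm (Fin d)) : MeasurePreserving (pm τ : (Ed d l → G) → Ed d l → G)
    (ME μ (Ed d l)) (ME μ (Ed d l)) := by
  have h := measurePreserving_piCongrLeft (fun _ : Ed d l => μ) (pmE (l := l) τ).symm
  have h1 : (pm τ : (Ed d l → G) → Ed d l → G) =
      MeasurableEquiv.piCongrLeft (fun _ : Ed d l => G) (pmE τ).symm := by
    funext U f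
    have h2 := MeasurableEquiv.piCongrLeft_apply_apply (β := fun _ : Ed d l => G)
      (pmE (l := l) τ).symm U (pmE τ f)
    rw [Equiv.symm_apply_apply] at h2
    rw [h2]
    rfl
  rw [h1]
  exact h

lemma eT_perm (τ : Equiv.Perm (Fin d)) (i : Fin d) :
    (eT i : St d l) ∘ τ.symm = eT (τ i) := by
  funext k
  unfold eT
  simp only [Function.comp_apply, Pi.single_apply]
  congr 1
  rw [eq_iff_iff]
  exact Equiv.symm_apply_eq τ

lemma plqT_pm (τ : Equiv.Perm (Fin d)) (U : Ed d l → G) (x : St d l) (i k : Fin d) :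
    plqT (pm τ U) x i k = plqT U (x ∘ τ.symm) (τ i) (τ k) := by
  unfold plqT pm
  simp only [pmE_apply]
  have h1 : ∀ j : Fin d, (x + eT j : St d l) ∘ τ.symm = x ∘ τ.symm + eT (τ j) := by
    intro j
    rw [← eT_perm]; rfl
  rw [h1, h1]

/-- the action as a sum over all ordered pairs -/
lemma act_two (U : Ed d l → G) :
    2 * act L U = ∑ x, ∑ i, ∑ k, if i ≠ k then we L (plqT U x i k) else 0 := by
  unfold act
  rw [Finset.mul_sum]
  refine Finset.sum_congr rfl fun x _ => ?_
  have hsym : ∀ i k, we L (plqT U x i k) = we L (plqT U x k i) := fun i k => by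
    rw [plqT_swap U x i k, we_inv]
  have h1 : ∀ i k : Fin d, (if i ≠ k then we L (plqT U x i k) else 0) =
      (if i < k then we L (plqT U x i k) else 0) + (if k < i then we L (plqT U x k i) else 0) := by
    intro i k
    rcases lt_trichotomy i k with h | h | h
    · simp [h, h.ne, not_lt.2 h.le]
    · subst h; simp
    · simp [h, h.ne', not_lt.2 h.le, hsym i k]
  rw [Finset.sum_congr rfl fun i _ => Finset.sum_congr rfl fun k _ => h1 i k]
  simp only [Finset.sum_add_distrib]
  rw [two_mul]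
  congr 1
  exact Finset.sum_comm

lemma act_pm (τ : Equiv.Perm (Fin d)) (U : Ed d l → G) : act L (pm τ U) = act L U := by
  have h1 : 2 * act L (pm τ U) = 2 * act L U := by
    rw [act_two, act_two]
    simp only [plqT_pm]
    have e1 := Equiv.sum_comp (Equiv.arrowCongr τ (Equiv.refl (ZMod l)))
      (fun y : St d l => ∑ i, ∑ k, if i ≠ k then we L (plqT U y (τ i) (τ k)) else 0)
    have e2 : ∀ x : St d l, (Equiv.arrowCongr τ (Equiv.refl (ZMod l))) x = x ∘ τ.symm :=
      fun x => rfl
    simp only [e2] at e1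
    rw [e1]
    refine Finset.sum_congr rfl fun x _ => ?_
    have e3 := Equiv.sum_comp τ (fun i' => ∑ k, if i' ≠ τ k then we L (plqT U x i' (τ k)) else 0)
    have e4 : ∀ i' : Fin d, (∑ k, if i' ≠ τ k then we L (plqT U x i' (τ k)) else 0) =
        ∑ k', if i' ≠ k' then we L (plqT U x i' k') else 0 := fun i' =>
      Equiv.sum_comp τ (fun k' => if i' ≠ k' then we L (plqT U x i' k') else 0)
    simp only [e4] at e3
    rw [← e3]
    refine Finset.sum_congr rfl fun i _ => ?_
    rw [← e4 (τ i)]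
    refine Finset.sum_congr rfl fun k _ => ?_
    simp only [ne_eq, EmbeddingLike.apply_eq_iff_eq]
  linarith

lemma Zt_pm (τ : Equiv.Perm (Fin d)) {β : ℝ} {F : (Ed d l → G) → ℝ} (hF : Continuous F) :
    Zt μ L β (fun U => F (pm τ U)) = Zt μ L β F := by
  unfold Zt
  have hact_c : Continuous (act L : (Ed d l → G) → ℝ) := act_cont
  have hcc : Continuous fun U : Ed d l → G => F U * Real.exp (-(β * act L U)) := by fun_prop
  have hmp := pm_mp (G := G) (l := l) μ τ
  conv_rhs => rw [← hmp.map_eq]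
  rw [integral_map hmp.measurable.aemeasurable hcc.aestronglyMeasurable]
  refine integral_congr_ae (Filter.Eventually.of_forall fun U => ?_)
  simp only
  rw [act_pm]

/-- all the plaquettes with a given first direction have the same expectation -/
lemma Zt_dir {i k k' : Fin d} (hk : k ≠ i) (hk' : k' ≠ i) (β : ℝ) :
    Zt μ L β (fun U : Ed d l → G => rt L (plqT U 0 i k')) =
      Zt μ L β (fun U : Ed d l → G => rt L (plqT U 0 i k)) := by
  have h1 := Zt_pm (L := L) μ (Equiv.swap k k') (β := β)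
    (F := fun U : Ed d l → G => rt L (plqT U 0 i k)) (rt_cont.comp (plqT_cont _ _ _))
  rw [← h1]
  congr 1
  funext U
  rw [plqT_pm, Equiv.swap_apply_left, Equiv.swap_apply_of_ne_of_ne hk.symm hk'.symm]
  rfl

lemma Zt_shift (z : St d l) (i k : Fin d) (β : ℝ) :
    Zt μ L β (fun U : Ed d l → G => rt L (plqT U z i k)) =
      Zt μ L β (fun U : Ed d l → G => rt L (plqT U 0 i k)) := by
  rw [← Zt_tr μ β z (fun U : Ed d l → G => rt L (plqT U 0 i k))]
  congr 1
  funext U
  have : plqT (tr z U) 0 i k = plqT U (0 + z) i k := by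
    unfold plqT tr
    simp only
    rw [add_right_comm 0 (eT i) z, add_right_comm 0 (eT k) z]
  rw [this, zero_add]

/-- **The lower bound of the plaquette.** -/
theorem plaq_low {c : G} {z0 : ℂ} (hc : L.rho c = z0 • (1 : Mat N)) (hz0 : z0 ≠ 1) (hN : 1 ≤ N)
    [μ.IsOpenPosMeasure] {β : ℝ} (hβ : 0 < β) {i k : Fin d} (hk : k ≠ i) (hl : 3 ≤ l) :
    β * Real.exp (-(6 * d * N * β)) * vr μ L / (2 * d) ≤
      EX μ L β (fun U : Ed d l → G => rt L (rect U 0 i k 1 1)) := by
  have hd : 1 ≤ d := by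
    have := i.2
    omega
  have hd0 : (1 : ℝ) ≤ d := by exact_mod_cast hd
  have h1 := Zt_Xf μ hc hz0 hl hk hβ.le (0 : St d l)
  have hv := vr_pos (L := L) μ hN
  have hZ := Zt_pos (L := L) (d := d) (l := l) μ β
  obtain ⟨z, hz⟩ : ∃ z, z = Zt μ L β (fun U : Ed d l → G => rt L (plqT U 0 i k)) := ⟨_, rfl⟩
  have e1 : Zt μ L β (Xf L (0 : St d l) i : (Ed d l → G) → ℝ) =
      ∑ k' : Fin d, if k' ≠ i then 2 * z else 0 := by
    have hcc : ∀ k' ∈ (Finset.univ : Finset (Fin d)), Continuous fun U : Ed d l → G =>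
        (if k' ≠ i then rt L (plqT U 0 i k') + rt L (plqT U (0 - eT k') i k') else 0) := by
      intro k' _
      split_ifs
      · exact (rt_cont.comp (plqT_cont _ _ _)).add (rt_cont.comp (plqT_cont _ _ _))
      · exact continuous_const
    have e2 := Zt_sum μ (L := L) (β := β) Finset.univ hcc
    unfold Xf
    rw [e2]
    refine Finset.sum_congr rfl fun k' _ => ?_
    by_cases hk' : k' ≠ i
    · simp only [hk', ne_eq, not_false_eq_true, if_true]
      have c1 : Continuous fun U : Ed d l → G => rt L (plqT U 0 i k') :=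
        rt_cont.comp (plqT_cont _ _ _)
      have c2 : Continuous fun U : Ed d l → G => rt L (plqT U (0 - eT k') i k') :=
        rt_cont.comp (plqT_cont _ _ _)
      have c3 := Zt_add (L := L) μ (β := β) c1 c2
      rw [c3, Zt_shift μ (0 - eT k') i k' β, Zt_dir μ hk hk' β, ← hz]
      ring
    · simp only [hk', if_false]
      unfold Zt
      simp
  have e3 : ∑ k' : Fin d, (if k' ≠ i then 2 * z else 0) = (d - 1) * (2 * z) := by
    have h4 : ∀ k' : Fin d, (if k' ≠ i then 2 * z else 0) = 2 * z - (if k' = i then 2 * z else 0) := by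
      intro k'
      by_cases hk : k' = i
      · simp [hk]
      · simp [hk]
    rw [Finset.sum_congr rfl fun k _ => h4 k, Finset.sum_sub_distrib,
      Finset.sum_ite_eq' Finset.univ i, if_pos (Finset.mem_univ _), Finset.sum_const,
      Finset.card_univ, Fintype.card_fin, nsmul_eq_mul]
    ring
  rw [e1, e3] at h1
  have e4 : ∀ U : Ed d l → G, rect U 0 i k 1 1 = plqT U 0 i k := by
    intro U
    unfold rect plqT
    simp only [ln_succ, ln_zero, mul_one, one_smul]
  simp only [e4]
  unfold EX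
  rw [← hz, le_div_iff₀ hZ, div_mul_eq_mul_div, div_le_iff₀ (by positivity)]
  have hpos : 0 < β * Real.exp (-(6 * d * N * β)) * vr μ L *
      Zt μ L β (fun _ : Ed d l → G => 1) := by positivity
  have hz1 : 0 < (d - 1) * (2 * z) := lt_of_lt_of_le hpos h1
  have hz2 : 0 < z := by
    by_contra h
    have := mul_nonneg (sub_nonneg.2 hd0) (by linarith : (0 : ℝ) ≤ -(2 * z))
    linarith
  calc _ ≤ (d - 1) * (2 * z) := h1
    _ ≤ d * (2 * z) := mul_le_mul_of_nonneg_right (by linarith) (by linarith)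
    _ = _ := by ring

/-- the properties of the limits of the loops -/
theorem limits {c : G} {z0 : ℂ} (hc : L.rho c = z0 • (1 : Mat N)) (hz0 : z0 ≠ 1) (hN : 1 ≤ N)
    [μ.IsOpenPosMeasure] {β : ℝ} (hβ : 0 < β) {i j : Fin d} (hij : i ≠ j)
    {w : ℕ → ℕ → ℝ} {s : ℕ → ℕ} (hs : Tendsto s atTop atTop)
    (hw : ∀ R T, Tendsto (fun k => wR2 μ L (s k + 1) β i j R T) atTop (𝓝 (w R T))) :
    (∀ R T, 0 < w R T) ∧ (∀ T, w 0 T = 1) ∧ (∀ R T, w R T ≤ 1) ∧ ∃ (P : ℕ → ℝ) (σ : ℝ),
      (∀ R, Tendsto (fun T : ℕ => -Real.log (w R T) / T) atTop (𝓝 (P R))) ∧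
      Tendsto (fun R : ℕ => P R / R) atTop (𝓝 σ) ∧ 0 ≤ σ ∧
      (∀ R T : ℕ, 1 ≤ T → P R ≤ -Real.log (w R T) / T) ∧
      ∀ R : ℕ, 1 ≤ R → σ ≤ P R / R := by
  have hN0 : (0 : ℝ) < N := by exact_mod_cast hN
  have hev : ∀ K : ℕ, ∀ᶠ k in atTop, K < s k + 1 := fun K => by
    filter_upwards [hs.eventually_ge_atTop K] with k hk
    omega
  have w0 : ∀ T, w 0 T = 1 := fun T => by
    refine tendsto_nhds_unique (hw 0 T) ?_
    simp only [wR2_zero μ hN]
    exact tendsto_const_nhds
  have w0' : ∀ R, w R 0 = 1 := fun R => by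
    refine tendsto_nhds_unique (hw R 0) ?_
    have : ∀ k, wR2 μ L (s k + 1) β i j R 0 = 1 := fun k => by
      rw [wR2_swap, wR2_zero μ hN]
    simp only [this]
    exact tendsto_const_nhds
  have wle : ∀ R T, w R T ≤ 1 := fun R T =>
    le_of_tendsto' (hw R T) fun k => wR2_le μ hN _ _ _ _ _
  have wc : ∀ R T, w (R + 1) T ^ 2 ≤ w R T * w (R + 2) T := fun R T => by
    refine le_of_tendsto_of_tendsto ((hw (R + 1) T).pow 2) ((hw R T).mul (hw (R + 2) T)) ?_
    filter_upwards [hev (R + 2)] with k hk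
    exact wR2_cs μ (by omega) hij hβ.le (by omega) T
  have wc' : ∀ R T, w R (T + 1) ^ 2 ≤ w R T * w R (T + 2) := fun R T => by
    refine le_of_tendsto_of_tendsto ((hw R (T + 1)).pow 2) ((hw R T).mul (hw R (T + 2))) ?_
    filter_upwards [hev (T + 2)] with k hk
    rw [wR2_swap μ β i j R (T + 1), wR2_swap μ β i j R T, wR2_swap μ β i j R (T + 2)]
    exact wR2_cs μ (by omega) hij.symm hβ.le (by omega) R
  have hv := vr_pos (L := L) μ hN
  have hd : 1 ≤ d := by
    have := i.2
    omega
  have hd0 : (0 : ℝ) < d := by exact_mod_cast hd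
  have h11 : 0 < w 1 1 := by
    have h1 : β * Real.exp (-(6 * d * N * β)) * vr μ L / (2 * d) / N ≤ w 1 1 := by
      refine ge_of_tendsto (hw 1 1) ?_
      filter_upwards [hev 1] with k hk
      unfold wR2
      exact div_le_div_of_nonneg_right (plaq_low μ hc hz0 hN hβ hij.symm (by omega)) hN0.le
    exact lt_of_lt_of_le (by positivity) h1
  obtain ⟨hpos, h⟩ := double w0 w0' wle wc wc' h11
  exact ⟨hpos, w0, wle, h⟩

end

end Pool.Agent.T2h21.YM
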