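import Mathlib
import Pool.Agent.T2h21.YM.Super
import Pool.Agent.TH190.YV.Bound2

/-!
# The area law on the torus
-/

open MeasureTheory Matrix
open scoped Matrix.Norms.Frobenius ContDiff RealInnerProductSpace
open Pool.Agent.H906R3.YM hiding Pl
open Pool.Agent.W793.YM Pool.Agent.TH618.YM Pool.Agent.TH190.YV

namespace Pool.Agent.T2h21.YM

set_option linter.unusedSectionVars false
set_option linter.unusedVariables false

noncomputable section

variable {K : Type*} [Group K] [TopologicalSpace K] [IsTopologicalGroup K] [CompactSpace K]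
  [SecondCountableTopology K] [MeasurableSpace K] [BorelSpace K] (κ : Measure K)
  [IsProbabilityMeasure κ] [κ.IsMulLeftInvariant]
  {V : Type*} [NormedAddCommGroup V] [InnerProductSpace ℝ V] [FiniteDimensional ℝ V]
  [CompleteSpace V] {m : ℕ}
  {d l : ℕ} [NeZero l] {G : Type*} [Group G] [TopologicalSpace G] [IsTopologicalGroup G]
  [CompactSpace G] [SecondCountableTopology G] [MeasurableSpace G] [BorelSpace G]
  (μ : Measure G) [IsProbabilityMeasure μ] [μ.IsMulLeftInvariant]
  {N n : ℕ} {L : LD G N n} {S : Spin K V m} {P : Type*} [Fintype P] [DecidableEq P] {b : ℕ}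
  (W : Blk L S P b) {i j : Fin d}

lemma ln_dep' (hij : i ≠ j) (k : ℕ) (x : St d l) :
    Dep (fun e : Ed d l => e.2 ≠ j) (fun U : Ed d l → G => ln U i k x) := by
  intro U U' h
  show ln U i k x = ln U' i k x
  induction k generalizing x with
  | zero => rfl
  | succ k ih => rw [ln_succ, ln_succ, ih, h _ hij]

lemma HJ_cont (J : St d l → Fin d → Fin d → ℝ) : Continuous (HJ L J : (Ed d l → G) → ℝ) := by
  unfold HJ
  refine continuous_finsetSum _ fun x _ => continuous_finsetSum _ fun i _ =>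
    continuous_finsetSum _ fun k _ => ?_
  split_ifs
  · exact continuous_const.mul (rt_cont.comp (plqT_cont _ _ _))
  · exact continuous_const

include κ W in
/-- the loop based at the origin -/
theorem torus_zero (hm : 1 ≤ m) (hl : 2 ≤ l)
    {J : St d l → Fin d → Fin d → ℝ} {a β β₁ : ℝ} (hb : 2 * b * β ≤ (m + 1) * β₁)
    (ha : 0 < a) (hβ : 0 < β) (hβ₁ : 0 < β₁)
    (hc : β₁ * ((d : ℝ) - 2 + Real.cosh a) = 1)
    (hJ : ∀ x k, k ≠ j → |Jv j J (x, k)| ≤ β) (hij : i ≠ j) {R T : ℕ} (hR : R ≤ l) (hT : T ≤ l) :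
    |∫ U, rt L (rect U 0 i j R T) * Real.exp (HJ L J U) ∂(ME μ (Ed d l))| ≤
      N * ((ph l a R / ph l a 0) ^ T * ∫ U, Real.exp (HJ L J U) ∂(ME μ (Ed d l))) := by
  have hRj : (R • eT i : St d l) j = 0 := by simp [eT, hij.symm]
  have h0j : (0 : St d l) j = 0 := rfl
  have hθ : (∑ k : Fin d, if k ≠ j then β₁ else 0) ≤ β₁ * ((d : ℝ) - 1) := by
    have h4 : ∀ k : Fin d, (if k ≠ j then β₁ else 0) = β₁ - (if k = j then β₁ else 0) := by
      intro k
      by_cases hk : k = j
      · simp [hk]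
      · simp [hk]
    rw [Finset.sum_congr rfl fun k _ => h4 k, Finset.sum_sub_distrib,
      Finset.sum_ite_eq' Finset.univ j, if_pos (Finset.mem_univ _), Finset.sum_const,
      Finset.card_univ, Fintype.card_fin, nsmul_eq_mul]
    linarith
  have hθ1 : β₁ * ((d : ℝ) - 1) < 1 := by
    rw [← hc]
    have := Real.one_lt_cosh.2 ha.ne'
    exact mul_lt_mul_of_pos_left (by linarith) hβ₁
  have hK : ∀ t < T, ∀ U : Ed d l → G,
      ‖avg μ (vt j (t : ZMod l)) (KJ L j (Jv j J) 0 (R • eT i) t) U‖ ≤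
      (ph l a R / ph l a 0) * avg μ (vt j (t : ZMod l)) (EJ L j (Jv j J) t) U := by
    intro t _ U
    have h1 := norm_avg_KJ κ μ W (J := Jv j J) (t := t) (f := sf a i (R • eT i + t • eT j))
      (x := 0) (y := R • eT i) hm hl hb hβ.le (fun e => hJ e.1.1 e.1.2 e.2.1) hθ hθ1
      (fun z => sf_nonneg _ _ _ _) (sf_self _ _ _).ge
      (fun z _ => sf_sup hl hij hβ₁.le hc _ z) h0j hRj U
    rw [sf_val hij hR t] at h1
    exact h1
  have e1 : ∀ U : Ed d l → G, rt L (rect U 0 i j R T) =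
      rt L (ln U j T 0 * ln U i R (0 + T • eT j) * (ln U j T (R • eT i))⁻¹ * (ln U i R 0)⁻¹) := by
    intro U
    rw [← rt_inv (rect U 0 i j R T)]
    congr 1
    unfold rect
    rw [zero_add (R • eT i)]
    group
  simp only [e1]
  exact loop_bound μ h0j hRj hT hK (ln_cont _ _ _) (ln_cont _ _ _) (ln_dep' hij _ _)
    (ln_dep' hij _ _) (Rt_cont T J) (Rt_dep T J) (fun U => HJ_slabs hT J U)

/-- translations preserve the product measure -/
lemma tr_mp (z : St d l) : MeasurePreserving (tr z : (Ed d l → G) → Ed d l → G)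
    (ME μ (Ed d l)) (ME μ (Ed d l)) := by
  let e : Ed d l ≃ Ed d l := (Equiv.addRight z).prodCongr (Equiv.refl _)
  have h := measurePreserving_piCongrLeft (fun _ : Ed d l => μ) e.symm
  have h1 : (tr z : (Ed d l → G) → Ed d l → G) =
      MeasurableEquiv.piCongrLeft (fun _ : Ed d l => G) e.symm := by
    funext U f
    have h2 := MeasurableEquiv.piCongrLeft_apply_apply (β := fun _ : Ed d l => G) e.symm U (e f)
    rw [Equiv.symm_apply_apply] at h2
    rw [h2]
    rfl
  rw [h1]
  exact h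

lemma plqT_tr' (z : St d l) (U : Ed d l → G) (x : St d l) (i k : Fin d) :
    plqT (tr z U) x i k = plqT U (x + z) i k := by
  unfold plqT tr
  simp only
  rw [add_right_comm x (eT i) z, add_right_comm x (eT k) z]

include κ W in
/-- **The area law on the torus.** -/
theorem torus (hm : 1 ≤ m) (hl : 2 ≤ l)
    {J : St d l → Fin d → Fin d → ℝ} {a β β₁ : ℝ} (hb : 2 * b * β ≤ (m + 1) * β₁)
    (ha : 0 < a) (hβ : 0 < β) (hβ₁ : 0 < β₁)
    (hc : β₁ * ((d : ℝ) - 2 + Real.cosh a) = 1)
    (hJ : ∀ x k, k ≠ j → |Jv j J (x, k)| ≤ β) (hij : i ≠ j) {R T : ℕ} (hR : R ≤ l) (hT : T ≤ l)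
    (x : St d l) :
    |∫ U, rt L (rect U x i j R T) * Real.exp (HJ L J U) ∂(ME μ (Ed d l))| ≤
      N * ((ph l a R / ph l a 0) ^ T * ∫ U, Real.exp (HJ L J U) ∂(ME μ (Ed d l))) := by
  obtain ⟨J', hJ'⟩ : ∃ J' : St d l → Fin d → Fin d → ℝ, J' = fun z => J (z + x) := ⟨_, rfl⟩
  have hH : ∀ U : Ed d l → G, HJ L J' (tr x U) = HJ L J U := by
    intro U
    unfold HJ
    rw [hJ']
    simp only [plqT_tr']
    exact Equiv.sum_comp (Equiv.addRight x) (fun y => ∑ i, ∑ k, if i < k then
      J y i k * rt L (plqT U y i k) else 0)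
  have h1 := torus_zero κ μ W (j := j) (i := i) (J := J') hm hl hb ha hβ hβ₁ hc (fun y k hk => by
    have := hJ (y + x) k hk
    rw [hJ']
    exact this) hij hR hT
  have hmp := tr_mp (G := G) μ x
  have e1 : ∫ U, rt L (rect U 0 i j R T) * Real.exp (HJ L J' U) ∂(ME μ (Ed d l)) =
      ∫ U, rt L (rect U x i j R T) * Real.exp (HJ L J U) ∂(ME μ (Ed d l)) := by
    have hcc : Continuous fun U : Ed d l → G => rt L (rect U 0 i j R T) * Real.exp (HJ L J' U) :=
      (rt_cont.comp (rect_cont _ _ _ _ _)).mul (Real.continuous_exp.comp (HJ_cont J'))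
    conv_lhs => rw [← hmp.map_eq]
    rw [integral_map hmp.measurable.aemeasurable hcc.aestronglyMeasurable]
    refine integral_congr_ae (Filter.Eventually.of_forall fun U => ?_)
    simp only
    rw [hH, rect_tr, zero_add]
  have e2 : ∫ U, Real.exp (HJ L J' U) ∂(ME μ (Ed d l)) =
      ∫ U, Real.exp (HJ L J U) ∂(ME μ (Ed d l)) := by
    have hcc : Continuous fun U : Ed d l → G => Real.exp (HJ L J' U) :=
      Real.continuous_exp.comp (HJ_cont J')
    conv_lhs => rw [← hmp.map_eq]
    rw [integral_map hmp.measurable.aemeasurable hcc.aestronglyMeasurable]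
    refine integral_congr_ae (Filter.Eventually.of_forall fun U => ?_)
    simp only
    rw [hH]
  rw [e1, e2] at h1
  exact h1

end

end Pool.Agent.T2h21.YM
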