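import Mathlib
import Pool.Agent.T2h21.YM.SlT
import Pool.Agent.T2h21.YM.Torus

/-!
# The area law for groups which contain the maximal torus of `SU(N)`
-/

open MeasureTheory Matrix
open scoped Matrix.Norms.Frobenius ContDiff RealInnerProductSpace ComplexConjugate
open Pool.Agent.H906R3.YM hiding Pl
open Pool.Agent.W793.YM hiding avg
open Pool.Agent.TH618.YM Pool.Agent.TH190.YV

namespace Pool.Agent.T2h21.YM

set_option linter.unusedSectionVars false
set_option linter.unusedVariables false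

noncomputable section

section dist

variable {d l : ℕ} [NeZero l]

/-- the distance from zero -/
def md (v : ZMod l) : ℕ := min v.val (l - v.val)

lemma val_succ' (hl : 2 ≤ l) (v : ZMod l) :
    (v + 1).val = if v.val + 1 = l then 0 else v.val + 1 := by
  have : Fact (1 < l) := ⟨by omega⟩
  have h1 : (v + 1).val = (v.val + 1) % l := by rw [ZMod.val_add, ZMod.val_one]
  have h2 := ZMod.val_lt v
  rw [h1]
  split_ifs with h
  · rw [h, Nat.mod_self]
  · exact Nat.mod_eq_of_lt (by omega)

lemma md_succ (hl : 2 ≤ l) (v : ZMod l) : md (v + 1) ≤ md v + 1 ∧ md v ≤ md (v + 1) + 1 := by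
  have h1 := val_succ' hl v
  have h2 := ZMod.val_lt v
  unfold md
  rw [h1]
  split_ifs with h <;> omega

lemma md_one (hl : 2 ≤ l) {K : ℕ} (hK : 2 * K < l) (v : ZMod l) :
    ¬(min (md (v + 1)) K < min (md v) K ∧ min (md (v - 1)) K < min (md v) K) := by
  obtain ⟨u, hu⟩ : ∃ u : ZMod l, u = v - 1 := ⟨_, rfl⟩
  have hv : v = u + 1 := by rw [hu]; ring
  rw [← hu, hv]
  have h1 := val_succ' hl u
  have h3 := val_succ' hl (u + 1)
  have h2 := ZMod.val_lt u
  unfold md
  rw [h3, h1]
  split_ifs <;> omega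

/-- the truncated distance in the direction `i` -/
def dd (K : ℕ) (i : Fin d) (y z : St d l) : ℕ := min (md ((z - y) i)) K

lemma dd_self (K : ℕ) (i : Fin d) (y : St d l) : dd K i y y = 0 := by
  unfold dd md
  simp

lemma dd_succ (hl : 2 ≤ l) (K : ℕ) (i i' : Fin d) (y z : St d l) :
    dd K i y (z + eT i') ≤ dd K i y z + 1 ∧ dd K i y z ≤ dd K i y (z + eT i') + 1 := by
  unfold dd
  by_cases h : i' = i
  · subst h
    have e1 : (z + eT i' - y : St d l) i' = (z - y) i' + 1 := by
      simp only [Pi.sub_apply, Pi.add_apply, eT, Pi.single_eq_same]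
      ring
    rw [e1]
    have := md_succ hl ((z - y) i')
    omega
  · have e1 : (z + eT i' - y : St d l) i = (z - y) i := by
      simp only [Pi.sub_apply, Pi.add_apply, eT, Pi.single_eq_of_ne (Ne.symm h), add_zero]
    rw [e1]
    omega

lemma dd_tow (hl : 2 ≤ l) {K : ℕ} (hK : 2 * K < l) {i j : Fin d} (hij : i ≠ j) (y z : St d l) :
    ∑ i', (if i' ≠ j then (if dd K i y (z + eT i') < dd K i y z then (1 : ℝ) else 0) +
      (if dd K i y (z - eT i') < dd K i y z then (1 : ℝ) else 0) else 0) ≤ 1 := by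
  have h1 : ∀ i', (if i' ≠ j then (if dd K i y (z + eT i') < dd K i y z then (1 : ℝ) else 0) +
      (if dd K i y (z - eT i') < dd K i y z then (1 : ℝ) else 0) else 0) =
      if i' = i then ((if dd K i y (z + eT i) < dd K i y z then (1 : ℝ) else 0) +
      (if dd K i y (z - eT i) < dd K i y z then (1 : ℝ) else 0)) else 0 := by
    intro i'
    by_cases h : i' = i
    · subst h
      rw [if_pos hij, if_pos rfl]
    · rw [if_neg h]
      have e1 : dd K i y (z + eT i') = dd K i y z := by
        unfold dd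
        have e1 : (z + eT i' - y : St d l) i = (z - y) i := by
          simp only [Pi.sub_apply, Pi.add_apply, eT, Pi.single_eq_of_ne (Ne.symm h), add_zero]
        rw [e1]
      have e2 : dd K i y (z - eT i') = dd K i y z := by
        unfold dd
        have e1 : (z - eT i' - y : St d l) i = (z - y) i := by
          simp only [Pi.sub_apply, eT, Pi.single_eq_of_ne (Ne.symm h), sub_zero]
        rw [e1]
      rw [e1, e2]
      simp
  rw [Finset.sum_congr rfl fun i' _ => h1 i', Finset.sum_ite_eq', if_pos (Finset.mem_univ _)]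
  have h2 := md_one hl hK ((z - y) i)
  have e1 : dd K i y (z + eT i) = min (md ((z - y) i + 1)) K := by
    unfold dd
    congr 2
    simp only [Pi.sub_apply, Pi.add_apply, eT, Pi.single_eq_same]
    ring
  have e2 : dd K i y (z - eT i) = min (md ((z - y) i - 1)) K := by
    unfold dd
    congr 2
    simp only [Pi.sub_apply, eT, Pi.single_eq_same]
    ring
  have e3 : dd K i y z = min (md ((z - y) i)) K := rfl
  rw [e1, e2, e3]
  by_cases a1 : min (md ((z - y) i + 1)) K < min (md ((z - y) i)) K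
  · have a2 : ¬(min (md ((z - y) i - 1)) K < min (md ((z - y) i)) K) := fun h => h2 ⟨a1, h⟩
    rw [if_pos a1, if_neg a2]
    norm_num
  · rw [if_neg a1]
    split_ifs <;> norm_num

/-- the distance of the two ends -/
lemma dd_end {i j : Fin d} (hij : i ≠ j) {R : ℕ} (hR : R ≤ l) (t : ℕ) :
    dd (min R (l - R)) i (R • eT i + t • eT j) ((0 : St d l) + t • eT j) = min R (l - R) := by
  unfold dd
  have e1 : ((0 : St d l) + t • eT j - (R • eT i + t • eT j) : St d l) i = -(R : ZMod l) := by
    have h2 : (t • eT j : St d l) i = 0 := by simp [eT, hij]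
    have h3 : (R • eT i : St d l) i = R := by simp [eT]
    rw [Pi.sub_apply, Pi.add_apply, Pi.add_apply, Pi.zero_apply, h2, h3]
    ring
  rw [e1]
  have hl := NeZero.pos l
  have h3 : md (-(R : ZMod l)) = min R (l - R) := by
    unfold md
    rcases Nat.eq_zero_or_pos R with h0 | h0
    · subst h0
      simp
    · rcases Nat.lt_or_ge R l with h1 | h1
      · have hne : (R : ZMod l) ≠ 0 := by
          intro h
          rw [ZMod.natCast_eq_zero_iff] at h
          exact absurd (Nat.le_of_dvd h0 h) (by omega)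
        have : NeZero (R : ZMod l) := ⟨hne⟩
        rw [ZMod.val_neg_of_ne_zero, ZMod.val_natCast, Nat.mod_eq_of_lt h1]
        omega
      · have : R = l := le_antisymm hR h1
        subst this
        simp
  rw [h3, min_self]

end dist

/-- the decay factor -/
def thT (d : ℕ) (β : ℝ) : ℝ :=
  β / (2 * (1 - (d - 1) * β) * (1 - 2 * ((d - 1) * β) + β))

variable [MeasurableSpace Circle] [BorelSpace Circle] (κ : Measure Circle)
  [IsProbabilityMeasure κ] [κ.IsMulLeftInvariant]
  {d l : ℕ} [NeZero l] {G : Type*} [Group G] [TopologicalSpace G] [IsTopologicalGroup G]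
  [CompactSpace G] [SecondCountableTopology G] [MeasurableSpace G] [BorelSpace G]
  (μ : Measure G) [IsProbabilityMeasure μ] [μ.IsMulLeftInvariant]
  {N n : ℕ} {L : LD G N n} (V : Trs L) {i j : Fin d}

lemma mkT_mp (t : ZMod l) (k : TS d l N) :
    MeasurePreserving (mkT V j t k) (ME μ (Ed d l)) (ME μ (Ed d l)) := by
  have h1 : mkT V j t k = fun (U : Ed d l → G) e =>
      (if vt j t e then (fun z => V.dg (fun p => k (e.1, p)) * z) else id) (U e) := by
    funext U e
    unfold mkT
    split_ifs <;> rfl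
  rw [h1]
  refine measurePreserving_pi _ _ fun e => ?_
  split_ifs
  · exact measurePreserving_mul_left μ _
  · exact MeasurePreserving.id μ

lemma int_mkT {F : Type*} [NormedAddCommGroup F] [NormedSpace ℝ F] [CompleteSpace F] (t : ZMod l)
    {f : (Ed d l → G) → F} (hf : Continuous f) :
    ∫ g, ∫ k, f (mkT V j t k g) ∂(MP κ (St d l × (Fin N × Fin N))) ∂(ME μ (Ed d l)) =
      ∫ g, f g ∂(ME μ (Ed d l)) := by
  have hc : Continuous fun z : TS d l N × (Ed d l → G) => f (mkT V j t z.1 z.2) :=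
    hf.comp (mkT_cont V)
  have h1 : ∀ k : TS d l N, ∫ g, f (mkT V j t k g) ∂(ME μ (Ed d l)) =
      ∫ g, f g ∂(ME μ (Ed d l)) := by
    intro k
    have h2 := (mkT_mp (j := j) μ V t k).map_eq
    conv_rhs => rw [← h2]
    rw [integral_map (mkT_mp (j := j) μ V t k).measurable.aemeasurable hf.aestronglyMeasurable]
  have h3 : ∫ k, ∫ g, f (mkT V j t k g) ∂(ME μ (Ed d l)) ∂(MP κ (St d l × (Fin N × Fin N))) =
      ∫ g, f g ∂(ME μ (Ed d l)) := by
    simp only [h1]
    simp
  rw [← h3]
  exact integral_integral_swap (f := fun g k => f (mkT V j t k g))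
    (TH190.YV.cont_int (hc.comp continuous_swap))

lemma mixp_mkT (t : ZMod l) (k : TS d l N) (g U : Ed d l → G) :
    mixp (vt j t) (mkT V j t k g) U = mkT V j t k (mixp (vt j t) g U) := by
  funext e
  unfold mixp mkT
  by_cases h : vt j t e
  · simp only [if_pos h]
  · simp only [if_neg h]

/-- the two-point functions of the torus -/
lemma two_T (hN : 3 ≤ N) (hl : 2 ≤ l) (hij : i ≠ j) {t : ZMod l} {J : Ed d l → ℝ} {β : ℝ}
    (hβ : 0 < β) (hβ1 : 2 * (((d : ℝ) - 1) * β) < 1) (hJ : ∀ e : Ih j t, |J e.1| ≤ β) {K : ℕ}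
    (hK : 2 * K < l) (U : Ed d l → G) (x y : St d l) (p q : Fin N) :
    ‖Tc (flwT κ d l N) (bs (P := Fin N) (j := j) (t := t)) bt
      (cT (L := L) J U) (dn (up 0 (x, p)) (y, q))‖ ≤
        thT d β ^ dd K i y x *
          Zc (flwT κ d l N) (bs (P := Fin N) (j := j) (t := t)) bt (cT (L := L) J U) := by
  have hd : 2 ≤ d := by
    have h1 := i.2
    have h2 := j.2
    have h3 : (i : ℕ) ≠ j := fun h => hij (Fin.ext h)
    omega
  have hd' : (2 : ℝ) ≤ d := by exact_mod_cast hd
  obtain ⟨w, hw⟩ : ∃ w : ℝ, w = ((d : ℝ) - 1) * β := ⟨_, rfl⟩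
  have hwβ : β ≤ w := by
    rw [hw]
    exact le_mul_of_one_le_left hβ.le (by linarith)
  rw [← hw] at hβ1
  have hw1 : 0 < 1 - w := by linarith
  have hθ : thT d β = β / (2 * (1 - w) * (1 - 2 * w + β)) := by unfold thT; rw [hw]
  have hden : 0 < 2 * (1 - w) * (1 - 2 * w + β) := by
    have : 0 < 1 - 2 * w + β := by linarith
    positivity
  refine charge_lim (flwT κ d l N) (M := MT L J U) (w := w) (β := β) (s := 1 / (1 - w))
    (φ := w / (1 - w)) (θ := thT d β) (D := fun z => dd K i y z)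
    (fun e => by unfold MT; positivity) (fun e h => eT_ne hl e.1.1.1 e.1.1.2 h) (fun e => ?_)
    (fun a => ?_) (fun a => ?_) (by linarith) hβ1 hβ.le (by linarith) ?_ ?_ ?_ ?_ ?_ ?_
    (by omega) (cT_norm J U) (dd_self K i y) p q
  · have := dd_succ hl K i e.1.1.2 y e.1.1.1
    exact ⟨this.2, this.1⟩
  · refine (row_sumT hJ U (f := fun _ => (1 : ℝ)) (fun _ => zero_le_one) a).trans ?_
    split_ifs
    · have h3 : ∑ i : Fin d, (if i ≠ j then (1 : ℝ) + 1 else 0) = 2 * ((d : ℝ) - 1) := by
        have h4 : ∀ k : Fin d, (if k ≠ j then (1 : ℝ) + 1 else 0) =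
            2 - (if k = j then (2 : ℝ) else 0) := by
          intro k
          by_cases hk : k = j
          · simp [hk]
          · simp [hk]; norm_num
        rw [Finset.sum_congr rfl fun k _ => h4 k, Finset.sum_sub_distrib,
          Finset.sum_ite_eq' Finset.univ j, if_pos (Finset.mem_univ _), Finset.sum_const,
          Finset.card_univ, Fintype.card_fin, nsmul_eq_mul]
        ring
      rw [h3, hw]
      exact le_of_eq (by ring)
    · linarith
  · refine (row_sumT hJ U (f := fun z => if dd K i y z < dd K i y a.1 then (1 : ℝ) else 0)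
      (fun z => by split_ifs <;> norm_num) a).trans ?_
    split_ifs
    · have := dd_tow hl hK hij y a.1
      calc _ ≤ β * 1 := mul_le_mul_of_nonneg_left this hβ.le
        _ = β := mul_one _
    · exact hβ.le
  · rw [hθ]; exact div_nonneg hβ.le hden.le
  · rw [hθ, div_le_div_iff₀ hden hw1]
    have h1 : 0 ≤ (2 * w - β) * (1 - 2 * w) := mul_nonneg (by linarith) (by linarith)
    have h2 : 0 ≤ (1 - w) * ((2 * w - β) * (1 - 2 * w)) := mul_nonneg hw1.le h1
    nlinarith
  · rw [div_le_one hw1]; linarith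
  · intro r hr
    have h1 : w / (1 - w) ≤ 1 := by rw [div_le_one hw1]; linarith
    have h2 : ∀ r : ZMod N, gv (w / (1 - w)) r ≤ 1 := by
      intro r; unfold gv; split_ifs
      · exact le_rfl
      · exact h1
    have h3 : 1 / (1 - w) = 1 + w / (1 - w) := by field_simp; ring
    rw [h3]
    by_cases h4 : r - 1 = 0
    · have h5 : r + 1 ≠ 0 := by
        intro h5
        have h6 : (2 : ZMod N) = 0 := by linear_combination h5 - h4
        have h7 : ((2 : ℕ) : ZMod N) = 0 := by exact_mod_cast h6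
        rw [ZMod.natCast_eq_zero_iff] at h7
        exact absurd (Nat.le_of_dvd two_pos h7) (by omega)
      have h6 : gv (w / (1 - w)) (r + 1) = w / (1 - w) := by unfold gv; rw [if_neg h5]
      rw [h6]
      linarith [h2 (r - 1)]
    · have h6 : gv (w / (1 - w)) (r - 1) = w / (1 - w) := by unfold gv; rw [if_neg h4]
      rw [h6]
      linarith [h2 (r + 1)]
  · exact le_of_eq (by ring)
  · refine le_of_eq ?_
    rw [hθ]
    have h1 : 1 - 2 * w + β ≠ 0 := by
      have : 0 < 1 - 2 * w + β := by linarith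
      exact this.ne'
    have h2 : 1 - w ≠ 0 := hw1.ne'
    field_simp
    ring

include κ V in
/-- one slab -/
lemma norm_avg_T (hN : 3 ≤ N) (hl : 2 ≤ l) (hij : i ≠ j) {J : Ed d l → ℝ} {β : ℝ} {t : ℕ}
    (hβ : 0 < β) (hβ1 : 2 * (((d : ℝ) - 1) * β) < 1)
    (hJ : ∀ e : Ih j (t : ZMod l), |J e.1| ≤ β) {R : ℕ} (hR : R ≤ l) (hR2 : 2 * R ≠ l)
    (U : Ed d l → G) :
    ‖avg μ (vt j (t : ZMod l)) (KJ L j J 0 (R • eT i) t) U‖ ≤
      thT d β ^ (min R (l - R)) * avg μ (vt j (t : ZMod l)) (EJ L j J t) U := by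
  have hRj : (R • eT i : St d l) j = 0 := by simp [eT, hij.symm]
  have h0j : (0 : St d l) j = 0 := rfl
  have hd : 2 ≤ d := by
    have h1 := i.2
    have h2 := j.2
    have h3 : (i : ℕ) ≠ j := fun h => hij (Fin.ext h)
    omega
  have hd' : (2 : ℝ) ≤ d := by exact_mod_cast hd
  have hth : 0 ≤ thT d β := by
    unfold thT
    have h1 : β ≤ ((d : ℝ) - 1) * β := le_mul_of_one_le_left hβ.le (by linarith)
    have h2 : 0 < 1 - 2 * (((d : ℝ) - 1) * β) + β := by linarith
    have h3 : 0 < 1 - ((d : ℝ) - 1) * β := by linarith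
    positivity
  have hmx : Continuous fun g : Ed d l → G => mixp (vt j (t : ZMod l)) g U :=
    (mixp_cont _).comp (Continuous.prodMk continuous_id continuous_const)
  have hK : Continuous fun g : Ed d l → G =>
      KJ L j J 0 (R • eT i) t (mixp (vt j (t : ZMod l)) g U) :=
    (KJ_cont _ _ _ _).comp hmx
  have hE : Continuous fun g : Ed d l → G => EJ L j J t (mixp (vt j (t : ZMod l)) g U) :=
    (EJ_cont _ _).comp hmx
  unfold avg
  rw [← int_mkT (j := j) κ μ V (t : ZMod l) hK, ← int_mkT (j := j) κ μ V (t : ZMod l) hE]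
  simp only [mixp_mkT]
  rw [← integral_const_mul]
  refine (norm_integral_le_integral_norm _).trans ?_
  have hmc : Continuous fun a : (Ed d l → G) × (TS d l N) =>
      mkT V j (t : ZMod l) a.2 (mixp (vt j (t : ZMod l)) a.1 U) :=
    (mkT_cont (j := j) (t := (t : ZMod l)) V).comp
      (Continuous.prodMk continuous_snd (hmx.comp continuous_fst))
  have hc1 : Continuous (Function.uncurry fun (g : Ed d l → G) (k : TS d l N) =>
      KJ L j J 0 (R • eT i) t (mkT V j (t : ZMod l) k (mixp (vt j (t : ZMod l)) g U))) :=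
    (KJ_cont _ _ _ _).comp hmc
  have hc2 : Continuous (Function.uncurry fun (g : Ed d l → G) (k : TS d l N) =>
      EJ L j J t (mkT V j (t : ZMod l) k (mixp (vt j (t : ZMod l)) g U))) :=
    (EJ_cont _ _).comp hmc
  have hc1' := continuous_parametric_integral_of_continuous
    (μ := MP κ (St d l × (Fin N × Fin N))) hc1 isCompact_univ
  have hc2' := continuous_parametric_integral_of_continuous
    (μ := MP κ (St d l × (Fin N × Fin N))) hc2 isCompact_univ
  simp only [Measure.restrict_univ] at hc1' hc2'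
  refine integral_mono (TH190.YV.cont_int hc1'.norm)
    (TH190.YV.cont_int (continuous_const.mul hc2')) fun g => ?_
  refine slab_T κ V (add_smul_j h0j t) (add_smul_j hRj t) (mixp (vt j (t : ZMod l)) g U)
    (pow_nonneg hth _) fun p q => ?_
  have h := two_T κ (L := L) (K := min R (l - R)) hN hl hij hβ hβ1 hJ (by omega)
    (mixp (vt j (t : ZMod l)) g U) ((0 : St d l) + t • eT j) (R • eT i + t • eT j) p q
  rw [dd_end hij hR t] at h
  exact h

include κ V in
/-- the loop based at the origin -/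
theorem torT_zero (hN : 3 ≤ N) (hl : 2 ≤ l) {J : St d l → Fin d → Fin d → ℝ} {β : ℝ}
    (hβ : 0 < β) (hβ1 : 2 * (((d : ℝ) - 1) * β) < 1)
    (hJ : ∀ x k, k ≠ j → |Jv j J (x, k)| ≤ β) (hij : i ≠ j) {R T : ℕ} (hR : R ≤ l)
    (hR2 : 2 * R ≠ l) (hT : T ≤ l) :
    |∫ U, rt L (rect U 0 i j R T) * Real.exp (HJ L J U) ∂(ME μ (Ed d l))| ≤
      N * ((thT d β ^ (min R (l - R))) ^ T *
        ∫ U, Real.exp (HJ L J U) ∂(ME μ (Ed d l))) := by
  have hRj : (R • eT i : St d l) j = 0 := by simp [eT, hij.symm]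
  have h0j : (0 : St d l) j = 0 := rfl
  have hK : ∀ t < T, ∀ U : Ed d l → G,
      ‖avg μ (vt j (t : ZMod l)) (KJ L j (Jv j J) 0 (R • eT i) t) U‖ ≤
      thT d β ^ (min R (l - R)) * avg μ (vt j (t : ZMod l)) (EJ L j (Jv j J) t) U :=
    fun t _ U => norm_avg_T κ μ V hN hl hij hβ hβ1 (fun e => hJ e.1.1 e.1.2 e.2.1) hR hR2 U
  have e1 : ∀ U : Ed d l → G, rt L (rect U 0 i j R T) =
      rt L (ln U j T 0 * ln U i R (0 + T • eT j) * (ln U j T (R • eT i))⁻¹ * (ln U i R 0)⁻¹) := by
    intro U
    rw [← rt_inv (rect U 0 i j R T)]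
    congr 1
    unfold rect
    rw [zero_add (R • eT i)]
    group
  simp only [e1]
  exact loop_bound μ h0j hRj hT hK (ln_cont _ _ _) (ln_cont _ _ _) (ln_dep' hij _ _)
    (ln_dep' hij _ _) (Rt_cont T J) (Rt_dep T J) (fun U => HJ_slabs hT J U)

include κ V in
/-- **The area law on the torus.** -/
theorem torT (hN : 3 ≤ N) (hl : 2 ≤ l) {J : St d l → Fin d → Fin d → ℝ} {β : ℝ}
    (hβ : 0 < β) (hβ1 : 2 * (((d : ℝ) - 1) * β) < 1)
    (hJ : ∀ x k, k ≠ j → |Jv j J (x, k)| ≤ β) (hij : i ≠ j) {R T : ℕ} (hR : R ≤ l)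
    (hR2 : 2 * R ≠ l) (hT : T ≤ l) (x : St d l) :
    |∫ U, rt L (rect U x i j R T) * Real.exp (HJ L J U) ∂(ME μ (Ed d l))| ≤
      N * ((thT d β ^ (min R (l - R))) ^ T *
        ∫ U, Real.exp (HJ L J U) ∂(ME μ (Ed d l))) := by
  obtain ⟨J', hJ'⟩ : ∃ J' : St d l → Fin d → Fin d → ℝ, J' = fun z => J (z + x) := ⟨_, rfl⟩
  have hH : ∀ U : Ed d l → G, HJ L J' (tr x U) = HJ L J U := by
    intro U
    unfold HJ
    rw [hJ']
    simp only [plqT_tr']
    exact Equiv.sum_comp (Equiv.addRight x) (fun y => ∑ i, ∑ k, if i < k then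
      J y i k * rt L (plqT U y i k) else 0)
  have h1 := torT_zero κ μ V (j := j) (i := i) (J := J') hN hl hβ hβ1 (fun y k hk => by
    have := hJ (y + x) k hk
    rw [hJ']
    exact this) hij hR hR2 hT
  have hmp := tr_mp (G := G) μ x
  have e1 : ∫ U, rt L (rect U 0 i j R T) * Real.exp (HJ L J' U) ∂(ME μ (Ed d l)) =
      ∫ U, rt L (rect U x i j R T) * Real.exp (HJ L J U) ∂(ME μ (Ed d l)) := by
    have hcc : Continuous fun U : Ed d l → G => rt L (rect U 0 i j R T) * Real.exp (HJ L J' U) :=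
      (rt_cont.comp (rect_cont _ _ _ _ _)).mul (Real.continuous_exp.comp (HJ_cont J'))
    conv_lhs => rw [← hmp.map_eq]
    rw [integral_map hmp.measurable.aemeasurable hcc.aestronglyMeasurable]
    refine integral_congr_ae (Filter.Eventually.of_forall fun U => ?_)
    simp only
    rw [hH, rect_tr, zero_add]
  have e2 : ∫ U, Real.exp (HJ L J' U) ∂(ME μ (Ed d l)) =
      ∫ U, Real.exp (HJ L J U) ∂(ME μ (Ed d l)) := by
    have hcc : Continuous fun U : Ed d l → G => Real.exp (HJ L J' U) :=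
      Real.continuous_exp.comp (HJ_cont J')
    conv_lhs => rw [← hmp.map_eq]
    rw [integral_map hmp.measurable.aemeasurable hcc.aestronglyMeasurable]
    refine integral_congr_ae (Filter.Eventually.of_forall fun U => ?_)
    simp only
    rw [hH]
  rw [e1, e2] at h1
  exact h1

end

end Pool.Agent.T2h21.YM
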